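import Mathlib

/-!
# Normal forms on the surface `a b = c t ^ q + 1`
-/

set_option autoImplicit false

namespace Pool.Agent.H556.RT

variable {F A : Type*} [Field F] [CommRing A] [Algebra F A]

/-- the span of the monomials of weight at most `D` -/
def SD (F : Type*) {A : Type*} [Field F] [CommRing A] [Algebra F A] (q : ℕ) (a b t : A) (D : ℕ) :
    Submodule F A :=
  Submodule.span F {x | ∃ i j l : ℕ, i + (q - 1) * j + l ≤ D ∧ x = a ^ i * b ^ j * t ^ l}

lemma mem_SD {q : ℕ} {a b t : A} {D i j l : ℕ} (h : i + (q - 1) * j + l ≤ D) :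
    a ^ i * b ^ j * t ^ l ∈ SD F q a b t D := Submodule.subset_span ⟨i, j, l, h, rfl⟩

lemma SD_mono {q : ℕ} {a b t : A} {D D' : ℕ} (h : D ≤ D') : SD F q a b t D ≤ SD F q a b t D' := by
  apply Submodule.span_mono
  rintro x ⟨i, j, l, h1, rfl⟩
  exact ⟨i, j, l, h1.trans h, rfl⟩

lemma SD_mul {q : ℕ} {a b t : A} {D E : ℕ} {x y : A} (hx : x ∈ SD F q a b t D)
    (hy : y ∈ SD F q a b t E) : x * y ∈ SD F q a b t (D + E) := by
  have h1 : SD F q a b t D * SD F q a b t E ≤ SD F q a b t (D + E) := by
    unfold SD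
    rw [Submodule.span_mul_span]
    apply Submodule.span_mono
    rintro _ ⟨_, ⟨i, j, l, h1, rfl⟩, _, ⟨i', j', l', h2, rfl⟩, rfl⟩
    refine ⟨i + i', j + j', l + l', ?_, ?_⟩
    · rw [mul_add]; omega
    · simp only [pow_add]; ring
  exact h1 (Submodule.mul_mem_mul hx hy)

lemma SD_one {q : ℕ} {a b t : A} (D : ℕ) : (1 : A) ∈ SD F q a b t D := by
  have := mem_SD (F := F) (q := q) (a := a) (b := b) (t := t) (D := D) (i := 0) (j := 0) (l := 0)
    (by simp)
  simpa using this

lemma SD_pow {q : ℕ} {a b t : A} {D : ℕ} {x : A} (hx : x ∈ SD F q a b t D) (n : ℕ) :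
    x ^ n ∈ SD F q a b t (D * n) := by
  induction n with
  | zero => rw [pow_zero]; exact SD_one _
  | succ n ih =>
    rw [pow_succ, mul_add, mul_one]
    exact SD_mul ih hx

/-- change of generators -/
lemma SD_le {q : ℕ} {a b t a' b' t' : A} (ha : a' ∈ SD F q a b t 1)
    (hb : b' ∈ SD F q a b t (q - 1)) (ht : t' ∈ SD F q a b t 1) (D : ℕ) :
    SD F q a' b' t' D ≤ SD F q a b t D := by
  unfold SD
  rw [Submodule.span_le]
  rintro x ⟨i, j, l, h1, rfl⟩
  have h2 := SD_mul (SD_mul (SD_pow ha i) (SD_pow hb j)) (SD_pow ht l)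
  rw [one_mul, one_mul] at h2
  exact SD_mono h1 h2

/-- the index set of the normal forms -/
def JD (q D : ℕ) : Finset (Bool × ℕ × ℕ) :=
  ((Finset.univ : Finset Bool) ×ˢ (Finset.range (D + 1)) ×ˢ (Finset.range (D + 1))).filter
    fun x => if x.1 then 1 ≤ x.2.1 ∧ (q - 1) * x.2.1 + x.2.2 ≤ D else x.2.1 + x.2.2 ≤ D

lemma mem_JD_false {q D i l : ℕ} : (false, i, l) ∈ JD q D ↔ i + l ≤ D := by
  unfold JD
  simp only [Finset.mem_filter, Finset.mem_product, Finset.mem_univ, Finset.mem_range, true_and,
    Bool.false_eq_true, if_false]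
  omega

lemma mem_JD_true {q D j l : ℕ} (hq : 2 ≤ q) :
    (true, j, l) ∈ JD q D ↔ 1 ≤ j ∧ (q - 1) * j + l ≤ D := by
  unfold JD
  simp only [Finset.mem_filter, Finset.mem_product, Finset.mem_univ, Finset.mem_range, true_and,
    if_true]
  constructor
  · exact fun h => h.2
  · intro h
    refine ⟨⟨?_, by omega⟩, h⟩
    have h1 : j ≤ (q - 1) * j := Nat.le_mul_of_pos_left _ (by omega)
    omega

/-- the normal forms -/
def nf (a b t : A) (x : Bool × ℕ × ℕ) : A := (if x.1 then b else a) ^ x.2.1 * t ^ x.2.2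

/-- the normal forms span -/
theorem SD_eq_span {q : ℕ} (hq : 2 ≤ q) {a b t : A} {c : F}
    (hab : a * b = algebraMap F A c * t ^ q + 1) (D : ℕ) :
    SD F q a b t D = Submodule.span F (Set.range fun x : JD q D => nf a b t x) := by
  apply le_antisymm
  · unfold SD
    rw [Submodule.span_le]
    rintro x ⟨i, j, l, h1, rfl⟩
    induction j generalizing i l with
    | zero =>
      rw [pow_zero, mul_one]
      rw [mul_zero, add_zero] at h1
      exact Submodule.subset_span ⟨⟨(false, i, l), mem_JD_false.2 h1⟩, rfl⟩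
    | succ j ih =>
      cases i with
      | zero =>
        rw [pow_zero, one_mul]
        rw [zero_add] at h1
        exact Submodule.subset_span ⟨⟨(true, j + 1, l), (mem_JD_true hq).2 ⟨by omega, h1⟩⟩, rfl⟩
      | succ i =>
        have h2 : a ^ (i + 1) * b ^ (j + 1) * t ^ l =
            c • (a ^ i * b ^ j * t ^ (l + q)) + a ^ i * b ^ j * t ^ l := by
          rw [Algebra.smul_def, pow_succ, pow_succ, pow_add]
          linear_combination (a ^ i * b ^ j * t ^ l) * hab
        rw [h2]
        have h3 : (q - 1) * (j + 1) = (q - 1) * j + (q - 1) := by ring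
        rw [h3] at h1
        refine Submodule.add_mem _ (Submodule.smul_mem _ _ (ih i (l + q) (by omega)))
          (ih i l (by omega))
  · rw [Submodule.span_le]
    rintro _ ⟨⟨⟨s, i, l⟩, hx⟩, rfl⟩
    cases s with
    | false =>
      have h1 := mem_JD_false.1 hx
      have h2 := mem_SD (F := F) (q := q) (a := a) (b := b) (t := t) (D := D) (i := i) (j := 0)
        (l := l) (by simpa using h1)
      rw [pow_zero, mul_one] at h2
      exact h2
    | true =>
      have h1 := (mem_JD_true hq).1 hx
      have h2 := mem_SD (F := F) (q := q) (a := a) (b := b) (t := t) (D := D) (i := 0) (j := i)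
        (l := l) (by simpa using h1.2)
      rw [pow_zero, one_mul] at h2
      exact h2

/-- the difference quotient -/
def dq (q : ℕ) (c γ : F) (a t : A) : A :=
  ∑ k ∈ Finset.range q, algebraMap F A (c * γ) * ((t + algebraMap F A γ * a) ^ k * t ^ (q - 1 - k))

lemma dq_mul (q : ℕ) (c γ : F) (a t : A) :
    a * dq q c γ a t = algebraMap F A c * (t + algebraMap F A γ * a) ^ q -
      algebraMap F A c * t ^ q := by
  unfold dq
  have h1 := Commute.mul_geom_sum₂ (Commute.all (t + algebraMap F A γ * a) t) q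
  rw [← Finset.mul_sum, ← mul_sub, ← h1, map_mul]
  ring

lemma dq_mem {q : ℕ} (hq : 1 ≤ q) (c γ : F) (a b t : A) : dq q c γ a t ∈ SD F q a b t (q - 1) := by
  unfold dq
  refine Submodule.sum_mem _ fun k hk => ?_
  rw [← Algebra.smul_def]
  apply Submodule.smul_mem
  have hk' := Finset.mem_range.1 hk
  have ht : t ∈ SD F q a b t 1 := by
    have := mem_SD (F := F) (q := q) (a := a) (b := b) (t := t) (D := 1) (i := 0) (j := 0) (l := 1)
      (by simp)
    simpa using this
  have ha : a ∈ SD F q a b t 1 := by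
    have := mem_SD (F := F) (q := q) (a := a) (b := b) (t := t) (D := 1) (i := 1) (j := 0) (l := 0)
      (by simp)
    simpa using this
  have h1 : t + algebraMap F A γ * a ∈ SD F q a b t 1 := by
    rw [← Algebra.smul_def]
    exact Submodule.add_mem _ ht (Submodule.smul_mem _ _ ha)
  have h2 := SD_mul (SD_pow h1 k) (SD_pow ht (q - 1 - k))
  have h3 : 1 * k + 1 * (q - 1 - k) = q - 1 := by omega
  rw [h3] at h2
  exact h2

/-- the automorphism of the surface -/
theorem span_change {q : ℕ} (hq : 2 ≤ q) {a b t : A} {c : F} (γ : F)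
    (hab : a * b = algebraMap F A c * t ^ q + 1) (D : ℕ) :
    Submodule.span F (Set.range fun x : JD q D =>
      nf a (b + dq q c γ a t) (t + algebraMap F A γ * a) x) =
    Submodule.span F (Set.range fun x : JD q D => nf a b t x) := by
  set t' := t + algebraMap F A γ * a with ht'
  set b' := b + dq q c γ a t with hb'
  have hab' : a * b' = algebraMap F A c * t' ^ q + 1 := by
    rw [hb', mul_add, dq_mul, hab, ← ht']
    ring
  have hone : ∀ (x y z : A), x ∈ SD F q x y z 1 := fun x y z => by
    have := mem_SD (F := F) (q := q) (a := x) (b := y) (t := z) (D := 1) (i := 1) (j := 0) (l := 0)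
      (by simp)
    simpa using this
  have htwo : ∀ (x y z : A), y ∈ SD F q x y z (q - 1) := fun x y z => by
    have := mem_SD (F := F) (q := q) (a := x) (b := y) (t := z) (D := q - 1) (i := 0) (j := 1)
      (l := 0) (by simp)
    simpa using this
  have hthree : ∀ (x y z : A), z ∈ SD F q x y z 1 := fun x y z => by
    have := mem_SD (F := F) (q := q) (a := x) (b := y) (t := z) (D := 1) (i := 0) (j := 0) (l := 1)
      (by simp)
    simpa using this
  rw [← SD_eq_span hq hab', ← SD_eq_span hq hab]
  apply le_antisymm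
  · apply SD_le (hone _ _ _)
    · exact Submodule.add_mem _ (htwo _ _ _) (dq_mem (by omega) _ _ _ _ _)
    · rw [ht', ← Algebra.smul_def]
      exact Submodule.add_mem _ (hthree _ _ _) (Submodule.smul_mem _ _ (hone _ _ _))
  · have ht2 : t = t' + algebraMap F A (-γ) * a := by
      rw [ht', map_neg]; ring
    apply SD_le (hone _ _ _)
    · -- `b = b' - dq`
      rw [show b = b' - dq q c γ a t by rw [hb']; ring]
      refine Submodule.sub_mem _ (htwo _ _ _) ?_
      unfold dq
      refine Submodule.sum_mem _ fun k hk => ?_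
      rw [← Algebra.smul_def]
      apply Submodule.smul_mem
      have hk' := Finset.mem_range.1 hk
      have h1 : t ∈ SD F q a b' t' 1 := by
        rw [ht2, ← Algebra.smul_def]
        exact Submodule.add_mem _ (hthree _ _ _) (Submodule.smul_mem _ _ (hone _ _ _))
      have h2 := SD_mul (SD_pow (hthree a b' t') k) (SD_pow h1 (q - 1 - k))
      have h3 : 1 * k + 1 * (q - 1 - k) = q - 1 := by omega
      rw [h3] at h2
      exact h2
    · rw [ht2, ← Algebra.smul_def]
      exact Submodule.add_mem _ (hthree _ _ _) (Submodule.smul_mem _ _ (hone _ _ _))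

end Pool.Agent.H556.RT
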