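import Mathlib
import Pool.Agent.H556.RT.Dan

/-!
# The sum of the exponents
-/

set_option autoImplicit false

namespace Pool.Agent.H556.RT

/-- the exponents -/
noncomputable def wt (q : ℕ) (κ : ℝ) (x : Bool × ℕ × ℕ) : ℝ :=
  if x.1 then x.2.2 + ((1 - q * κ) * x.2.1 - κ * x.2.2)
  else x.2.2 + (-x.2.1 - κ * x.2.2)

lemma sum_id (n : ℕ) : ∑ i ∈ Finset.range (n + 1), (i : ℝ) = n * (n + 1) / 2 := by
  induction n with
  | zero => simp
  | succ n ih => rw [Finset.sum_range_succ, ih]; push_cast; ring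

lemma sum_sq (n : ℕ) : ∑ i ∈ Finset.range (n + 1), (i : ℝ) ^ 2 = n * (n + 1) * (2 * n + 1) / 6 := by
  induction n with
  | zero => simp
  | succ n ih => rw [Finset.sum_range_succ, ih]; push_cast; ring

lemma sum_JD (q D : ℕ) (hq : 2 ≤ q) (f : Bool × ℕ × ℕ → ℝ) :
    ∑ x ∈ JD q D, f x =
      (∑ i ∈ Finset.range (D + 1), ∑ l ∈ Finset.range (D - i + 1), f (false, i, l)) +
      ∑ j ∈ Finset.Icc 1 (D / (q - 1)), ∑ l ∈ Finset.range (D - (q - 1) * j + 1), f (true, j, l) := by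
  classical
  have h1 : JD q D = ((Finset.range (D + 1)).sigma
        (fun i => Finset.range (D - i + 1))).image (fun x => (false, x.1, x.2)) ∪
      ((Finset.Icc 1 (D / (q - 1))).sigma
        (fun j => Finset.range (D - (q - 1) * j + 1))).image (fun x => (true, x.1, x.2)) := by
    ext ⟨s, i, l⟩
    rw [Finset.mem_union, Finset.mem_image, Finset.mem_image]
    cases s with
    | false =>
      rw [mem_JD_false]
      constructor
      · intro h
        left
        refine ⟨⟨i, l⟩, ?_, rfl⟩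
        rw [Finset.mem_sigma, Finset.mem_range, Finset.mem_range]
        simp only []
        omega
      · rintro (⟨⟨i', l'⟩, h, h2⟩ | ⟨⟨i', l'⟩, h, h2⟩)
        · rw [Finset.mem_sigma, Finset.mem_range, Finset.mem_range] at h
          simp only [Prod.mk.injEq, true_and] at h2 h
          omega
        · simp at h2
    | true =>
      rw [mem_JD_true hq]
      constructor
      · intro h
        right
        refine ⟨⟨i, l⟩, ?_, rfl⟩
        rw [Finset.mem_sigma, Finset.mem_Icc, Finset.mem_range]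
        simp only []
        refine ⟨⟨h.1, ?_⟩, by omega⟩
        rw [Nat.le_div_iff_mul_le (by omega), mul_comm]
        omega
      · rintro (⟨⟨i', l'⟩, h, h2⟩ | ⟨⟨i', l'⟩, h, h2⟩)
        · simp at h2
        · rw [Finset.mem_sigma, Finset.mem_Icc, Finset.mem_range] at h
          simp only [Prod.mk.injEq, true_and] at h2 h
          obtain ⟨rfl, rfl⟩ := h2
          obtain ⟨⟨h3, h4⟩, h5⟩ := h
          rw [Nat.le_div_iff_mul_le (by omega), mul_comm] at h4
          omega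
  rw [h1, Finset.sum_union, Finset.sum_image, Finset.sum_image, Finset.sum_sigma, Finset.sum_sigma]
  · rintro ⟨i, l⟩ _ ⟨i', l'⟩ _ h
    simp only [Prod.mk.injEq, true_and] at h
    obtain ⟨rfl, rfl⟩ := h
    rfl
  · rintro ⟨i, l⟩ _ ⟨i', l'⟩ _ h
    simp only [Prod.mk.injEq, true_and] at h
    obtain ⟨rfl, rfl⟩ := h
    rfl
  · rw [Finset.disjoint_left]
    intro x hx hy
    rw [Finset.mem_image] at hx hy
    obtain ⟨y, _, rfl⟩ := hx
    obtain ⟨z, _, hz⟩ := hy
    simp at hz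

lemma sum_false (D : ℕ) (κ : ℝ) : ∑ i ∈ Finset.range (D + 1), ∑ l ∈ Finset.range (D - i + 1),
    ((l : ℝ) + (-(i : ℝ) - κ * l)) = -(κ * (D * (D + 1) * (D + 2) / 6)) := by
  have h1 : ∀ i ∈ Finset.range (D + 1), ∑ l ∈ Finset.range (D - i + 1),
      ((l : ℝ) + (-(i : ℝ) - κ * l)) =
      (1 - κ) * (((D : ℝ) - i) * (D - i + 1) / 2) - i * (D - i + 1) := by
    intro i hi
    have hi' : i ≤ D := by have := Finset.mem_range.1 hi; omega
    have h2 : ∀ l : ℕ, ((l : ℝ) + (-(i : ℝ) - κ * l)) = (1 - κ) * l - i := fun l => by ring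
    simp only [h2]
    rw [Finset.sum_sub_distrib, ← Finset.mul_sum, sum_id, Finset.sum_const, Finset.card_range,
      Nat.cast_sub hi', nsmul_eq_mul]
    push_cast [Nat.cast_sub hi']
    ring
  rw [Finset.sum_congr rfl h1]
  have h3 : ∀ i : ℕ, (1 - κ) * (((D : ℝ) - i) * (D - i + 1) / 2) - i * (D - i + 1) =
      (1 - κ) * (D * (D + 1) / 2) - ((1 - κ) * ((2 * D + 1) / 2) + (D + 1)) * i
        + ((1 - κ) / 2 + 1) * (i : ℝ) ^ 2 := fun i => by ring
  simp only [h3]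
  rw [Finset.sum_add_distrib, Finset.sum_sub_distrib, ← Finset.mul_sum _ _ ((1 - κ) * _ + _),
    ← Finset.mul_sum _ _ ((1 - κ) / 2 + 1), sum_id, sum_sq, Finset.sum_const, Finset.card_range,
    nsmul_eq_mul]
  push_cast
  ring

lemma sum_true {p E : ℕ} (hp : 1 ≤ p) {A B : ℝ} (hA : 0 ≤ A) (hB : 0 ≤ B) :
    A * (p : ℝ) ^ 2 * ((E - 1) * E * (2 * E - 1) / 12) + B * p * ((E - 1) * E * (E + 1) / 6) ≤
    ∑ j ∈ Finset.Icc 1 E, ∑ l ∈ Finset.range (p * E - p * j + 1), (A * (l : ℝ) + B * j) := by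
  have h1 : ∀ j ∈ Finset.Icc 1 E, A * ((p : ℝ) ^ 2 * ((E : ℝ) - j) ^ 2 / 2) +
      B * (j * (p * ((E : ℝ) - j))) ≤
      ∑ l ∈ Finset.range (p * E - p * j + 1), (A * (l : ℝ) + B * j) := by
    intro j hj
    have hj' := (Finset.mem_Icc.1 hj).2
    have h2 : p * E - p * j = p * (E - j) := (Nat.mul_sub p E j).symm
    rw [Finset.sum_add_distrib, ← Finset.mul_sum, sum_id, Finset.sum_const, Finset.card_range,
      nsmul_eq_mul, h2]
    push_cast [Nat.cast_sub hj']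
    have h3 : (0 : ℝ) ≤ (E : ℝ) - j := by
      have : (j : ℝ) ≤ E := by exact_mod_cast hj'
      linarith
    have hp0 : (0 : ℝ) ≤ p := Nat.cast_nonneg _
    have hj0 : (0 : ℝ) ≤ j := Nat.cast_nonneg _
    have h4 : 0 ≤ (p : ℝ) * ((E : ℝ) - j) := mul_nonneg hp0 h3
    nlinarith [mul_nonneg hA h4, mul_nonneg hB hj0]
  refine le_trans (le_of_eq ?_) (Finset.sum_le_sum h1)
  have h5 : ∀ f : ℕ → ℝ, ∑ j ∈ Finset.Icc 1 E, f j = ∑ j ∈ Finset.range (E + 1), f j - f 0 := by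
    intro f
    rw [Finset.range_eq_Ico, Finset.sum_eq_sum_Ico_succ_bot (by omega)]
    have : Finset.Ico (0 + 1) (E + 1) = Finset.Icc 1 E := by
      ext x
      simp only [Finset.mem_Ico, Finset.mem_Icc]
      omega
    rw [this]
    ring
  rw [h5]
  have h6 : ∀ j : ℕ, A * ((p : ℝ) ^ 2 * ((E : ℝ) - j) ^ 2 / 2) + B * (j * (p * ((E : ℝ) - j))) =
      A * (p : ℝ) ^ 2 * (E ^ 2 / 2) + (B * p * E - A * (p : ℝ) ^ 2 * E) * j
        + (A * (p : ℝ) ^ 2 / 2 - B * p) * (j : ℝ) ^ 2 := fun j => by ring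
  simp only [h6]
  rw [Finset.sum_add_distrib, Finset.sum_add_distrib,
    ← Finset.mul_sum _ _ (B * p * E - A * (p : ℝ) ^ 2 * E),
    ← Finset.mul_sum _ _ (A * (p : ℝ) ^ 2 / 2 - B * p), sum_id,
    sum_sq, Finset.sum_const, Finset.card_range, nsmul_eq_mul]
  push_cast
  ring

/-- the sum of the exponents becomes positive -/
theorem exists_pos {q : ℕ} (hq : 2 ≤ q) {κ : ℝ} (hκ0 : 0 ≤ κ) (hκ : κ < 1 / q) :
    ∃ D : ℕ, 0 < ∑ x ∈ JD q D, wt q κ x := by
  obtain ⟨p, rfl⟩ : ∃ p, q = p + 1 := ⟨q - 1, by omega⟩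
  have hp : 1 ≤ p := by omega
  have hp' : (1 : ℝ) ≤ p := by exact_mod_cast hp
  push_cast at hκ
  have hκ1 : κ * (p + 1) < 1 := by
    rwa [lt_div_iff₀ (by positivity)] at hκ
  set η : ℝ := (p + 1) - κ * (p + 1) ^ 2 with hη
  have hη0 : 0 < η := by
    have : η = (p + 1) * (1 - κ * (p + 1)) := by rw [hη]; ring
    rw [this]
    apply mul_pos (by positivity)
    linarith
  obtain ⟨E, hE⟩ := exists_nat_gt ((6 * p + 10) / η + 1)
  have hE1 : (1 : ℝ) < E := by
    have : 0 ≤ (6 * (p : ℝ) + 10) / η := by positivity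
    linarith
  have hE2 : 6 * (p : ℝ) + 10 < η * E := by
    have : (6 * (p : ℝ) + 10) / η < E := by linarith
    rw [div_lt_iff₀ hη0] at this
    linarith
  refine ⟨p * E, ?_⟩
  rw [sum_JD _ _ hq]
  have h1 : ∑ i ∈ Finset.range (p * E + 1), ∑ l ∈ Finset.range (p * E - i + 1),
      wt (p + 1) κ (false, i, l) = -(κ * ((p * E : ℕ) * ((p * E : ℕ) + 1) * ((p * E : ℕ) + 2) / 6)) := by
    rw [← sum_false]
    rfl
  have h2 : p * E / (p + 1 - 1) = E := by
    rw [Nat.add_sub_cancel]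
    exact Nat.mul_div_cancel_left _ hp
  have h3 := sum_true (p := p) (E := E) hp (A := 1 - κ) (B := 1 - (p + 1) * κ) (by nlinarith)
    (by nlinarith)
  have h4 : ∑ j ∈ Finset.Icc 1 E, ∑ l ∈ Finset.range (p * E - (p + 1 - 1) * j + 1),
      wt (p + 1) κ (true, j, l) = ∑ j ∈ Finset.Icc 1 E, ∑ l ∈ Finset.range (p * E - p * j + 1),
        ((1 - κ) * (l : ℝ) + (1 - (p + 1) * κ) * j) := by
    rw [Nat.add_sub_cancel]
    refine Finset.sum_congr rfl fun j _ => Finset.sum_congr rfl fun l _ => ?_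
    unfold wt
    rw [if_pos rfl]
    push_cast
    ring
  rw [h1, h2, h4]
  push_cast
  have h5 : 0 < (p : ℝ) * E / 12 *
      (2 * η * E ^ 2 - (3 * p + 3 * κ * p) * E + ((1 - κ) * p - 2 * (1 - (p + 1) * κ) - 4 * κ)) := by
    apply mul_pos (by positivity)
    have h6 : κ ≤ 1 := by nlinarith
    have h7 : (6 * (p : ℝ) + 10) * E < η * E * E := by
      apply mul_lt_mul_of_pos_right hE2 (by linarith)
    nlinarith
  have h8 : (1 - κ) * (p : ℝ) ^ 2 * ((E - 1) * E * (2 * E - 1) / 12) +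
      (1 - (p + 1) * κ) * p * ((E - 1) * E * (E + 1) / 6) -
      κ * (p * E * (p * E + 1) * (p * E + 2) / 6) = (p : ℝ) * E / 12 *
      (2 * η * E ^ 2 - (3 * p + 3 * κ * p) * E + ((1 - κ) * p - 2 * (1 - (p + 1) * κ) - 4 * κ)) := by
    rw [hη]
    ring
  linarith

end Pool.Agent.H556.RT
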