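import Mathlib
import Pool.Graph.R_seed8.TH796.AL.All
import Pool.Agent.H556.RT.Sum

/-!
# Divisors close to algebraic multiples, transcendental case
-/

set_option autoImplicit false

namespace Pool.Agent.H556.RT

open Filter Topology Pool.Agent.TH932.Abs Pool.Agent.TH932.Germs Pool.Agent.TH932.Chi
open Pool.Agent.TH796.AL

/-- the base two -/
def B2 : Base 1 where
  P := fun _ => 2
  two := fun _ => le_rfl
  cop := fun i j h => absurd (Subsingleton.elim i j) h

/-- the scale -/
noncomputable def LT (e : ℕ → ℕ) (n : ℕ) : ℝ := e n * Real.log 2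

lemma LT_tendsto {e : ℕ → ℕ} (he : Tendsto e atTop atTop) : Tendsto (LT e) atTop atTop := by
  unfold LT
  exact (tendsto_natCast_atTop_atTop.comp he).atTop_mul_const (Real.log_pos (by norm_num))

lemma LT_nonneg (e : ℕ → ℕ) (n : ℕ) : 0 ≤ LT e n :=
  mul_nonneg (Nat.cast_nonneg _) (Real.log_nonneg (by norm_num))

lemma exp_LT (e : ℕ → ℕ) (n : ℕ) : Real.exp (LT e n) = 2 ^ e n := by
  unfold LT
  rw [mul_comm, Real.exp_mul, Real.exp_log (by norm_num), Real.rpow_natCast]

section basic
variable {L : ℕ → ℝ} (hL : ∀ n, 0 ≤ L n)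
include hL

lemma int_fin (a : ℕ → ℤ) (v : Fin 1) : gm (fun n => (a n : ℚ)) ∈ Sv B2 L (some v) 0 := by
  change gm _ ∈ SS L (Rv B2 (some v)) 0
  rw [mem_SS]
  intro ε hε
  refine Eventually.of_forall fun n => ⟨1, 1, a n, 0, one_ne_zero, ?_, isCoprime_one_left, ?_, ?_⟩
  · rw [Int.cast_one, abs_one]
    exact Real.one_le_exp (mul_nonneg hε.le (hL n))
  · simp
  · have := hL n
    push_cast
    nlinarith

lemma int_sint (a : ℕ → ℤ) : Sint B2 L (gm (fun n => (a n : ℚ))) := by
  refine ⟨0, ?_⟩
  rw [mem_SS]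
  intro ε hε
  refine Eventually.of_forall fun n => ⟨1, a n, fun _ => 0, one_ne_zero, ?_, ?_, fun _ => ?_⟩
  · rw [Int.cast_one, abs_one]
    exact Real.one_le_exp (mul_nonneg hε.le (hL n))
  · simp
  · have := hL n
    push_cast
    nlinarith

end basic

lemma pow_fin (e : ℕ → ℕ) (v : Fin 1) :
    gm (fun n => (((2 ^ e n : ℕ) : ℤ) : ℚ)) ∈ Sv B2 (LT e) (some v) 1 := by
  change gm _ ∈ SS (LT e) (Rv B2 (some v)) 1
  rw [mem_SS]
  intro ε hε
  refine Eventually.of_forall fun n => ⟨1, 1, 1, e n, one_ne_zero, ?_, isCoprime_one_left, ?_, ?_⟩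
  · rw [Int.cast_one, abs_one]
    exact Real.one_le_exp (mul_nonneg hε.le (LT_nonneg e n))
  · change (1 : ℚ) * (1 : ℤ) * _ = ((2 : ℕ) : ℚ) ^ (e n : ℤ) * (1 : ℤ)
    rw [zpow_natCast]
    push_cast
    ring
  · change (1 - ε) * LT e n ≤ ((e n : ℤ) : ℝ) * Real.log ((2 : ℕ) : ℝ)
    have h1 : ((e n : ℤ) : ℝ) * Real.log ((2 : ℕ) : ℝ) = LT e n := by
      unfold LT; push_cast; rfl
    rw [h1]
    have := LT_nonneg e n
    nlinarith

/-- rational independence implies independence over real number fields -/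
lemma indep_rho (F : IntermediateField ℚ ℝ) [FiniteDimensional ℚ F] {ι : Type} [Fintype ι]
    (x : ι → GG) (h : ∀ c : ι → ℤ, ∑ i, (c i : GG) * x i = 0 → ∀ i, c i = 0) :
    LinearIndependent F (fun i => rho (x i)) := by
  classical
  -- over the rational numbers
  have hQ : ∀ c : ι → ℚ, ∑ i, (c i : GG) * x i = 0 → ∀ i, c i = 0 := by
    intro c hc
    set N : ℕ := ∏ i, (c i).den with hN
    have hN0 : N ≠ 0 := Finset.prod_ne_zero_iff.2 fun i _ => (c i).den_ne_zero
    have hz : ∀ i, ∃ z : ℤ, (N : ℚ) * c i = z := by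
      intro i
      obtain ⟨w, hw⟩ := Finset.dvd_prod_of_mem (fun i => (c i).den) (Finset.mem_univ i)
      refine ⟨w * (c i).num, ?_⟩
      rw [hN, hw]
      push_cast
      rw [mul_comm ((c i).den : ℚ), mul_assoc, Rat.den_mul_eq_num]
    choose z hz using hz
    have h1 : ∑ i, (z i : GG) * x i = 0 := by
      have h2 : ∀ i, (z i : GG) = (N : GG) * (c i : GG) := by
        intro i
        have h3 := congrArg (fun r : ℚ => (r : GG)) (hz i)
        simp only [Rat.cast_mul, Rat.cast_natCast, Rat.cast_intCast] at h3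
        exact h3.symm
      simp only [h2, mul_assoc]
      rw [← Finset.mul_sum, hc, mul_zero]
    intro i
    have h2 := h z h1 i
    have h3 := hz i
    rw [h2, Int.cast_zero, mul_eq_zero] at h3
    rcases h3 with h3 | h3
    · exact absurd (by exact_mod_cast h3) hN0
    · exact h3
  rw [Fintype.linearIndependent_iff]
  intro f hf
  set β := Module.finBasis ℚ F with hβ
  have hβind : LinearIndependent ℚ (fun k => (β k : ℝ)) :=
    β.linearIndependent.map' (F.val.toLinearMap) (LinearMap.ker_eq_bot.2 F.val.injective)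
  have h1 := disj_thm _ inferInstance (fun k => (β k : ℝ)) hβind
    (fun k => ∑ i, ((β.repr (f i) k : ℚ) : GG) * x i) (by
      rw [← hf]
      simp only [map_sum, map_mul, Finset.mul_sum]
      rw [Finset.sum_comm]
      refine Finset.sum_congr rfl fun i _ => ?_
      have h2 : f i = ∑ k, β.repr (f i) k • β k := (β.sum_repr (f i)).symm
      have h3 : f i • rho (x i) = algebraMap ℝ HR (f i : ℝ) * rho (x i) := rfl
      rw [h3]
      have h4 : (f i : ℝ) = ∑ k, ((β.repr (f i) k : ℚ) : ℝ) * (β k : ℝ) := by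
        conv_lhs => rw [h2]
        push_cast
        refine Finset.sum_congr rfl fun k _ => ?_
        rw [Rat.smul_def]
      rw [h4, map_sum, Finset.sum_mul]
      refine Finset.sum_congr rfl fun k _ => ?_
      rw [map_mul]
      have h5 : rho ((β.repr (f i) k : ℚ) : GG) = algebraMap ℝ HR ((β.repr (f i) k : ℚ) : ℝ) := by
        rw [map_ratCast, map_ratCast]
      rw [h5]
      ring)
  intro i
  have h2 : ∀ k, β.repr (f i) k = 0 := fun k => hQ (fun i => β.repr (f i) k) (h1 k) i
  exact β.ext_elem fun k => by rw [h2, map_zero]; rfl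

/-- no polynomial relation over the integers between the germs of `a` and `t` -/
def NoRel (t a : ℕ → ℤ) : Prop :=
  ∀ R : Polynomial (Polynomial ℤ), R ≠ 0 →
    ∀ᶠ n in (UU : Filter ℕ), Polynomial.evalEval (t n) (a n) R ≠ 0

/-- the normal forms are independent if there is no relation -/
lemma nf_indep {q : ℕ} (hq : 2 ≤ q) (c : ℤ) (hc : c ≠ 0) (t a b : ℕ → ℤ) (hrel : NoRel t a)
    (hab : ∀ n, a n * b n = c * t n ^ q + 1) (D : ℕ) (f : JD q D → ℤ)
    (hf : ∑ x, (f x : GG) * nf (gm fun n => (a n : ℚ)) (gm fun n => (b n : ℚ))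
      (gm fun n => (t n : ℚ)) x = 0) : ∀ x, f x = 0 := by
  classical
  -- the polynomial
  set P : Polynomial ℤ := Polynomial.C c * Polynomial.X ^ q + 1 with hP
  have hP0 : P ≠ 0 := by
    intro h
    have h1 := congrArg (fun p => Polynomial.coeff p q) h
    simp only [hP, Polynomial.coeff_add, Polynomial.coeff_C_mul, Polynomial.coeff_X_pow, if_true,
      Polynomial.coeff_zero, Polynomial.coeff_one] at h1
    rw [if_neg (by omega)] at h1
    apply hc
    linarith
  set g : Bool × ℕ × ℕ → ℤ := fun x => if h : x ∈ JD q D then f ⟨x, h⟩ else 0 with hg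
  have hgf : ∀ x : JD q D, g x = f x := fun x => by rw [hg]; simp
  set ex : Bool × ℕ × ℕ → ℕ := fun x => if x.1 then D - x.2.1 else D + x.2.1 with hex
  set co : Bool × ℕ × ℕ → Polynomial ℤ := fun x =>
    (if x.1 then P ^ x.2.1 else 1) * Polynomial.X ^ x.2.2 with hco
  set R : Polynomial (Polynomial ℤ) :=
    ∑ x ∈ JD q D, Polynomial.C (Polynomial.C (g x) * co x) * Polynomial.X ^ ex x with hR
  by_contra hcon
  push Not at hcon
  obtain ⟨x0, hx0⟩ := hcon
  have hle : ∀ x ∈ JD q D, x.1 = true → 1 ≤ x.2.1 ∧ x.2.1 ≤ D := by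
    rintro ⟨s, i, l⟩ hx hs
    simp only [] at hs
    subst hs
    have h1 := (mem_JD_true hq).1 hx
    have h2 : i ≤ (q - 1) * i := Nat.le_mul_of_pos_left _ (by omega)
    simp only []
    omega
  have hR0 : R ≠ 0 := by
    intro hR0
    apply hx0
    -- coefficient extraction
    obtain ⟨⟨s0, i0, l0⟩, hx0m⟩ := x0
    have h1 := congrArg (fun r => Polynomial.coeff r (ex (s0, i0, l0))) hR0
    simp only [hR, Polynomial.finsetSum_coeff, Polynomial.coeff_C_mul_X_pow,
      Polynomial.coeff_zero] at h1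
    rw [← Finset.sum_filter] at h1
    have h2 : ∀ x ∈ (JD q D).filter (fun x => ex (s0, i0, l0) = ex x),
        x.1 = s0 ∧ x.2.1 = i0 := by
      rintro ⟨s, i, l⟩ hx
      rw [Finset.mem_filter] at hx
      obtain ⟨hx1, hx2⟩ := hx
      have h3 := hle _ hx1
      have h4 := hle _ hx0m
      simp only [hex] at hx2 h3 h4 ⊢
      cases s <;> cases s0 <;> simp at hx2 h3 h4 ⊢ <;> omega
    have h3 : ∑ x ∈ (JD q D).filter (fun x => ex (s0, i0, l0) = ex x),
        Polynomial.C (g x) * co x = (if s0 then P ^ i0 else 1) *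
        ∑ x ∈ (JD q D).filter (fun x => ex (s0, i0, l0) = ex x),
          Polynomial.C (g x) * Polynomial.X ^ x.2.2 := by
      rw [Finset.mul_sum]
      refine Finset.sum_congr rfl fun x hx => ?_
      obtain ⟨h4, h5⟩ := h2 x hx
      rw [hco]
      simp only [h4, h5]
      ring
    rw [h3] at h1
    have h4 : (if s0 then P ^ i0 else 1) ≠ 0 := by
      split_ifs
      · exact pow_ne_zero _ hP0
      · exact one_ne_zero
    have h5 := (mul_eq_zero.1 h1).resolve_left h4
    have h6 := congrArg (fun r => Polynomial.coeff r l0) h5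
    simp only [Polynomial.finsetSum_coeff, Polynomial.coeff_C_mul_X_pow,
      Polynomial.coeff_zero] at h6
    rw [Finset.sum_eq_single (s0, i0, l0)] at h6
    · rw [if_pos rfl] at h6
      rw [← hgf]
      exact h6
    · rintro ⟨s, i, l⟩ hx hne
      obtain ⟨h7, h8⟩ := h2 _ hx
      simp only [] at h7 h8
      rw [if_neg]
      rintro h9
      apply hne
      simp only [] at h9
      rw [h7, h8, h9]
    · intro h7
      exact (h7 (Finset.mem_filter.2 ⟨hx0m, rfl⟩)).elim
  have h1 := hrel R hR0
  -- evaluate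
  have h2 : ∑ x : JD q D, (f x : GG) * nf (gm fun n => (a n : ℚ)) (gm fun n => (b n : ℚ))
      (gm fun n => (t n : ℚ)) x =
      gm (fun n => ∑ x ∈ JD q D, (g x : ℚ) * ((if x.1 then (b n : ℚ) else a n) ^ x.2.1
        * (t n : ℚ) ^ x.2.2)) := by
    have h3 : ∀ (S : Finset (JD q D)), ∑ x ∈ S, (f x : GG) * nf (gm fun n => (a n : ℚ))
        (gm fun n => (b n : ℚ)) (gm fun n => (t n : ℚ)) x =
      gm (fun n => ∑ x ∈ S, (f x : ℚ) * ((if (x : Bool × ℕ × ℕ).1 then (b n : ℚ) else a n) ^
        (x : Bool × ℕ × ℕ).2.1 * (t n : ℚ) ^ (x : Bool × ℕ × ℕ).2.2)) := by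
      intro S
      induction S using Finset.induction_on with
      | empty => simp only [Finset.sum_empty]; exact gm_zero.symm
      | insert x S hx ih =>
        rw [Finset.sum_insert hx, ih]
        have h4 : (f x : GG) = gm (fun _ => (f x : ℚ)) := rfl
        rw [h4]
        unfold nf
        obtain ⟨⟨s, i, l⟩, hxm⟩ := x
        cases s
        · simp only [Bool.false_eq_true, if_false]
          rw [gm_pow, gm_pow, gm_mul, gm_mul, gm_add]
          congr 1
          funext n
          rw [Finset.sum_insert hx]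
          simp
        · simp only [if_true]
          rw [gm_pow, gm_pow, gm_mul, gm_mul, gm_add]
          congr 1
          funext n
          rw [Finset.sum_insert hx]
          simp
    rw [h3]
    congr 1
    funext n
    rw [← Finset.sum_coe_sort (JD q D)]
    refine Finset.sum_congr rfl fun x _ => ?_
    rw [hgf]
  rw [h2, ← gm_zero, gm_eq] at hf
  obtain ⟨n, hn1, hn2⟩ := (h1.and hf).exists
  apply hn1
  have h3 : ((Polynomial.evalEval (t n) (a n) R : ℤ) : ℚ) = (a n : ℚ) ^ D *
      ∑ x ∈ JD q D, (g x : ℚ) * ((if x.1 then (b n : ℚ) else a n) ^ x.2.1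
        * (t n : ℚ) ^ x.2.2) := by
    rw [hR, Polynomial.evalEval_finsetSum, Finset.mul_sum]
    push_cast
    refine Finset.sum_congr rfl fun x hx => ?_
    rw [Polynomial.evalEval_mul, Polynomial.evalEval_C, Polynomial.evalEval_pow,
      Polynomial.evalEval_X]
    have habq : (a n : ℚ) * b n = c * t n ^ q + 1 := by exact_mod_cast hab n
    have hPe : Polynomial.eval (t n) P = a n * b n := by
      rw [hP, hab]
      simp
    obtain ⟨s, i, l⟩ := x
    cases s
    · simp only [hco, hex, Bool.false_eq_true, if_false, one_mul, Polynomial.eval_mul,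
        Polynomial.eval_C, Polynomial.eval_pow, Polynomial.eval_X]
      push_cast
      rw [pow_add]
      ring
    · have h4 := hle _ hx rfl
      simp only [] at h4
      simp only [hco, hex, if_true, Polynomial.eval_mul, Polynomial.eval_C, Polynomial.eval_pow,
        Polynomial.eval_X, hPe]
      push_cast
      obtain ⟨w, hw⟩ := Nat.exists_eq_add_of_le h4.2
      have h5 : D - i = w := by omega
      rw [h5, hw, mul_pow, pow_add]
      ring
  rw [hn2, mul_zero] at h3
  exact_mod_cast h3

/-- **the transcendental case** -/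
theorem trans_case {q : ℕ} (hq : 2 ≤ q) (c : ℕ) (hc : 0 < c) {e : ℕ → ℕ}
    (he : Tendsto e atTop atTop) (a b : ℕ → ℤ)
    (hab : ∀ n, a n * b n = c * ((2 ^ e n : ℕ) : ℤ) ^ q + 1) {α : ℝ} (hα : IsAlgebraic ℚ α)
    (hα0 : 0 < α) {κ : ℝ} (hκ0 : 0 ≤ κ) (hκ : κ < 1 / q)
    (hclose : ∀ n, |(a n : ℝ) - α * 2 ^ e n| ≤ Real.exp (κ * LT e n))
    (hrel : NoRel (fun n => ((2 ^ e n : ℕ) : ℤ)) a) : False := by
  classical
  have hL := LT_tendsto he
  have hL0 := LT_nonneg e
  set L := LT e with hLdef
  set t : ℕ → ℤ := fun n => ((2 ^ e n : ℕ) : ℤ) with ht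
  have htL : ∀ n, (t n : ℝ) = Real.exp (L n) := fun n => by
    rw [hLdef, exp_LT, ht]
    push_cast
    rfl
  have hq0 : (0 : ℝ) < q := by exact_mod_cast (by omega : 0 < q)
  have hκ1 : κ < 1 := by
    refine hκ.trans_le ?_
    rw [div_le_one hq0]
    exact_mod_cast (by omega : 1 ≤ q)
  -- the number field
  set F : IntermediateField ℚ ℝ := IntermediateField.adjoin ℚ {α} with hF
  have hfin : FiniteDimensional ℚ F := IntermediateField.adjoin.finiteDimensional hα.isIntegral
  have hαF : α ∈ F := IntermediateField.mem_adjoin_simple_self ℚ α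
  set γ : F := -(⟨α, hαF⟩ : F)⁻¹ with hγ
  have hγr : (γ : ℝ) = -α⁻¹ := rfl
  -- the germs
  set A : GG := gm fun n => (a n : ℚ) with hA
  set Bb : GG := gm fun n => (b n : ℚ) with hBb
  set T : GG := gm fun n => (t n : ℚ) with hT
  have hABG : A * Bb = (c : GG) * T ^ q + 1 := by
    have h1 : (c : GG) = gm (fun _ => (c : ℚ)) := rfl
    rw [hA, hBb, hT, h1, ← gm_one, gm_mul, gm_pow, gm_mul, gm_add]
    congr 1
    funext n
    have := hab n
    exact_mod_cast this
  have hAB : rho A * rho Bb = algebraMap F HR (c : F) * rho T ^ q + 1 := by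
    rw [← map_mul, hABG, map_add, map_mul, map_pow, map_one, map_natCast, map_natCast]
  -- sizes
  have hAs : rho A ∈ SR L (-1) := by
    rw [hA, rho_gm, mem_SR]
    intro ε hε
    have h1 : ∀ᶠ n in atTop, α + 1 ≤ Real.exp (ε * L n) := by
      have h2 : Tendsto (fun n => Real.exp (ε * L n)) atTop atTop :=
        Real.tendsto_exp_atTop.comp (hL.const_mul_atTop hε)
      exact h2.eventually_ge_atTop _
    filter_upwards [ev_of_atTop h1] with n h1
    have h2 := hclose n
    have h3 : Real.exp (κ * L n) ≤ Real.exp (L n) := Real.exp_le_exp.2 (by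
      have := hL0 n
      nlinarith)
    have h4 : (2 : ℝ) ^ e n = Real.exp (L n) := (exp_LT e n).symm
    rw [h4] at h2
    have h5 : Real.exp (-(-1 - ε) * L n) = Real.exp (ε * L n) * Real.exp (L n) := by
      rw [← Real.exp_add]; ring_nf
    rw [h5]
    have h6 := abs_le.1 h2
    have h7 := Real.exp_pos (L n)
    push_cast
    rw [abs_le]
    constructor <;> nlinarith
  have hAinv : (rho A)⁻¹ ∈ SR L 1 := by
    rw [hA, rho_gm, gr_inv, mem_SR]
    intro ε hε
    have h1 : ∀ᶠ n in atTop, 2 / α ≤ Real.exp (ε * L n) := by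
      have h2 : Tendsto (fun n => Real.exp (ε * L n)) atTop atTop :=
        Real.tendsto_exp_atTop.comp (hL.const_mul_atTop hε)
      exact h2.eventually_ge_atTop _
    have h1' : ∀ᶠ n in atTop, 2 / α ≤ Real.exp ((1 - κ) * L n) := by
      have h2 : Tendsto (fun n => Real.exp ((1 - κ) * L n)) atTop atTop :=
        Real.tendsto_exp_atTop.comp (hL.const_mul_atTop (by linarith))
      exact h2.eventually_ge_atTop _
    filter_upwards [ev_of_atTop h1, ev_of_atTop h1'] with n h1 h1'
    have h2 := hclose n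
    have h4 : (2 : ℝ) ^ e n = Real.exp (L n) := (exp_LT e n).symm
    rw [h4] at h2
    have h3 : Real.exp (κ * L n) * Real.exp ((1 - κ) * L n) = Real.exp (L n) := by
      rw [← Real.exp_add]; ring_nf
    have h5 : Real.exp (-(1 - ε) * L n) * Real.exp (L n) = Real.exp (ε * L n) := by
      rw [← Real.exp_add]; ring_nf
    have h6 := abs_le.1 h2
    have h7 := Real.exp_pos (κ * L n)
    have h8 : 2 * Real.exp (κ * L n) ≤ α * Real.exp (L n) := by
      rw [← h3]
      rw [div_le_iff₀ hα0] at h1'
      nlinarith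
    have h9 : α / 2 * Real.exp (L n) ≤ a n := by linarith
    have h10 : 0 < (a n : ℝ) := lt_of_lt_of_le (by positivity) h9
    push_cast
    rw [abs_of_pos (inv_pos.2 h10), inv_le_iff_one_le_mul₀ h10]
    have h11 : 1 ≤ α / 2 * Real.exp (ε * L n) := by
      rw [div_le_iff₀ hα0] at h1
      linarith
    calc (1 : ℝ) ≤ α / 2 * Real.exp (ε * L n) := h11
      _ = Real.exp (-(1 - ε) * L n) * (α / 2 * Real.exp (L n)) := by rw [← h5]; ring
      _ ≤ _ := mul_le_mul_of_nonneg_left h9 (Real.exp_pos _).le
  set T' : HR := rho T + algebraMap F HR γ * rho A with hT'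
  have hT's : T' ∈ SR L (-κ) := by
    have h1 : T' = gr (fun n => -α⁻¹ * ((a n : ℝ) - α * 2 ^ e n)) := by
      rw [hT', hT, hA, rho_gm, rho_gm]
      have h2 : algebraMap F HR γ = gr (fun _ => -α⁻¹) := by
        rw [← hγr]
        rfl
      rw [h2, gr_mul, gr_add]
      congr 1
      funext n
      rw [ht]
      push_cast
      field_simp
      ring
    rw [h1, mem_SR]
    intro ε hε
    have h1 : ∀ᶠ n in atTop, α⁻¹ ≤ Real.exp (ε * L n) := by
      have h2 : Tendsto (fun n => Real.exp (ε * L n)) atTop atTop :=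
        Real.tendsto_exp_atTop.comp (hL.const_mul_atTop hε)
      exact h2.eventually_ge_atTop _
    filter_upwards [ev_of_atTop h1] with n h1
    rw [abs_mul, abs_neg, abs_of_pos (inv_pos.2 hα0)]
    calc α⁻¹ * |(a n : ℝ) - α * 2 ^ e n| ≤ Real.exp (ε * L n) * Real.exp (κ * L n) :=
          mul_le_mul h1 (hclose n) (abs_nonneg _) (Real.exp_pos _).le
      _ = _ := by rw [← Real.exp_add]; ring_nf
  have hone : (1 : HR) ∈ SR L 0 := by
    have := SR_cst hL (1 : ℝ)
    rwa [map_one] at this
  have hpow : ∀ {x : HR} {w : ℝ}, x ∈ SR L w → ∀ k : ℕ, x ^ k ∈ SR L (w * k) := by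
    intro x w hx k
    induction k with
    | zero => rw [pow_zero, Nat.cast_zero, mul_zero]; exact hone
    | succ k ih =>
      rw [pow_succ]
      push_cast
      rw [mul_add, mul_one]
      exact SR_mul hL ih hx
  set B' : HR := rho Bb + dq q (c : F) γ (rho A) (rho T) with hB'
  have hAne : rho A ≠ 0 := by
    intro h0
    rw [h0, inv_zero] at hAinv
    have h1 : A = 0 := by
      apply rho_injective
      rw [h0, map_zero]
    rw [h1, zero_mul] at hABG
    have h2 : T ∈ Set.univ := trivial
    rw [hA, ← gm_zero, gm_eq] at h1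
    obtain ⟨n, hn⟩ := h1.exists
    have h3 := hab n
    have h4 : a n = 0 := by exact_mod_cast hn
    rw [h4, zero_mul] at h3
    have h5 : (0 : ℤ) ≤ c * ((2 ^ e n : ℕ) : ℤ) ^ q := by positivity
    omega
  have hB's : B' ∈ SR L (1 - q * κ) := by
    have h1 : B' = (rho A)⁻¹ * (algebraMap F HR (c : F) * T' ^ q + 1) := by
      rw [eq_inv_mul_iff_mul_eq₀ hAne, hB', mul_add, dq_mul, hAB]
      ring
    rw [h1]
    have h2 : algebraMap F HR (c : F) * T' ^ q + 1 ∈ SR L (-κ * q) := by
      apply SR_add hL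
      · have h3 := SR_mul hL (SR_cst hL (c : ℝ)) (hpow hT's q)
        rw [zero_add] at h3
        exact h3
      · exact SR_anti hL (by nlinarith) hone
    have h3 := SR_mul hL hAinv h2
    have h4 : (1 : ℝ) + -κ * q = 1 - q * κ := by ring
    rwa [h4] at h3
  -- the data
  obtain ⟨D, hD⟩ := exists_pos hq hκ0 hκ
  have hcard : Fintype.card (JD q D) = (JD q D).card := Fintype.card_coe _
  set E := (JD q D).equivFin with hE
  have hindZ := nf_indep hq (c : ℤ) (by exact_mod_cast hc.ne') t a b hrel hab D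
  have hindF : LinearIndependent F (fun x : JD q D => rho (nf A Bb T x)) := by
    apply indep_rho
    intro f hf
    exact hindZ f hf
  have hmap : ∀ x : JD q D, rho (nf A Bb T x) = nf (rho A) (rho Bb) (rho T) x := by
    intro x
    unfold nf
    rw [map_mul, map_pow, map_pow]
    split_ifs <;> rfl
  simp only [hmap] at hindF
  have hspan := span_change hq (a := rho A) (b := rho Bb) (t := rho T) (c := (c : F)) γ hAB D
  have hindz : LinearIndependent F (fun x : JD q D => nf (rho A) B' T' x) := by
    rw [linearIndependent_iff_card_eq_finrank_span] at hindF ⊢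
    rw [hindF]
    unfold Set.finrank
    rw [hspan]
  have key := fixa_thm 1 B2 L hL F hfin (JD q D).card
    (fun i => nf A Bb T (E.symm i)) (fun i => nf (rho A) B' T' (E.symm i))
    (fun _ i => ((E.symm i : Bool × ℕ × ℕ).2.2 : ℝ))
    (fun i => if (E.symm i : Bool × ℕ × ℕ).1 then
      (1 - q * κ) * (E.symm i : Bool × ℕ × ℕ).2.1 - κ * (E.symm i : Bool × ℕ × ℕ).2.2
      else -(E.symm i : Bool × ℕ × ℕ).2.1 - κ * (E.symm i : Bool × ℕ × ℕ).2.2)
    (by
      intro f hf i
      have h1 := hindZ (fun x => f (E x)) (by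
        rw [← E.symm.sum_comp] 
        simpa using hf) (E.symm i)
      simpa using h1)
    (hindz.comp E.symm E.symm.injective)
    (by
      intro i
      have h1 : nf (rho A) B' T' (E.symm i) ∈
          Submodule.span F (Set.range fun x : JD q D => nf (rho A) B' T' x) :=
        Submodule.subset_span ⟨E.symm i, rfl⟩
      rw [hB', hT', hspan] at h1
      refine Submodule.span_mono ?_ h1
      rintro _ ⟨x, rfl⟩
      refine ⟨E x, ?_⟩
      simp only [Equiv.symm_apply_apply]
      exact hmap x)
    (by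
      intro v i
      have hF2 := filt_v (B := B2) hL (some v)
      obtain ⟨⟨s, i', l⟩, hx⟩ := E.symm i
      unfold nf
      simp only []
      have h1 : T ^ l ∈ Sv B2 L (some v) l := by
        have := hF2.pow_mem (pow_fin e v) l
        rwa [one_mul] at this
      have h2 : (if s = true then Bb else A) ^ i' ∈ Sv B2 L (some v) 0 := by
        have h3 : (if s = true then Bb else A) ∈ Sv B2 L (some v) 0 := by
          split_ifs
          · exact int_fin hL0 b v
          · exact int_fin hL0 a v
        have := hF2.pow_mem h3 i'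
        rwa [zero_mul] at this
      have h3 := hF2.mul_mem h2 h1
      rwa [zero_add] at h3)
    (by
      intro i
      obtain ⟨⟨s, i', l⟩, hx⟩ := E.symm i
      unfold nf
      cases s
      · simp only [Bool.false_eq_true, if_false]
        have h1 := SR_mul hL (hpow hAs i') (hpow hT's l)
        have h2 : -1 * (i' : ℝ) + -κ * l = -i' - κ * l := by ring
        rwa [h2] at h1
      · simp only [if_true]
        have h1 := SR_mul hL (hpow hB's i') (hpow hT's l)
        have h2 : (1 - q * κ) * (i' : ℝ) + -κ * l = (1 - q * κ) * i' - κ * l := by ring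
        rwa [h2] at h1)
    (by
      intro i
      have hpowS : ∀ {x : GG}, Sint B2 L x → ∀ k : ℕ, Sint B2 L (x ^ k) := by
        intro x hx k
        induction k with
        | zero => rw [pow_zero]; exact Sint.alg hL 1
        | succ k ih => rw [pow_succ]; exact Sint.mul hL ih hx
      unfold nf
      apply Sint.mul hL
      · apply hpowS
        split_ifs
        · exact int_sint hL0 b
        · exact int_sint hL0 a
      · exact hpowS (int_sint hL0 t) _)
  rw [Finset.univ_unique, Finset.sum_singleton, ← Finset.sum_add_distrib] at key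
  have hsum : ∑ x ∈ JD q D, wt q κ x = ∑ i : Fin (JD q D).card, wt q κ (E.symm i) := by
    rw [← Finset.sum_coe_sort (JD q D), ← E.symm.sum_comp]
  rw [hsum] at hD
  have h9 : ∑ i : Fin (JD q D).card, wt q κ (E.symm i) ≤ 0 := by
    refine le_trans (le_of_eq ?_) key
    refine Finset.sum_congr rfl fun i _ => ?_
    unfold wt
    split_ifs <;> ring
  linarith

end Pool.Agent.H556.RT
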