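import Mathlib
import Pool.Graph.R_pool_sql_team_seeded_3997aac3.Q270.PX.Alg
import Pool.Agent.H556.RT.Trans

/-!
# Integers which are algebraic over the powers of two
-/

set_option autoImplicit false

namespace Pool.Agent.H556.RT

open Filter Topology Pool.Agent.TH932.Abs Pool.Agent.TH932.Germs Pool.Agent.TH932.Chi
open Pool.Agent.TH796.AL

/-- powers with fixed exponents at the places -/
lemma zpow_fin (e : ℕ → ℕ) (k : ℤ) (v : Fin 1) :
    gm (fun n => (2 : ℚ) ^ (k * (e n : ℤ))) ∈ Sv B2 (LT e) (some v) k := by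
  change gm _ ∈ SS (LT e) (Rv B2 (some v)) k
  rw [mem_SS]
  intro ε hε
  refine Eventually.of_forall fun n => ⟨1, 1, 1, k * e n, one_ne_zero, ?_, isCoprime_one_left, ?_, ?_⟩
  · rw [Int.cast_one, abs_one]
    exact Real.one_le_exp (mul_nonneg hε.le (LT_nonneg e n))
  · change (1 : ℚ) * (1 : ℤ) * _ = ((2 : ℕ) : ℚ) ^ (k * (e n : ℤ)) * (1 : ℤ)
    push_cast
    ring
  · change (k - ε) * LT e n ≤ ((k * (e n : ℤ) : ℤ) : ℝ) * Real.log ((2 : ℕ) : ℝ)
    have h1 : ((k * (e n : ℤ) : ℤ) : ℝ) * Real.log ((2 : ℕ) : ℝ) = k * LT e n := by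
      unfold LT; push_cast; ring
    rw [h1]
    have := LT_nonneg e n
    nlinarith

lemma zpow_sint (e : ℕ → ℕ) (k : ℤ) :
    Sint B2 (LT e) (gm (fun n => (2 : ℚ) ^ (k * (e n : ℤ)))) := by
  refine ⟨k, ?_⟩
  rw [mem_SS]
  intro ε hε
  refine Eventually.of_forall fun n => ⟨1, 1, fun _ => k * e n, one_ne_zero, ?_, ?_, fun _ => ?_⟩
  · rw [Int.cast_one, abs_one]
    exact Real.one_le_exp (mul_nonneg hε.le (LT_nonneg e n))
  · rw [Finset.univ_unique, Finset.prod_singleton]
    change ((1 : ℤ) : ℚ) * _ = ((2 : ℕ) : ℚ) ^ (k * (e n : ℤ)) * (1 : ℤ)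
    push_cast
    ring
  · change (k - ε) * LT e n ≤ ((k * (e n : ℤ) : ℤ) : ℝ) * Real.log ((2 : ℕ) : ℝ)
    have h1 : ((k * (e n : ℤ) : ℤ) : ℝ) * Real.log ((2 : ℕ) : ℝ) = k * LT e n := by
      unfold LT; push_cast; ring
    rw [h1]
    have := LT_nonneg e n
    nlinarith

lemma zpow_real (e : ℕ → ℕ) (k : ℤ) :
    rho (gm (fun n => (2 : ℚ) ^ (k * (e n : ℤ)))) ∈ SR (LT e) (-k) := by
  rw [rho_gm, mem_SR]
  intro ε hε
  refine Eventually.of_forall fun n => ?_
  have h1 : (((2 : ℚ) ^ (k * (e n : ℤ)) : ℚ) : ℝ) = Real.exp (k * LT e n) := by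
    rw [mul_comm (k : ℝ), Real.exp_mul, exp_LT]
    push_cast
    rw [← Real.rpow_natCast, ← Real.rpow_mul (by norm_num), ← Real.rpow_intCast]
    congr 1
    push_cast
    ring
  rw [h1, abs_of_pos (Real.exp_pos _)]
  apply Real.exp_le_exp.2
  have := LT_nonneg e n
  nlinarith

/-- **integers well approximated by combinations of powers of two with algebraic coefficients** -/
theorem comb_case {e : ℕ → ℕ} (he : Tendsto e atTop atTop) (a : ℕ → ℤ) (M : ℕ)
    (k : Fin M → ℤ) (γ : Fin M → ℝ) (hγ : ∀ i, IsAlgebraic ℚ (γ i)) {η : ℝ} (hη : 0 < η)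
    (happ : ∀ᶠ n in (UU : Filter ℕ),
      |(a n : ℝ) - ∑ i, γ i * (2 : ℝ) ^ (k i * (e n : ℤ))| ≤ Real.exp (-η * LT e n)) :
    ∃ (N : ℤ) (c : Fin M → ℤ), (N ≠ 0 ∨ c ≠ 0) ∧
      ∀ᶠ n in (UU : Filter ℕ), (N : ℚ) * a n = ∑ i, (c i : ℚ) * (2 : ℚ) ^ (k i * (e n : ℤ)) := by
  classical
  by_contra hcon
  push Not at hcon
  have hL := LT_tendsto he
  have hL0 := LT_nonneg e
  set L := LT e with hLdef
  set u : Fin M → GG := fun i => gm (fun n => (2 : ℚ) ^ (k i * (e n : ℤ))) with hu
  set A : GG := gm fun n => (a n : ℚ) with hA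
  set x : Fin (M + 1) → GG := Fin.cons A u with hx
  -- independence
  have hind : ∀ c : Fin (M + 1) → ℤ, ∑ i, (c i : GG) * x i = 0 → ∀ i, c i = 0 := by
    intro c hc
    by_contra h0
    push Not at h0
    have h1 := hcon (c 0) (fun i => -c i.succ) (by
      by_contra h2
      push Not at h2
      obtain ⟨h3, h4⟩ := h2
      obtain ⟨i, hi⟩ := h0
      apply hi
      induction i using Fin.cases with
      | zero => exact h3
      | succ i =>
        have := congrFun h4 i
        simpa using this)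
    rw [Fin.sum_univ_succ] at hc
    simp only [hx, Fin.cons_zero, Fin.cons_succ] at hc
    have h2 : ∀ S : Finset (Fin M), ∑ i ∈ S, (c i.succ : GG) * u i =
        gm (fun n => ∑ i ∈ S, (c i.succ : ℚ) * (2 : ℚ) ^ (k i * (e n : ℤ))) := by
      intro S
      induction S using Finset.induction_on with
      | empty => simp only [Finset.sum_empty]; exact gm_zero.symm
      | insert i S hi ih =>
        rw [Finset.sum_insert hi, ih]
        have h4 : (c i.succ : GG) = gm (fun _ => (c i.succ : ℚ)) := rfl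
        rw [h4, hu, gm_mul, gm_add]
        congr 1
        funext n
        rw [Finset.sum_insert hi]
    have h4 : (c 0 : GG) = gm (fun _ => (c 0 : ℚ)) := rfl
    rw [h2, h4, hA, gm_mul, gm_add, ← gm_zero, gm_eq] at hc
    obtain ⟨n, hn1, hn⟩ := (h1.and hc).exists
    apply hn1
    have h5 : ∑ i, (((-c i.succ : ℤ)) : ℚ) * (2 : ℚ) ^ (k i * (e n : ℤ)) =
        -∑ i, (c i.succ : ℚ) * (2 : ℚ) ^ (k i * (e n : ℤ)) := by
      rw [← Finset.sum_neg_distrib]
      refine Finset.sum_congr rfl fun i _ => ?_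
      push_cast
      ring
    rw [h5]
    linarith
  -- the number field
  set F : IntermediateField ℚ ℝ := IntermediateField.adjoin ℚ (Set.range γ) with hF
  have hfin : FiniteDimensional ℚ F := by
    apply IntermediateField.finiteDimensional_adjoin
    rintro _ ⟨l, rfl⟩
    exact (hγ l).isIntegral
  have hγF : ∀ l, γ l ∈ F := fun l => IntermediateField.subset_adjoin ℚ _ ⟨l, rfl⟩
  have hindF := indep_rho F x hind
  have hrx : (fun i => rho (x i)) = (Fin.cons (rho A) (fun i => rho (u i)) : Fin (M + 1) → HR) := by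
    funext i
    induction i using Fin.cases with
    | zero => rfl
    | succ i => rfl
  rw [hrx, linearIndependent_finCons] at hindF
  set s : HR := ∑ i, (⟨γ i, hγF i⟩ : F) • rho (u i) with hs
  have hsmem : s ∈ Submodule.span F (Set.range fun i => rho (u i)) :=
    Submodule.sum_mem _ fun i _ => Submodule.smul_mem _ _ (Submodule.subset_span ⟨i, rfl⟩)
  have hindz : LinearIndependent F (Fin.cons (rho A - s) (fun i => rho (u i)) : Fin (M + 1) → HR) := by
    rw [linearIndependent_finCons]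
    refine ⟨hindF.1, fun h => hindF.2 ?_⟩
    have := Submodule.add_mem _ h hsmem
    rwa [sub_add_cancel] at this
  have hsize : rho A - s ∈ SR L η := by
    have h1 : s = gr (fun n => ∑ i, γ i * (2 : ℝ) ^ (k i * (e n : ℤ))) := by
      have h2 : ∀ S : Finset (Fin M), ∑ i ∈ S, (⟨γ i, hγF i⟩ : F) • rho (u i) =
          gr (fun n => ∑ i ∈ S, γ i * (2 : ℝ) ^ (k i * (e n : ℤ))) := by
        intro S
        induction S using Finset.induction_on with
        | empty => simp only [Finset.sum_empty]; exact gr_zero.symm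
        | insert i S hi ih =>
          rw [Finset.sum_insert hi, ih]
          have h4 : (⟨γ i, hγF i⟩ : F) • rho (u i) = gr (fun _ => γ i) * rho (u i) := rfl
          rw [h4, hu, rho_gm, gr_mul, gr_add]
          congr 1
          funext n
          rw [Finset.sum_insert hi]
          push_cast
          rfl
      rw [hs, h2]
    rw [h1, hA, rho_gm, gr_sub, mem_SR]
    intro ε hε
    filter_upwards [happ] with n hn
    push_cast
    refine hn.trans (Real.exp_le_exp.2 ?_)
    have := hL0 n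
    nlinarith
  have key := fixa_thm 1 B2 L hL F hfin (M + 1) x
    (Fin.cons (rho A - s) (fun i => rho (u i)))
    (fun _ => Fin.cons 0 (fun i => (k i : ℝ))) (Fin.cons η (fun i => -(k i : ℝ)))
    hind hindz
    (by
      intro i
      have h1 : Set.range (fun i => rho (u i)) ⊆ Set.range fun j => rho (x j) := by
        rintro _ ⟨i, rfl⟩
        exact ⟨i.succ, rfl⟩
      induction i using Fin.cases with
      | zero =>
        rw [Fin.cons_zero]
        exact Submodule.sub_mem _ (Submodule.subset_span ⟨0, rfl⟩) (Submodule.span_mono h1 hsmem)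
      | succ i =>
        rw [Fin.cons_succ]
        exact Submodule.subset_span ⟨i.succ, rfl⟩)
    (by
      intro v i
      induction i using Fin.cases with
      | zero => exact int_fin hL0 a v
      | succ i => exact zpow_fin e (k i) v)
    (by
      intro i
      induction i using Fin.cases with
      | zero => exact hsize
      | succ i => exact zpow_real e (k i))
    (by
      intro i
      induction i using Fin.cases with
      | zero => exact int_sint hL0 a
      | succ i => exact zpow_sint e (k i))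
  rw [Finset.univ_unique, Finset.sum_singleton, ← Finset.sum_add_distrib, Fin.sum_univ_succ] at key
  simp only [Fin.cons_zero, Fin.cons_succ, add_neg_cancel, Finset.sum_const_zero, add_zero,
    zero_add] at key
  linarith

open Pool.Agent.Q270.PX Asymptotics in
/-- **the algebraic case** -/
theorem alg_case {e : ℕ → ℕ} (he : Tendsto e atTop atTop) (a : ℕ → ℤ)
    (hrel : ¬ NoRel (fun n => ((2 ^ e n : ℕ) : ℤ)) a) :
    ∃ (q : ℕ) (M : ℕ) (k : Fin M → ℤ) (N : ℤ) (c : Fin M → ℤ), 1 ≤ q ∧ N ≠ 0 ∧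
      ∀ᶠ n in (UU : Filter ℕ), (N : ℚ) * a n =
        ∑ i, (c i : ℚ) * (2 : ℚ) ^ (k i * ((e n / q : ℕ) : ℤ)) := by
  classical
  unfold NoRel at hrel
  push Not at hrel
  obtain ⟨R, hR, hRn⟩ := hrel
  -- real polynomial
  set P : Polynomial (Polynomial ℝ) := R.map (Polynomial.mapRingHom (Int.castRingHom ℝ)) with hP
  have hP0 : P ≠ 0 := by
    rw [hP, Polynomial.map_ne_zero_iff]
    · exact hR
    · exact Polynomial.map_injective _ Int.cast_injective
  have hPK : ∀ i j, (P.coeff i).coeff j ∈ RA := by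
    intro i j
    rw [hP, Polynomial.coeff_map, Polynomial.coe_mapRingHom, Polynomial.coeff_map]
    exact intCast_mem _ _
  obtain ⟨D, q, hq, S, hSfin, hSan, hev⟩ := puiseux RA_closed P hP0 hPK
  have hq0 : (0 : ℝ) < q := by exact_mod_cast hq
  have htt : Tendsto (fun n => (2 : ℝ) ^ e n) atTop atTop :=
    (tendsto_pow_atTop_atTop_of_one_lt (by norm_num)).comp he
  have h1 : ∀ᶠ n in (UU : Filter ℕ), ∃ G ∈ S, (a n : ℝ) = ((2 : ℝ) ^ e n) ^ D *
      G (rt q ((2 : ℝ) ^ e n)) := by
    filter_upwards [ev_of_atTop (htt.eventually hev), hRn] with n h2 h3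
    rw [← h2 (a n)]
    have h4 := Polynomial.map_mapRingHom_evalEval (Int.castRingHom ℝ) R ((2 ^ e n : ℕ) : ℤ) (a n)
    rw [h3, map_zero] at h4
    simp only [eq_intCast] at h4
    push_cast at h4
    exact h4
  rw [Ultrafilter.eventually_exists_mem_iff hSfin] at h1
  obtain ⟨G, hGS, hG⟩ := h1
  have h2 : ∀ᶠ n in (UU : Filter ℕ), ∃ ρ ∈ Set.Iio q, e n % q = ρ :=
    Eventually.of_forall fun n => ⟨_, Nat.mod_lt _ hq, rfl⟩
  rw [Ultrafilter.eventually_exists_mem_iff (Set.finite_Iio q)] at h2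
  obtain ⟨ρ, -, hρ⟩ := h2
  obtain ⟨p, hp⟩ := (hSan G hGS).2 (q * (D + 1))
  obtain ⟨C, hC⟩ := hp.bound
  set M : ℕ := p.natDegree + 1 with hM
  set β : ℝ := (2 : ℝ) ^ (-(ρ : ℝ) / q) with hβ
  set e' : ℕ → ℕ := fun n => e n / q with he'
  have he't : Tendsto e' atTop atTop := (Nat.tendsto_div_const_atTop (by omega)).comp he
  set k : Fin M → ℤ := fun i => (q * D : ℕ) - (i : ℕ) with hk
  set γ : Fin M → ℝ := fun i => (p.coeff i : ℝ) * β ^ (i : ℕ) * 2 ^ (ρ * D) with hγ
  have hβalg : IsAlgebraic ℚ β := by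
    have h3 : β ^ q = (2 : ℝ) ^ (-(ρ : ℝ)) := by
      rw [hβ, ← Real.rpow_natCast, ← Real.rpow_mul (by norm_num)]
      congr 1
      field_simp
    have h4 : IsAlgebraic ℚ (β ^ q) := by
      rw [h3, Real.rpow_neg (by norm_num), Real.rpow_natCast]
      have : ((2 : ℝ) ^ ρ)⁻¹ = algebraMap ℚ ℝ (((2 : ℚ) ^ ρ)⁻¹) := by push_cast; rfl
      rw [this]
      exact isAlgebraic_algebraMap _
    exact h4.of_pow hq
  have hγalg : ∀ i, IsAlgebraic ℚ (γ i) := by
    intro i
    apply IsAlgebraic.mul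
    · apply IsAlgebraic.mul
      · exact (mem_RA _).1 (p.coeff i).2
      · exact hβalg.pow _
    · have : ((2 : ℝ) ^ (ρ * D)) = algebraMap ℚ ℝ ((2 : ℚ) ^ (ρ * D)) := by push_cast; rfl
      rw [this]
      exact isAlgebraic_algebraMap _
  have happ : ∀ᶠ n in (UU : Filter ℕ),
      |(a n : ℝ) - ∑ i, γ i * (2 : ℝ) ^ (k i * (e' n : ℤ))| ≤ Real.exp (-(1 / 2) * LT e' n) := by
    have h5 : ∀ᶠ n in atTop, C ≤ Real.exp (1 / 2 * LT e' n) := by
      have h2 : Tendsto (fun n => Real.exp (1 / 2 * LT e' n)) atTop atTop :=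
        Real.tendsto_exp_atTop.comp ((LT_tendsto he't).const_mul_atTop (by norm_num))
      exact h2.eventually_ge_atTop _
    filter_upwards [hG, hρ, ev_of_atTop (((rt_tendsto hq).comp htt).eventually hC),
      ev_of_atTop h5] with n h6 h7 h8 h9
    simp only [Function.comp, Real.norm_eq_abs] at h8
    set t : ℝ := (2 : ℝ) ^ e n with ht
    have ht0 : 0 < t := by positivity
    have hen : e n = q * e' n + ρ := by
      rw [he', ← h7]
      exact (Nat.div_add_mod (e n) q).symm
    have hrt : rt q t = β * (2 : ℝ) ^ (-(e' n : ℝ)) := by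
      unfold rt
      rw [ht, hen, ← Real.rpow_natCast, ← Real.rpow_mul (by norm_num), hβ,
        ← Real.rpow_add (by norm_num)]
      congr 1
      push_cast
      field_simp
      ring
    have hsum : t ^ D * Polynomial.aeval (rt q t) p = ∑ i, γ i * (2 : ℝ) ^ (k i * (e' n : ℤ)) := by
      rw [Polynomial.aeval_eq_sum_range, Finset.mul_sum, ← hM, Finset.sum_range]
      refine Finset.sum_congr rfl fun i _ => ?_
      have h10 : (p.coeff i) • rt q t ^ (i : ℕ) = (p.coeff i : ℝ) * rt q t ^ (i : ℕ) := rfl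
      rw [h10, hrt, mul_pow, ht, hen, hγ, hk]
      have h11 : ((2 : ℝ) ^ (q * e' n + ρ)) ^ D = 2 ^ (ρ * D) * (2 : ℝ) ^ ((q * D : ℕ) * (e' n) : ℕ) := by
        rw [← pow_mul, ← pow_add]
        congr 1
        ring
      have h12 : ((2 : ℝ) ^ (-(e' n : ℝ))) ^ (i : ℕ) = (2 : ℝ) ^ (-((i : ℕ) * (e' n : ℕ) : ℤ)) := by
        rw [← Real.rpow_natCast, ← Real.rpow_mul (by norm_num), ← Real.rpow_intCast]
        congr 1
        push_cast
        ring
      have h13 : (2 : ℝ) ^ ((q * D : ℕ) * (e' n) : ℕ) * (2 : ℝ) ^ (-((i : ℕ) * (e' n : ℕ) : ℤ)) =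
          (2 : ℝ) ^ ((((q * D : ℕ) : ℤ) - (i : ℕ)) * (e' n : ℤ)) := by
        rw [← zpow_natCast, ← zpow_add₀ (by norm_num)]
        congr 1
        push_cast
        ring
      simp only []
      rw [h11, h12, ← h13]
      ring
    rw [← hsum, h6, ← mul_sub, abs_mul, abs_of_pos (pow_pos ht0 D)]
    have hrt0 : 0 < rt q t := rt_pos ht0
    rw [abs_of_pos (pow_pos hrt0 _)] at h8
    have h14 : t ^ D * rt q t ^ (q * (D + 1)) = t⁻¹ := by
      rw [pow_mul, rt_pow hq ht0, inv_pow, pow_succ]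
      field_simp
    have h15 : t⁻¹ ≤ Real.exp (-LT e' n) := by
      rw [Real.exp_neg, exp_LT, ht]
      apply inv_anti₀ (by positivity)
      exact pow_le_pow_right₀ (by norm_num) (Nat.div_le_self _ _)
    have hC0 : 0 ≤ t⁻¹ := (inv_pos.2 ht0).le
    calc t ^ D * |G (rt q t) - Polynomial.aeval (rt q t) p| ≤
          t ^ D * (C * rt q t ^ (q * (D + 1))) := mul_le_mul_of_nonneg_left h8 (pow_pos ht0 D).le
      _ = C * t⁻¹ := by rw [← h14]; ring
      _ ≤ Real.exp (1 / 2 * LT e' n) * t⁻¹ := mul_le_mul_of_nonneg_right h9 hC0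
      _ ≤ Real.exp (1 / 2 * LT e' n) * Real.exp (-LT e' n) :=
          mul_le_mul_of_nonneg_left h15 (Real.exp_pos _).le
      _ = _ := by rw [← Real.exp_add]; ring_nf
  obtain ⟨N, c, hNc, hfin⟩ := comb_case he't a M k γ hγalg (η := 1 / 2) (by norm_num) happ
  refine ⟨q, M, k, N, c, hq, ?_, hfin⟩
  rintro rfl
  have hc : c ≠ 0 := by simpa using hNc
  -- a polynomial with too many roots
  set Q : Polynomial ℝ := ∑ i : Fin M, Polynomial.C (c i : ℝ) * Polynomial.X ^ (M - (i : ℕ)) with hQ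
  have hQ0 : Q ≠ 0 := by
    intro h0
    apply hc
    funext i
    have h3 := congrArg (fun p => Polynomial.coeff p (M - (i : ℕ))) h0
    simp only [hQ, Polynomial.finsetSum_coeff, Polynomial.coeff_C_mul_X_pow,
      Polynomial.coeff_zero] at h3
    rw [Finset.sum_eq_single i] at h3
    · rw [if_pos rfl] at h3
      exact_mod_cast h3
    · intro j _ hj
      rw [if_neg]
      intro h4
      apply hj
      have := i.2
      have := j.2
      exact Fin.ext (by omega)
    · intro h
      exact absurd (Finset.mem_univ _) h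
  have htt' : Tendsto (fun n => (2 : ℝ) ^ e' n) atTop atTop :=
    (tendsto_pow_atTop_atTop_of_one_lt (by norm_num)).comp he't
  have h3 := ev_of_atTop (htt'.eventually (Polynomial.eventually_atTop_not_isRoot Q hQ0))
  obtain ⟨n, hn1, hn2⟩ := (h3.and hfin).exists
  apply hn1
  rw [Polynomial.IsRoot, hQ, Polynomial.eval_finsetSum]
  simp only [Polynomial.eval_mul, Polynomial.eval_C, Polynomial.eval_pow, Polynomial.eval_X]
  rw [Int.cast_zero, zero_mul] at hn2
  have h4 : (0 : ℝ) = ∑ i, (c i : ℝ) * (2 : ℝ) ^ (k i * (e' n : ℤ)) := by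
    have := congrArg (fun r : ℚ => (r : ℝ)) hn2
    push_cast at this
    exact this
  have h5 : ∑ i : Fin M, (c i : ℝ) * ((2 : ℝ) ^ e' n) ^ (M - (i : ℕ)) =
      (2 : ℝ) ^ (((M : ℤ) - (q * D : ℕ)) * (e' n : ℤ)) *
        ∑ i, (c i : ℝ) * (2 : ℝ) ^ (k i * (e' n : ℤ)) := by
    rw [Finset.mul_sum]
    refine Finset.sum_congr rfl fun i _ => ?_
    rw [mul_left_comm, ← zpow_add₀ (by norm_num : (2 : ℝ) ≠ 0), ← pow_mul, ← zpow_natCast]
    congr 2
    have := i.2
    push_cast [Nat.cast_sub this.le]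
    rw [hk]
    push_cast
    ring
  rw [h5, ← h4, mul_zero]

end Pool.Agent.H556.RT
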