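import Mathlib
import Pool.Graph.R_seed8.TH796.AL.All

/-!
# The subspace theorem for germs, with forms over a real number field at the real place
-/

set_option autoImplicit false

namespace Pool.Agent.H556.RT

open Filter Topology Pool.Agent.TH932.Abs Pool.Agent.TH932.Germs Pool.Agent.TH932.Chi
open Pool.Agent.TH796.AL

variable {F : IntermediateField ℚ ℝ}

lemma smul_HR (c : F) (z : HR) : c • z = algebraMap ℝ HR (c : ℝ) * z := by
  rw [Algebra.smul_def]
  rfl

/-- linear independence over the rational numbers -/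
def QInd {ι : Type*} (g : ι → GG) : Prop :=
  ∀ (s : Finset ι) (c : ι → ℚ), ∑ i ∈ s, (c i : GG) * g i = 0 → ∀ i ∈ s, c i = 0

/-- rational germs which are independent over `ℚ` are independent over real number fields -/
lemma rho_indep [FiniteDimensional ℚ F] {ι : Type*} {g : ι → GG} (hg : QInd g) :
    LinearIndependent F (fun i => rho (g i)) := by
  classical
  rw [linearIndependent_iff']
  intro s c hc
  set β := Module.finBasis ℚ F with hβ
  have hβi : LinearIndependent ℚ (fun k => ((β k : F) : ℝ)) := by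
    have h1 := β.linearIndependent
    exact h1.map' (F.val.toLinearMap) (LinearMap.ker_eq_bot.2 F.val.injective)
  have h2 : ∀ i, algebraMap ℝ HR (c i : ℝ) = ∑ k, algebraMap ℝ HR ((β k : F) : ℝ) *
      rho (((β.repr (c i) k : ℚ)) : GG) := by
    intro i
    have h3 : (c i : ℝ) = ∑ k, ((β.repr (c i) k : ℚ) : ℝ) * ((β k : F) : ℝ) := by
      conv_lhs => rw [← β.sum_repr (c i)]
      rw [AddSubmonoidClass.coe_finset_sum]
      refine Finset.sum_congr rfl fun k _ => ?_
      rw [Rat.smul_def]
      push_cast
      rfl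
    rw [h3, map_sum]
    refine Finset.sum_congr rfl fun k _ => ?_
    rw [map_mul, mul_comm, map_ratCast, map_ratCast]
  have h4 : ∑ k, algebraMap ℝ HR ((β k : F) : ℝ) *
      rho (∑ i ∈ s, ((β.repr (c i) k : ℚ) : GG) * g i) = 0 := by
    rw [← hc]
    simp_rw [map_sum, map_mul, Finset.mul_sum]
    rw [Finset.sum_comm]
    refine Finset.sum_congr rfl fun i _ => ?_
    rw [smul_HR, h2 i, Finset.sum_mul]
    refine Finset.sum_congr rfl fun k _ => ?_
    rw [mul_assoc]
  have h5 := disj_thm _ inferInstance _ hβi _ h4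
  intro i hi
  have h6 : ∀ k, β.repr (c i) k = 0 := by
    intro k
    exact hg s (fun i => (β.repr (c i) k : ℚ)) (h5 k) i hi
  have h7 : β.repr (c i) = 0 := by
    ext k
    exact h6 k
  exact (LinearEquiv.map_eq_zero_iff _).1 h7

/-- the subspace theorem -/
theorem fixA' {m : ℕ} {B0 : Base m} {L : ℕ → ℝ} (hL : Tendsto L atTop atTop)
    [FiniteDimensional ℚ F] {ι : Type*} [Fintype ι] (x : ι → GG) (z : ι → HR)
    (w : Fin m → ι → ℝ) (wI : ι → ℝ) (hx : QInd x)
    (hxz : ∀ i, rho (x i) ∈ Submodule.span F (Set.range z))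
    (hzx : ∀ i, z i ∈ Submodule.span F (Set.range fun j => rho (x j)))
    (hw : ∀ v i, x i ∈ Sv B0 L (some v) (w v i)) (hwI : ∀ i, z i ∈ SR L (wI i))
    (hint : ∀ i, Sint B0 L (x i)) : ∑ v, ∑ i, w v i + ∑ i, wI i ≤ 0 := by
  classical
  have h1 : LinearIndependent F (fun i => rho (x i)) := rho_indep hx
  have h2 : Submodule.span F (Set.range z) =
      Submodule.span F (Set.range fun j => rho (x j)) := by
    apply le_antisymm
    · rw [Submodule.span_le]
      rintro _ ⟨i, rfl⟩
      exact hzx i
    · rw [Submodule.span_le]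
      rintro _ ⟨i, rfl⟩
      exact hxz i
  have h3 : LinearIndependent F z := by
    rw [linearIndependent_iff_card_eq_finrank_span, Set.finrank, h2]
    exact (finrank_span_eq_card h1).symm
  set e := Fintype.equivFin ι with he
  have h4 := fixa_thm m B0 L hL F inferInstance (Fintype.card ι) (fun j => x (e.symm j))
    (fun j => z (e.symm j)) (fun v j => w v (e.symm j)) (fun j => wI (e.symm j)) ?_ ?_ ?_
    (fun v j => hw v _) (fun j => hwI _) (fun j => hint _)
  · have h5 : ∀ f : ι → ℝ, ∑ j, f (e.symm j) = ∑ i, f i := fun f => e.symm.sum_comp f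
    simp_rw [h5] at h4
    exact h4
  · intro c hc j
    have h5 : ∑ i, (((c (e i) : ℚ)) : GG) * x i = 0 := by
      rw [← hc, ← e.symm.sum_comp (fun i => (((c (e i) : ℚ)) : GG) * x i)]
      refine Finset.sum_congr rfl fun j _ => ?_
      rw [Equiv.apply_symm_apply]
      push_cast
      rfl
    have h6 := hx Finset.univ (fun i => (c (e i) : ℚ)) h5 (e.symm j) (Finset.mem_univ _)
    rw [Equiv.apply_symm_apply] at h6
    exact_mod_cast h6
  · exact h3.comp _ e.symm.injective
  · intro j
    have h5 : (Set.range fun j => rho (x (e.symm j))) = Set.range fun i => rho (x i) := by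
      ext y
      constructor
      · rintro ⟨j, rfl⟩
        exact ⟨_, rfl⟩
      · rintro ⟨i, rfl⟩
        exact ⟨e i, by simp only [Equiv.symm_apply_apply]⟩
    rw [h5]
    exact hzx _

end Pool.Agent.H556.RT
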