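import Mathlib
import Pool.Agent.H556.RT.Lin

/-!
# Polynomials in two germs
-/

set_option autoImplicit false

namespace Pool.Agent.H556.RT

open Filter Topology Pool.Agent.TH932.Abs Pool.Agent.TH932.Germs Pool.Agent.TH932.Chi
open Pool.Agent.TH796.AL Polynomial

/-- the value of a rational polynomial at a germ -/
noncomputable def evq (u : GG) : ℚ[X] →+* GG := eval₂RingHom (Rat.castHom GG) u

lemma evq_X (u : GG) : evq u X = u := by simp [evq]

lemma evq_C (u : GG) (c : ℚ) : evq u (C c) = (c : GG) := by simp [evq]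

lemma evq_eq (u : GG) (f : ℚ[X]) {n : ℕ} (hn : f.natDegree < n) :
    evq u f = ∑ k ∈ Finset.range n, ((f.coeff k : ℚ) : GG) * u ^ k := by
  conv_lhs => rw [f.as_sum_range' n hn]
  rw [map_sum]
  refine Finset.sum_congr rfl fun k _ => ?_
  rw [← C_mul_X_pow_eq_monomial, map_mul, map_pow, evq_X, evq_C]

/-- `r` satisfies no relation of degree less than `n` with coefficients in `ℚ[u]` -/
def PInd (n : ℕ) (u r : GG) : Prop :=
  ∀ E : Fin n → ℚ[X], ∑ b, evq u (E b) * r ^ (b : ℕ) = 0 → ∀ b, E b = 0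

lemma qind_of {ι : Type*} {I : ℕ} {u r : GG} (h : PInd (I + 1) u r) (jj ek : ι → ℕ)
    (hinj : Function.Injective fun i => (jj i, ek i)) (hj : ∀ i, jj i ≤ I) (A : ℕ → ℚ[X])
    (hA : ∀ j, A j ≠ 0) {c : GG} (hc : c ≠ 0) :
    QInd (fun i => c * (r ^ (I - jj i) * evq u (A (jj i)) * u ^ ek i)) := by
  classical
  intro s d hd i0 hi0
  set E : Fin (I + 1) → ℚ[X] := fun b => A (I - b) *
    ∑ i ∈ s.filter (fun i => jj i = I - b), C (d i) * X ^ ek i with hE
  have h1 : ∑ b, evq u (E b) * r ^ (b : ℕ) = 0 := by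
    have h2 : c * ∑ b, evq u (E b) * r ^ (b : ℕ) = 0 := by
      rw [← hd, ← Finset.sum_fiberwise_of_maps_to (s := s) (t := Finset.univ)
        (g := fun i => (⟨I - jj i, by omega⟩ : Fin (I + 1))) (fun _ _ => Finset.mem_univ _),
        Finset.mul_sum]
      refine Finset.sum_congr rfl fun b _ => ?_
      have h3 : s.filter (fun i => jj i = I - b) =
          s.filter (fun i => (⟨I - jj i, by omega⟩ : Fin (I + 1)) = b) := by
        ext i
        simp only [Finset.mem_filter, Fin.ext_iff]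
        have := hj i
        have := b.2
        constructor
        · rintro ⟨h4, h5⟩; exact ⟨h4, by omega⟩
        · rintro ⟨h4, h5⟩; exact ⟨h4, by omega⟩
      rw [hE]
      simp only []
      rw [h3, map_mul, map_sum, Finset.mul_sum, Finset.sum_mul, Finset.mul_sum]
      refine Finset.sum_congr rfl fun i hi => ?_
      rw [Finset.mem_filter] at hi
      have h4 : I - jj i = (b : ℕ) := by rw [← hi.2]
      have h5 : I - (b : ℕ) = jj i := by have := hj i; omega
      rw [map_mul, map_pow, evq_X, evq_C, h4, h5]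
      ring
    exact (mul_eq_zero.1 h2).resolve_left hc
  have h2 := h E h1 ⟨I - jj i0, by omega⟩
  rw [hE] at h2
  simp only [mul_eq_zero] at h2
  have h3 := h2.resolve_left (hA _)
  have h4 := congrArg (fun f : ℚ[X] => f.coeff (ek i0)) h3
  simp only [finset_sum_coeff, coeff_C_mul, coeff_X_pow, coeff_zero] at h4
  rw [Finset.sum_eq_single i0] at h4
  · simpa using h4
  · intro i hi hne
    rw [Finset.mem_filter] at hi
    rw [if_neg, mul_zero]
    intro h5
    apply hne
    apply hinj
    have := hj i0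
    simp only [Prod.mk.injEq]
    exact ⟨by omega, h5.symm⟩
  · intro hn
    exact absurd (Finset.mem_filter.2 ⟨hi0, by have := hj i0; omega⟩) hn

variable {s : ℕ} {B0 : Base s} {L : ℕ → ℝ}

lemma Sv_one (hL : Tendsto L atTop atTop) (v : Option (Fin s)) : (1 : GG) ∈ Sv B0 L v 0 := by
  have := (filt_v (B := B0) hL v).alg_mem 1
  rwa [map_one] at this

lemma Sv_rat (hL : Tendsto L atTop atTop) (v : Option (Fin s)) (c : ℚ) :
    (c : GG) ∈ Sv B0 L v 0 := by
  have := (filt_v (B := B0) hL v).alg_mem (c : KK L hL)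
  rwa [map_ratCast] at this

lemma Sint_rat (hL : Tendsto L atTop atTop) (c : ℚ) : Sint B0 L (c : GG) := by
  have := Sint.alg (B := B0) hL (c : KK L hL)
  convert this using 1
  change (c : GG) = algebraMap (KK L hL) GG (c : KK L hL)
  rw [map_ratCast]

lemma Sv_pow (hL : Tendsto L atTop atTop) {v : Option (Fin s)} {g : GG} {t : ℝ}
    (h : g ∈ Sv B0 L v t) (n : ℕ) : g ^ n ∈ Sv B0 L v (n * t) := by
  have := (filt_v (B := B0) hL v).pow_mem h n
  rwa [mul_comm] at this

lemma Sv_sum (hL : Tendsto L atTop atTop) {v : Option (Fin s)} {ι : Type*} (t : Finset ι)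
    (f : ι → GG) {w : ℝ} (h : ∀ i ∈ t, f i ∈ Sv B0 L v w) : ∑ i ∈ t, f i ∈ Sv B0 L v w := by
  classical
  induction t using Finset.induction_on with
  | empty => rw [Finset.sum_empty]; exact (filt_v (B := B0) hL v).zero_mem _
  | insert i t hi ih =>
    rw [Finset.sum_insert hi]
    exact (filt_v (B := B0) hL v).add_mem (h i (Finset.mem_insert_self _ _))
      (ih fun j hj => h j (Finset.mem_insert_of_mem hj))

/-- the size of the value of a polynomial -/
lemma Sv_evq (hL : Tendsto L atTop atTop) {v : Option (Fin s)} {u : GG} {τ : ℝ}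
    (h : u ∈ Sv B0 L v τ) (f : ℚ[X]) :
    evq u f ∈ Sv B0 L v (f.natDegree * min 0 τ) := by
  rw [evq_eq u f (Nat.lt_succ_self _)]
  refine Sv_sum hL _ _ fun k hk => ?_
  have h1 := (filt_v (B := B0) hL v).mul_mem (Sv_rat (B0 := B0) hL v (f.coeff k)) (Sv_pow hL h k)
  refine (filt_v (B := B0) hL v).anti ?_ h1
  have hk' : (k : ℝ) ≤ f.natDegree := by
    have := Finset.mem_range.1 hk
    exact_mod_cast Nat.lt_succ_iff.1 this
  rw [zero_add]
  have h2 : min 0 τ ≤ 0 := min_le_left _ _
  have h3 : min 0 τ ≤ τ := min_le_right _ _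
  have h4 : (0 : ℝ) ≤ k := Nat.cast_nonneg k
  calc (f.natDegree : ℝ) * min 0 τ ≤ k * min 0 τ := mul_le_mul_of_nonpos_right hk' h2
    _ ≤ k * τ := mul_le_mul_of_nonneg_left h3 h4

end Pool.Agent.H556.RT
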