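import Mathlib
import Pool.Agent.H556.RT.Pol

/-!
# The coordinates and the forms in the case without a relation
-/

set_option autoImplicit false

namespace Pool.Agent.H556.RT

open Filter Topology Pool.Agent.TH932.Abs Pool.Agent.TH932.Germs Pool.Agent.TH932.Chi
open Pool.Agent.TH796.AL Polynomial

variable {F : IntermediateField ℚ ℝ}

/-- the index type -/
abbrev IA (I K δ m : ℕ) := (Fin (I + 1) × Fin K) ⊕ (Σ j : Fin (I + 1), Fin (δ * min m j))

/-- the order -/
def jA {I K δ m : ℕ} : IA I K δ m → ℕ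
  | .inl x => x.1
  | .inr x => x.1

/-- the exponent of `u` -/
def eA {I K δ m : ℕ} : IA I K δ m → ℕ
  | .inl x => x.2 + δ * min m x.1
  | .inr x => x.2

lemma jA_le {I K δ m : ℕ} (i : IA I K δ m) : jA i ≤ I := by
  rcases i with x | x
  · exact Nat.lt_succ_iff.1 x.1.2
  · exact Nat.lt_succ_iff.1 x.1.2

lemma injA {I K δ m : ℕ} :
    Function.Injective fun i : IA I K δ m => ((jA i, eA i) : ℕ × ℕ) := by
  rintro (⟨j, k⟩ | ⟨j, k⟩) (⟨j', k'⟩ | ⟨j', k'⟩) h
  · simp only [jA, eA, Prod.mk.injEq] at h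
    have h1 : j = j' := Fin.ext h.1
    subst h1
    have h2 : k = k' := Fin.ext (by omega)
    rw [h2]
  · simp only [jA, eA, Prod.mk.injEq] at h
    have h1 : j = j' := Fin.ext h.1
    subst h1
    have := k'.2
    exfalso
    omega
  · simp only [jA, eA, Prod.mk.injEq] at h
    have h1 : j = j' := Fin.ext h.1
    subst h1
    have := k.2
    exfalso
    omega
  · simp only [jA, eA, Prod.mk.injEq] at h
    have h1 : j = j' := Fin.ext h.1
    subst h1
    have h2 : k = k' := Fin.ext h.2
    rw [h2]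

lemma coverA {I K δ m : ℕ} {j e : ℕ} (hj : j ≤ I) (he : e < K + δ * min m j) :
    ∃ i : IA I K δ m, jA i = j ∧ eA i = e := by
  rcases lt_or_ge e (δ * min m j) with h | h
  · exact ⟨.inr ⟨⟨j, by omega⟩, ⟨e, h⟩⟩, rfl, rfl⟩
  · refine ⟨.inl (⟨j, by omega⟩, ⟨e - δ * min m j, by omega⟩), rfl, ?_⟩
    simp only [eA]
    omega

/-- the coordinates -/
noncomputable def xA (I K m : ℕ) (P : ℚ[X]) (c r u : GG) (i : IA I K P.natDegree m) : GG :=
  c * (r ^ (I - jA i) * evq u (P ^ (m - jA i)) * u ^ eA i)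

/-- the forms at the real place -/
noncomputable def zA (I K m : ℕ) (P : ℚ[X]) (ξ : ℝ) (c r u : GG) (i : IA I K P.natDegree m) : HR :=
  match i with
  | .inl x => (rho r - algebraMap ℝ HR ξ) ^ (x.1 : ℕ) * rho (c * (evq u (P ^ m) * u ^ (x.2 : ℕ)))
  | .inr x => rho (xA I K m P c r u (.inr x))

lemma qindA {I K m : ℕ} {P : ℚ[X]} (hP : P ≠ 0) {c r u : GG} (hc : c ≠ 0)
    (h : PInd (I + 1) u r) : QInd (xA I K m P c r u) :=
  qind_of h jA eA injA jA_le (fun j => P ^ (m - j)) (fun _ => pow_ne_zero _ hP) hc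

lemma mem_cst {S : Submodule F HR} {z : HR} (hz : z ∈ S) {a : ℝ} (ha : a ∈ F) :
    algebraMap ℝ HR a * z ∈ S := by
  have := S.smul_mem (⟨a, ha⟩ : F) hz
  rwa [smul_HR] at this

lemma mem_rat {S : Submodule F HR} {z : HR} (hz : z ∈ S) (a : ℚ) :
    rho (a : GG) * z ∈ S := by
  have h1 : rho (a : GG) = algebraMap ℝ HR (a : ℝ) := by rw [map_ratCast, map_ratCast]
  rw [h1]
  exact mem_cst hz (by
    have : ((a : F) : ℝ) ∈ F := (a : F).2
    simpa using this)

lemma mem_evq {S : Submodule F HR} {u w : GG} {n : ℕ} (f : ℚ[X]) (hf : f.natDegree < n)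
    (h : ∀ k < n, rho (w * u ^ k) ∈ S) : rho (w * evq u f) ∈ S := by
  rw [evq_eq u f hf, Finset.mul_sum, map_sum]
  refine Submodule.sum_mem _ fun k hk => ?_
  have h1 : w * (((f.coeff k : ℚ) : GG) * u ^ k) = ((f.coeff k : ℚ) : GG) * (w * u ^ k) := by ring
  rw [h1, map_mul]
  exact mem_rat (h k (Finset.mem_range.1 hk)) _

lemma zA_mem {I K m : ℕ} {P : ℚ[X]} {ξ : ℝ} (hξ : ξ ∈ F) {c r u : GG}
    (i : IA I K P.natDegree m) :
    zA I K m P ξ c r u i ∈ Submodule.span F (Set.range fun j => rho (xA I K m P c r u j)) := by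
  set S := Submodule.span F (Set.range fun j => rho (xA I K m P c r u j)) with hS
  have h1 : ∀ t ≤ I, ∀ k < K, rho (c * r ^ t * (evq u (P ^ m) * u ^ k)) ∈ S := by
    intro t ht k hk
    have h2 : c * r ^ t * (evq u (P ^ m) * u ^ k) =
        c * r ^ t * evq u (P ^ (m - (I - t))) * evq u (P ^ (min m (I - t)) * X ^ k) := by
      rw [map_mul, map_pow (evq u) X, evq_X]
      have h3 : P ^ m = P ^ (m - (I - t)) * P ^ (min m (I - t)) := by
        rw [← pow_add]
        congr 1
        omega
      rw [h3, map_mul]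
      ring
    rw [h2]
    refine mem_evq (n := K + P.natDegree * min m (I - t)) _ ?_ ?_
    · refine lt_of_le_of_lt (natDegree_mul_le.trans
        (Nat.add_le_add natDegree_pow_le (natDegree_X_pow_le k))) ?_
      rw [Nat.mul_comm]
      omega
    · intro e he
      obtain ⟨i', hi1, hi2⟩ := coverA (I := I) (K := K) (δ := P.natDegree) (m := m)
        (j := I - t) (by omega) he
      refine Submodule.subset_span ⟨i', ?_⟩
      simp only [xA]
      rw [hi1, hi2, show I - (I - t) = t by omega]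
      congr 1
      ring
  rcases i with x | x
  · simp only [zA]
    have h2 : (rho r - algebraMap ℝ HR ξ) ^ (x.1 : ℕ) *
        rho (c * (evq u (P ^ m) * u ^ (x.2 : ℕ))) =
        ∑ t ∈ Finset.range ((x.1 : ℕ) + 1), algebraMap ℝ HR ((-ξ) ^ ((x.1 : ℕ) - t) *
          ((x.1 : ℕ).choose t : ℝ)) * rho (c * r ^ t * (evq u (P ^ m) * u ^ (x.2 : ℕ))) := by
      rw [sub_eq_add_neg, add_pow, Finset.sum_mul]
      refine Finset.sum_congr rfl fun t _ => ?_
      simp only [map_mul, map_pow, map_neg, map_natCast]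
      ring
    rw [h2]
    refine Submodule.sum_mem _ fun t ht => ?_
    refine mem_cst (h1 t ?_ _ x.2.2) ?_
    · have := Finset.mem_range.1 ht
      have := x.1.2
      omega
    · exact mul_mem (pow_mem (neg_mem hξ) _) (natCast_mem F _)
  · exact Submodule.subset_span ⟨.inr x, rfl⟩

lemma xA_mem {I K m : ℕ} {P : ℚ[X]} (hP : P ≠ 0) {ξ : ℝ} (hξ : ξ ∈ F) {c r u : GG}
    (i : IA I K P.natDegree m) :
    rho (xA I K m P c r u i) ∈ Submodule.span F (Set.range (zA I K m P ξ c r u)) := by
  set S := Submodule.span F (Set.range (zA I K m P ξ c r u)) with hS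
  have h1 : ∀ t ≤ I, ∀ k < K, rho (c * r ^ t * evq u (P ^ m) * u ^ k) ∈ S := by
    intro t ht k hk
    have h2 : rho (c * r ^ t * evq u (P ^ m) * u ^ k) =
        ∑ i ∈ Finset.range (t + 1), algebraMap ℝ HR (ξ ^ (t - i) * (t.choose i : ℝ)) *
          ((rho r - algebraMap ℝ HR ξ) ^ i * rho (c * (evq u (P ^ m) * u ^ k))) := by
      have h3 : rho r ^ t = ∑ i ∈ Finset.range (t + 1),
          (rho r - algebraMap ℝ HR ξ) ^ i * (algebraMap ℝ HR ξ) ^ (t - i) * (t.choose i : HR) := by
        conv_lhs => rw [show rho r = (rho r - algebraMap ℝ HR ξ) + algebraMap ℝ HR ξ by ring,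
          add_pow]
      rw [show c * r ^ t * evq u (P ^ m) * u ^ k = r ^ t * (c * (evq u (P ^ m) * u ^ k)) by ring,
        map_mul, map_pow rho, h3, Finset.sum_mul]
      refine Finset.sum_congr rfl fun i _ => ?_
      rw [map_mul (algebraMap ℝ HR), map_pow (algebraMap ℝ HR), map_natCast (algebraMap ℝ HR)]
      ring
    rw [h2]
    refine Submodule.sum_mem _ fun i hi => ?_
    refine mem_cst ?_ (mul_mem (pow_mem hξ _) (natCast_mem F _))
    refine Submodule.subset_span ⟨.inl (⟨i, ?_⟩, ⟨k, hk⟩), rfl⟩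
    have := Finset.mem_range.1 hi
    omega
  rcases i with x | x
  · set j : ℕ := x.1.val with hj
    have hjI : j ≤ I := Nat.lt_succ_iff.1 x.1.2
    set e : ℕ := x.2.val + P.natDegree * min m j with he
    set Q := P ^ (min m j) with hQ
    have hQ0 : Q ≠ 0 := pow_ne_zero _ hP
    have hQd : Q.natDegree = min m j * P.natDegree := natDegree_pow _ _
    have h2 : (X : ℚ[X]) ^ e = Q * (X ^ e / Q) + X ^ e % Q :=
      (EuclideanDomain.div_add_mod _ _).symm
    have hdeg : (X ^ e % Q : ℚ[X]).degree < Q.degree := by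
      have := EuclideanDomain.mod_lt (X ^ e : ℚ[X]) hQ0
      exact this
    have h3 : rho (xA I K m P c r u (.inl x)) =
        rho (c * r ^ (I - j) * evq u (P ^ m) * evq u (X ^ e / Q)) +
        rho (c * r ^ (I - j) * evq u (P ^ (m - j)) * evq u (X ^ e % Q)) := by
      rw [← map_add]
      congr 1
      have h4 : xA I K m P c r u (.inl x) =
          c * (r ^ (I - j) * evq u (P ^ (m - j)) * u ^ e) := rfl
      have h5 : u ^ e = evq u (X ^ e) := by rw [map_pow, evq_X]
      have h6 : P ^ m = P ^ (m - j) * Q := by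
        rw [hQ, ← pow_add]
        congr 1
        omega
      rw [h4, h5]
      conv_lhs => rw [h2]
      rw [h6, map_add, map_mul, map_mul]
      ring
    rw [h3]
    refine Submodule.add_mem _ ?_ ?_
    · refine mem_evq (n := K) _ ?_ fun k hk => h1 _ (by omega) k hk
      by_cases hg : (X ^ e / Q : ℚ[X]) = 0
      · rw [hg, natDegree_zero]
        exact lt_of_le_of_lt (Nat.zero_le _) x.2.2
      · have h7 : (X ^ e : ℚ[X]).degree = Q.degree + (X ^ e / Q : ℚ[X]).degree := by
          conv_lhs => rw [h2]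
          rw [degree_add_eq_left_of_degree_lt, degree_mul]
          refine lt_of_lt_of_le hdeg ?_
          rw [degree_mul]
          have h8 : (0 : WithBot ℕ) ≤ (X ^ e / Q : ℚ[X]).degree := zero_le_degree_iff.2 hg
          exact le_add_of_nonneg_right h8
        rw [degree_X_pow, degree_eq_natDegree hQ0, degree_eq_natDegree hg] at h7
        have h8 : e = Q.natDegree + (X ^ e / Q : ℚ[X]).natDegree := by exact_mod_cast h7
        rw [hQd] at h8
        have h9 := x.2.2
        rw [Nat.mul_comm] at h8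
        omega
    · by_cases hb : Q.natDegree = 0
      · have h7 : (X ^ e % Q : ℚ[X]) = 0 := by
          rw [degree_eq_natDegree hQ0, hb] at hdeg
          exact degree_eq_bot.1 (Nat.WithBot.lt_zero_iff.1 hdeg)
        rw [h7, map_zero, mul_zero, map_zero]
        exact Submodule.zero_mem _
      · refine mem_evq (n := P.natDegree * min m j) _ ?_ fun l hl => ?_
        · rw [Nat.mul_comm, ← hQd]
          by_cases h0 : (X ^ e % Q : ℚ[X]) = 0
          · rw [h0, natDegree_zero]
            omega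
          · exact natDegree_lt_natDegree h0 hdeg
        · refine Submodule.subset_span ⟨.inr ⟨x.1, ⟨l, hl⟩⟩, ?_⟩
          simp only [zA, xA, jA, eA]
          congr 1
          rw [← hj]
          ring
  · exact Submodule.subset_span ⟨.inr x, rfl⟩

end Pool.Agent.H556.RT
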