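import Mathlib
import Pool.Agent.H556.RT.ASpan
import Pool.Agent.H556.LG.Main

/-!
# The inequality in the case without a relation
-/

set_option autoImplicit false

namespace Pool.Agent.H556.RT

open Filter Topology Pool.Agent.TH932.Abs Pool.Agent.TH932.Germs Pool.Agent.TH932.Chi
open Pool.Agent.TH796.AL Polynomial

variable {s : ℕ} {B0 : Base s} {L : ℕ → ℝ} {F : IntermediateField ℚ ℝ}

lemma SR_pow (hL : Tendsto L atTop atTop) {z : HR} {t : ℝ} (h : z ∈ SR L t) (n : ℕ) :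
    z ^ n ∈ SR L (n * t) := by
  induction n with
  | zero =>
    rw [pow_zero, Nat.cast_zero, zero_mul]
    have := SR_cst hL 1
    rwa [map_one] at this
  | succ n ih =>
    rw [pow_succ]
    have := SR_mul hL ih h
    rw [show ((n + 1 : ℕ) : ℝ) * t = n * t + t by push_cast; ring]
    exact this

/-- the algebraic form of the coordinates -/
lemma xA_eq {I K m : ℕ} {P : ℚ[X]} {q r u Di : GG} (i : IA I K P.natDegree m) :
    xA I K m P (q ^ I * Di ^ m) r u i =
      (r * q) ^ (I - jA i) * q ^ jA i * Di ^ m * evq u (P ^ (m - jA i)) * u ^ eA i := by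
  have h1 : q ^ I = q ^ (I - jA i) * q ^ jA i := by
    rw [← pow_add]
    congr 1
    have := jA_le i
    omega
  unfold xA
  rw [h1, mul_pow]
  ring

lemma xA_int (hL : Tendsto L atTop atTop) {I K m : ℕ} {P : ℚ[X]} {q r u Di : GG}
    (h1 : Sint B0 L q) (h2 : Sint B0 L (r * q)) (h3 : Sint B0 L u) (h4 : Sint B0 L (q * Di))
    (h5 : Sint B0 L (evq u P * Di)) (i : IA I K P.natDegree m) :
    Sint B0 L (xA I K m P (q ^ I * Di ^ m) r u i) := by
  rw [xA_eq]
  rcases le_total m (jA i) with h | h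
  · have e : (r * q) ^ (I - jA i) * q ^ jA i * Di ^ m * evq u (P ^ (m - jA i)) * u ^ eA i =
        (r * q) ^ (I - jA i) * ((q * Di) ^ m * q ^ (jA i - m)) * u ^ eA i := by
      rw [Nat.sub_eq_zero_of_le h, pow_zero, map_one]
      have : q ^ jA i = q ^ m * q ^ (jA i - m) := by
        rw [← pow_add]
        congr 1
        omega
      rw [this, mul_pow q Di]
      ring
    rw [e]
    exact Sint.mul hL (Sint.mul hL (LG.Sint_pow hL h2 _)
      (Sint.mul hL (LG.Sint_pow hL h4 _) (LG.Sint_pow hL h1 _))) (LG.Sint_pow hL h3 _)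
  · have e : (r * q) ^ (I - jA i) * q ^ jA i * Di ^ m * evq u (P ^ (m - jA i)) * u ^ eA i =
        (r * q) ^ (I - jA i) * ((q * Di) ^ jA i * (evq u P * Di) ^ (m - jA i)) * u ^ eA i := by
      have : Di ^ m = Di ^ jA i * Di ^ (m - jA i) := by
        rw [← pow_add]
        congr 1
        omega
      rw [this, map_pow, mul_pow q Di, mul_pow _ Di]
      ring
    rw [e]
    exact Sint.mul hL (Sint.mul hL (LG.Sint_pow hL h2 _)
      (Sint.mul hL (LG.Sint_pow hL h4 _) (LG.Sint_pow hL h5 _))) (LG.Sint_pow hL h3 _)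

/-- the weights at the finite places -/
noncomputable def wA {I K m : ℕ} (P : ℚ[X]) (κ κ' : Fin s → ℝ) (τ : Option (Fin s) → ℝ)
    (v : Fin s) (i : IA I K P.natDegree m) : ℝ :=
  ((I - jA i : ℕ) : ℝ) * κ' v + jA i * κ v +
    ((m - jA i : ℕ) : ℝ) * P.natDegree * min 0 (τ (some v)) + eA i * τ (some v)

/-- the weights at the real place -/
noncomputable def wAI {I K m : ℕ} (P : ℚ[X]) (τ : Option (Fin s) → ℝ) (lam d : ℝ) :
    IA I K P.natDegree m → ℝ
  | .inl x => -(I : ℝ) + m * d + (x.1 : ℕ) * lam + m * P.natDegree * τ none + (x.2 : ℕ) * τ none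
  | .inr x => -(I : ℝ) + m * d + ((m - (x.1 : ℕ) : ℕ) : ℝ) * P.natDegree * τ none +
      (x.2 : ℕ) * τ none

theorem caseA (hL : Tendsto L atTop atTop) [FiniteDimensional ℚ F] {ξ : ℝ} (hξ : ξ ∈ F)
    {P : ℚ[X]} (hP : P ≠ 0) {q r u Di : GG} (hq0 : q ≠ 0) (hD0 : Di ≠ 0)
    (κ κ' : Fin s → ℝ) (τ : Option (Fin s) → ℝ) (lam d : ℝ)
    (hqv : ∀ v, q ∈ Sv B0 L (some v) (κ v)) (hpv : ∀ v, r * q ∈ Sv B0 L (some v) (κ' v))
    (huv : ∀ v, u ∈ Sv B0 L v (τ v)) (hDv : ∀ v, Di ∈ Sv B0 L (some v) 0)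
    (hqn : q ∈ Sv B0 L none (-1)) (hDn : Di ∈ Sv B0 L none d) (hrn : r ∈ Sv B0 L none 0)
    (hcl : rho r - algebraMap ℝ HR ξ ∈ SR L lam) (hτ : ∑ v, τ v = 0) (hτn : τ none ≤ 0)
    (h1 : Sint B0 L q) (h2 : Sint B0 L (r * q)) (h3 : Sint B0 L u) (h4 : Sint B0 L (q * Di))
    (h5 : Sint B0 L (evq u P * Di)) (I m : ℕ) (h : PInd (I + 1) u r)
    (hW : 0 < ∑ j : Fin (I + 1), (((I - (j : ℕ) : ℕ) : ℝ) * ∑ v, κ' v +
      (j : ℕ) * (∑ v, κ v + lam) - I + m * d -
      ((m - (j : ℕ) : ℕ) : ℝ) * P.natDegree * -∑ v, min 0 (τ v))) : False := by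
  classical
  set W : ℝ := ∑ j : Fin (I + 1), (((I - (j : ℕ) : ℕ) : ℝ) * ∑ v, κ' v +
      (j : ℕ) * (∑ v, κ v + lam) - I + m * d -
      ((m - (j : ℕ) : ℕ) : ℝ) * P.natDegree * -∑ v, min 0 (τ v)) with hWdef
  set C0 : ℝ := ∑ x : (Σ j : Fin (I + 1), Fin (P.natDegree * min m j)),
    (∑ v : Fin s, (((I - (x.1 : ℕ) : ℕ) : ℝ) * κ' v + (x.1 : ℕ) * κ v +
      ((m - (x.1 : ℕ) : ℕ) : ℝ) * P.natDegree * min 0 (τ (some v)) + (x.2 : ℕ) * τ (some v)) +
    (-(I : ℝ) + m * d + ((m - (x.1 : ℕ) : ℕ) : ℝ) * P.natDegree * τ none +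
      (x.2 : ℕ) * τ none)) with hC0
  obtain ⟨K, hK⟩ := exists_nat_gt (-C0 / W)
  rw [div_lt_iff₀ hW] at hK
  set c : GG := q ^ I * Di ^ m with hc
  have hc0 : c ≠ 0 := mul_ne_zero (pow_ne_zero _ hq0) (pow_ne_zero _ hD0)
  have hcn : c ∈ Sv B0 L none (-(I : ℝ) + m * d) := by
    have h6 := (filt_v (B := B0) hL none).mul_mem (Sv_pow hL hqn I) (Sv_pow hL hDn m)
    rwa [mul_neg_one] at h6
  have key := fixA' (B0 := B0) hL (F := F) (xA I K m P c r u) (zA I K m P ξ c r u)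
    (wA P κ κ' τ) (wAI P τ lam d) (qindA hP hc0 h) (fun i => xA_mem hP hξ i)
    (fun i => zA_mem hξ i) ?_ ?_ ?_
  · -- the sum of the weights
    have e1 : ∑ v, ∑ i, wA (I := I) (K := K) (m := m) P κ κ' τ v i +
        ∑ i, wAI (I := I) (K := K) (m := m) P τ lam d i =
        ∑ i, (∑ v, wA (I := I) (K := K) (m := m) P κ κ' τ v i + wAI P τ lam d i) := by
      rw [Finset.sum_comm, ← Finset.sum_add_distrib]
    rw [e1, Fintype.sum_sum_type, Fintype.sum_prod_type] at key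
    have hsome : ∑ v : Fin s, τ (some v) = -τ none := by
      rw [Fintype.sum_option] at hτ
      linarith
    have hmin : ∑ v : Fin s, min 0 (τ (some v)) = ∑ v, min 0 (τ v) - τ none := by
      rw [Fintype.sum_option, min_eq_right hτn]
      ring
    have e2 : ∀ j : Fin (I + 1), ∀ k : Fin K,
        ∑ v, wA (I := I) (K := K) (m := m) P κ κ' τ v (.inl (j, k)) +
          wAI (I := I) (K := K) (m := m) P τ lam d (.inl (j, k)) = (((I - (j : ℕ) : ℕ) : ℝ) * ∑ v, κ' v +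
      (j : ℕ) * (∑ v, κ v + lam) - I + m * d -
      ((m - (j : ℕ) : ℕ) : ℝ) * P.natDegree * -∑ v, min 0 (τ v)) := by
      intro j k
      simp only [wA, wAI, jA, eA]
      rw [Finset.sum_add_distrib, Finset.sum_add_distrib, Finset.sum_add_distrib,
        ← Finset.mul_sum, ← Finset.mul_sum, ← Finset.mul_sum, ← Finset.mul_sum, hsome, hmin]
      have e3 : (m : ℝ) = ((m - (j : ℕ) : ℕ) : ℝ) + ((min m (j : ℕ) : ℕ) : ℝ) := by
        have : m = (m - (j : ℕ)) + min m (j : ℕ) := by omega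
        exact_mod_cast this
      push_cast at e3 ⊢
      have e4 : (m : ℝ) * P.natDegree * τ none = (((m - (j : ℕ) : ℕ) : ℝ) +
          min (m : ℝ) ((j : ℕ) : ℝ)) * P.natDegree * τ none := by rw [← e3]
      rw [e4]
      ring
    have e5 : ∑ j : Fin (I + 1), ∑ k : Fin K,
        (∑ v, wA (I := I) (K := K) (m := m) P κ κ' τ v (.inl (j, k)) +
          wAI (I := I) (K := K) (m := m) P τ lam d (.inl (j, k))) = K * W := by
      simp_rw [e2]
      simp only [Finset.sum_const, Finset.card_univ, Fintype.card_fin, nsmul_eq_mul]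
      rw [← Finset.mul_sum]
    rw [e5] at key
    have e6 : ∑ x : (Σ j : Fin (I + 1), Fin (P.natDegree * min m j)),
        (∑ v, wA (I := I) (K := K) (m := m) P κ κ' τ v (.inr x) + wAI (I := I) (K := K) (m := m) P τ lam d (.inr x)) =
        C0 := by
      rw [hC0]
      refine Finset.sum_congr rfl fun x _ => ?_
      simp only [wA, wAI, jA, eA]
    rw [e6] at key
    linarith
  · intro v i
    rw [hc, xA_eq]
    have hf := filt_v (B := B0) hL (some v)
    have h6 := hf.mul_mem (hf.mul_mem (hf.mul_mem (hf.mul_mem (Sv_pow hL (hpv v) (I - jA i))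
      (Sv_pow hL (hqv v) (jA i))) (Sv_pow hL (hDv v) m))
      (Sv_evq hL (huv (some v)) (P ^ (m - jA i)))) (Sv_pow hL (huv (some v)) (eA i))
    refine hf.anti (le_of_eq ?_) h6
    simp only [wA]
    rw [natDegree_pow]
    push_cast
    ring
  · intro i
    rcases i with x | x
    · simp only [zA, wAI]
      have hf := filt_v (B := B0) hL none
      have h6 := SR_mul hL (SR_pow hL hcl (x.1 : ℕ)) (SR_rho (hf.mul_mem hcn (hf.mul_mem
        (Sv_evq hL (huv none) (P ^ m)) (Sv_pow hL (huv none) (x.2 : ℕ)))))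
      refine SR_anti hL (le_of_eq ?_) h6
      rw [natDegree_pow, min_eq_right hτn]
      push_cast
      ring
    · simp only [zA, wAI]
      have hf := filt_v (B := B0) hL none
      refine SR_rho (B := B0) ?_
      simp only [xA, jA, eA]
      have h6 := hf.mul_mem hcn (hf.mul_mem (hf.mul_mem (Sv_pow hL hrn (I - (x.1 : ℕ)))
        (Sv_evq hL (huv none) (P ^ (m - (x.1 : ℕ))))) (Sv_pow hL (huv none) (x.2 : ℕ)))
      refine hf.anti (le_of_eq ?_) h6
      rw [natDegree_pow, min_eq_right hτn]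
      push_cast
      ring
  · intro i
    exact xA_int hL h1 h2 h3 h4 h5 i

end Pool.Agent.H556.RT
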