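import Mathlib

/-!
# The choice of the parameters
-/

set_option autoImplicit false

namespace Pool.Agent.H556.RT

lemma sum_pos_part (I m : ℕ) (h : m ≤ I) :
    ∑ j : Fin (I + 1), ((m - (j : ℕ) : ℕ) : ℝ) = m * (m + 1) / 2 := by
  rw [Fin.sum_univ_eq_sum_range (fun j => ((m - j : ℕ) : ℝ)) (I + 1)]
  induction m with
  | zero => simp
  | succ m ih =>
    have h1 := ih (by omega)
    have h2 : ∑ j ∈ Finset.range (I + 1), (((m + 1 - j : ℕ) : ℝ)) =
        ∑ j ∈ Finset.range (I + 1), (((m - j : ℕ) : ℝ) + if j < m + 1 then 1 else 0) := by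
      refine Finset.sum_congr rfl fun j _ => ?_
      split_ifs with h3
      · have : m + 1 - j = (m - j) + 1 := by omega
        rw [this]
        push_cast
        ring
      · have h4 : m + 1 - j = 0 := by omega
        have h5 : m - j = 0 := by omega
        rw [h4, h5]
        simp
    rw [h2, Finset.sum_add_distrib, h1, Finset.sum_ite, Finset.sum_const_zero, add_zero,
      Finset.sum_const, nsmul_eq_mul, mul_one]
    have h3 : (Finset.range (I + 1)).filter (fun j => j < m + 1) = Finset.range (m + 1) := by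
      ext j
      simp only [Finset.mem_filter, Finset.mem_range]
      omega
    rw [h3, Finset.card_range]
    push_cast
    ring

lemma sum_W (I m : ℕ) (h : m ≤ I) (κ κ' lam d B : ℝ) :
    ∑ j : Fin (I + 1), (((I - (j : ℕ) : ℕ) : ℝ) * κ' +
      (j : ℕ) * (κ + lam) - I + m * d - ((m - (j : ℕ) : ℕ) : ℝ) * B) =
      (I + 1) * ((κ' + κ + lam - 2) * I / 2 + m * d) - B * (m * (m + 1) / 2) := by
  have h1 := sum_pos_part I m h
  have h2 := sum_pos_part I I le_rfl
  have h3 : ∑ j : Fin (I + 1), ((j : ℕ) : ℝ) = I * (I + 1) / 2 := by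
    have h4 : ∑ j : Fin (I + 1), (((I - (j : ℕ) : ℕ) : ℝ) + ((j : ℕ) : ℝ)) =
        ∑ j : Fin (I + 1), (I : ℝ) := by
      refine Finset.sum_congr rfl fun j _ => ?_
      have : (I - (j : ℕ)) + (j : ℕ) = I := by omega
      exact_mod_cast this
    rw [Finset.sum_add_distrib, h2, Finset.sum_const, Finset.card_univ, Fintype.card_fin,
      nsmul_eq_mul] at h4
    push_cast at h4
    linarith
  have h5 : ∀ j : Fin (I + 1), (((I - (j : ℕ) : ℕ) : ℝ) * κ' +
      (j : ℕ) * (κ + lam) - I + m * d - ((m - (j : ℕ) : ℕ) : ℝ) * B) =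
      ((I - (j : ℕ) : ℕ) : ℝ) * κ' + ((j : ℕ) : ℝ) * (κ + lam) + (-(I : ℝ) + m * d) +
        ((m - (j : ℕ) : ℕ) : ℝ) * (-B) := fun j => by ring
  simp_rw [h5]
  rw [Finset.sum_add_distrib, Finset.sum_add_distrib, Finset.sum_add_distrib, ← Finset.sum_mul,
    ← Finset.sum_mul, ← Finset.sum_mul, h1, h2, h3, Finset.sum_const, Finset.card_univ,
    Fintype.card_fin, nsmul_eq_mul]
  push_cast
  ring

/-- the choice of the parameters -/
lemma exists_Im {A d B : ℝ} (hB : 0 < B) (hd : 0 ≤ d) (hdB : d ≤ B) (h : 0 < A + d ^ 2 / B) :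
    ∃ I m : ℕ, m ≤ I ∧ 0 < (I + 1) * (A * I / 2 + m * d) - B * (m * (m + 1) / 2) := by
  set c : ℝ := d / B with hc
  have hc0 : 0 ≤ c := div_nonneg hd hB.le
  have hc1 : c ≤ 1 := (div_le_one hB).2 hdB
  have hdc : d = c * B := by rw [hc]; field_simp
  have h' : 0 < A + c ^ 2 * B := by
    have : d ^ 2 / B = c ^ 2 * B := by rw [hdc]; field_simp
    rwa [this] at h
  obtain ⟨N, hN⟩ := exists_nat_gt ((d + |A| / 2 + B / 2) / ((A + c ^ 2 * B) / 2))
  rw [div_lt_iff₀ (by positivity)] at hN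
  have hN0 : 0 < N := by
    rcases Nat.eq_zero_or_pos N with h0 | h0
    · subst h0
      have := abs_nonneg A
      simp only [Nat.cast_zero, zero_mul] at hN
      linarith
    · exact h0
  have hNr : (0 : ℝ) < N := by exact_mod_cast hN0
  set m : ℕ := ⌊c * N⌋₊ with hm
  have hm1 : (m : ℝ) ≤ c * N := Nat.floor_le (by positivity)
  have hm2 : c * N < m + 1 := Nat.lt_floor_add_one _
  have hm3 : (m : ℝ) ≤ N := hm1.trans (by nlinarith)
  refine ⟨N, m, by exact_mod_cast hm3, ?_⟩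
  have hm0 : (0 : ℝ) ≤ m := Nat.cast_nonneg m
  have e1 : (m : ℝ) ^ 2 ≤ (c * N) ^ 2 := pow_le_pow_left₀ hm0 hm1 2
  have e2 : (N : ℝ) * (c * N - 1) * d ≤ N * m * d :=
    mul_le_mul_of_nonneg_right (mul_le_mul_of_nonneg_left (by linarith) hNr.le) hd
  have e3 : -(|A| * N / 2) ≤ A * N / 2 := by
    have := neg_abs_le A
    nlinarith
  have e4 : B * (m : ℝ) ^ 2 ≤ B * (c * N) ^ 2 := mul_le_mul_of_nonneg_left e1 hB.le
  have e5 : B * (m : ℝ) ≤ B * N := mul_le_mul_of_nonneg_left hm3 hB.le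
  have e6 : 0 ≤ (m : ℝ) * d := mul_nonneg hm0 hd
  have e7 : (d + |A| / 2 + B / 2) * N < N * ((A + c ^ 2 * B) / 2) * N :=
    mul_lt_mul_of_pos_right hN hNr
  rw [hdc] at e2 e6 e7 ⊢
  nlinarith

end Pool.Agent.H556.RT
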