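import Mathlib
import Pool.Agent.H556.RT.A
import Pool.Agent.H556.LG.Seq

/-!
# Constants, relations, and the factorisation
-/

set_option autoImplicit false

namespace Pool.Agent.H556.RT

open Filter Topology Pool.Agent.TH932.Abs Pool.Agent.TH932.Germs Pool.Agent.TH932.Chi
open Pool.Agent.TH796.AL Polynomial

variable {s : ℕ} {B0 : Base s} {L : ℕ → ℝ} {F : IntermediateField ℚ ℝ}

/-- small constants vanish -/
lemma cst_small (hL : Tendsto L atTop atTop) {c t : ℝ} (ht : 0 < t)
    (h : algebraMap ℝ HR c ∈ SR L t) : c = 0 := by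
  rw [cst_eq, mem_SR] at h
  have h1 := h (t / 2) (by positivity)
  have h3 : Tendsto (fun k => Real.exp (-(t - t / 2) * L k)) (UU : Filter ℕ) (𝓝 0) := by
    have h4 : Tendsto (fun k => Real.exp (-((t / 2) * L k))) atTop (𝓝 0) := by
      apply Real.tendsto_exp_neg_atTop_nhds_zero.comp
      exact Tendsto.const_mul_atTop (by positivity) hL
    refine (h4.mono_left Nat.hyperfilter_le_atTop).congr fun k => ?_
    congr 1
    ring
  have h5 : |c| ≤ 0 := ge_of_tendsto h3 h1
  exact abs_eq_zero.1 (le_antisymm h5 (abs_nonneg _))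

/-- inverses of germs close to nonzero constants -/
lemma inv_cst (hL : Tendsto L atTop atTop) {z : HR} {c t : ℝ} (ht : 0 < t) (hc : c ≠ 0)
    (h : z - algebraMap ℝ HR c ∈ SR L t) : z⁻¹ ∈ SR L 0 := by
  have h1 : ∀ t' : ℝ, 0 < t' → z⁻¹ ∈ SR L (-t') := by
    intro t' ht'
    apply SR_inv hL
    intro h2
    apply hc
    apply cst_small hL (lt_min ht ht')
    have h3 : algebraMap ℝ HR c = z + (-1 : HR) * (z - algebraMap ℝ HR c) := by ring
    rw [h3]
    refine SR_add hL (SR_anti hL (min_le_right _ _) h2) (SR_anti hL (min_le_left _ _) ?_)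
    have h4 := SR_mul hL (SR_cst hL (-1)) h
    rw [zero_add] at h4
    rwa [map_neg, map_one] at h4
  obtain ⟨a, ha⟩ := gr_surj z⁻¹
  rw [← ha, mem_SR]
  intro ε hε
  have h2 := h1 (ε / 2) (by positivity)
  rw [← ha, mem_SR] at h2
  have h3 := h2 (ε / 2) (by positivity)
  filter_upwards [h3] with n hn
  refine hn.trans (le_of_eq ?_)
  congr 1
  ring

/-- values of polynomials at germs close to constants -/
lemma SR_aeval (hL : Tendsto L atTop atTop) {z : HR} (hz : z ∈ SR L 0) (f : F[X]) :
    aeval z f ∈ SR L 0 := by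
  rw [aeval_eq_sum_range]
  refine SR_sum hL _ _ fun i _ => ?_
  rw [smul_HR]
  have := SR_mul hL (SR_cst hL ((f.coeff i : F) : ℝ)) (SR_pow hL hz i)
  rwa [mul_zero, add_zero] at this

lemma aeval_cst (ξ : F) (f : F[X]) :
    aeval (algebraMap ℝ HR (ξ : ℝ)) f = algebraMap ℝ HR ((eval ξ f : F) : ℝ) := by
  have h1 : algebraMap ℝ HR (ξ : ℝ) = algebraMap F HR ξ := rfl
  have h2 : algebraMap ℝ HR ((eval ξ f : F) : ℝ) = algebraMap F HR (eval ξ f) := rfl
  rw [h1, h2, aeval_algebraMap_apply]
  rfl

lemma aeval_close (hL : Tendsto L atTop atTop) {z : HR} {ξ : F} {lam : ℝ} (hz : z ∈ SR L 0)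
    (h : z - algebraMap ℝ HR (ξ : ℝ) ∈ SR L lam) (f : F[X]) :
    aeval z f - algebraMap ℝ HR ((eval ξ f : F) : ℝ) ∈ SR L lam := by
  obtain ⟨g, hg⟩ := X_sub_C_dvd_sub_C_eval (a := ξ) (p := f)
  have h1 : aeval z f - algebraMap ℝ HR ((eval ξ f : F) : ℝ) =
      (z - algebraMap ℝ HR (ξ : ℝ)) * aeval z g := by
    have h2 := congrArg (aeval z) hg
    rw [map_sub, map_mul, map_sub, aeval_X, aeval_C, aeval_C] at h2
    exact h2
  rw [h1]
  have := SR_mul hL h (SR_aeval (F := F) hL hz g)
  rwa [add_zero] at this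

/-- rational polynomials -/
lemma rho_evq (r : GG) (f : ℚ[X]) : rho (evq r f) = aeval (rho r) (f.map (algebraMap ℚ F)) := by
  rw [evq_eq r f (Nat.lt_succ_self _), map_sum, aeval_eq_sum_range' (n := f.natDegree + 1)
    (lt_of_le_of_lt natDegree_map_le (Nat.lt_succ_self _))]
  refine Finset.sum_congr rfl fun i _ => ?_
  rw [map_mul, map_pow, coeff_map, smul_HR]
  congr 1
  rw [map_ratCast]
  have : (((algebraMap ℚ F (f.coeff i) : F)) : ℝ) = ((f.coeff i : ℚ) : ℝ) := by
    simp
  rw [this, map_ratCast]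

lemma gm_cst (c : ℚ) : (c : GG) = gm (fun _ => c) :=
  (map_ratCast (⟨⟨⟨fun q : ℚ => gm (fun _ => q), rfl⟩, fun _ _ => rfl⟩, rfl,
    fun _ _ => rfl⟩ : ℚ →+* GG) c).symm

/-- a germ which is algebraic over the rational numbers is constant -/
lemma const_of_alg {u : GG} {E : ℚ[X]} (hE : E ≠ 0) (h : evq u E = 0) : ∃ c : ℚ, u = (c : GG) := by
  obtain ⟨a, rfl⟩ := gm_surj u
  have h1 : evq (gm a) E = gm (fun n => eval (a n) E) := by
    rw [evq_eq _ E (Nat.lt_succ_self _)]
    have h2 : (fun n => eval (a n) E) = fun n => ∑ k ∈ Finset.range (E.natDegree + 1),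
        E.coeff k * a n ^ k := by
      funext n
      rw [eval_eq_sum_range]
    rw [h2]
    have h3 : ∀ t : Finset ℕ, ∑ k ∈ t, ((E.coeff k : ℚ) : GG) * gm a ^ k =
        gm (fun n => ∑ k ∈ t, E.coeff k * a n ^ k) := by
      intro t
      induction t using Finset.induction_on with
      | empty => simp only [Finset.sum_empty]; rfl
      | insert i t hi ih =>
        rw [Finset.sum_insert hi, ih]
        have h4 : ((E.coeff i : ℚ) : GG) * gm a ^ i = gm (fun n => E.coeff i * a n ^ i) := by
          rw [gm_cst]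
          rfl
        rw [h4, gm_add]
        congr 1
        funext n
        rw [Finset.sum_insert hi]
    exact h3 _
  rw [h1] at h
  have h2 : ∀ᶠ n in (UU : Filter ℕ), eval (a n) E = 0 := by
    rw [← gm_zero, gm_eq] at h
    exact h
  have h3 : ∀ n, (if eval (a n) E = 0 then a n else 0) ∈ insert 0 E.roots.toFinset := by
    intro n
    split_ifs with h4
    · rw [Finset.mem_insert, Multiset.mem_toFinset, mem_roots hE]
      right
      exact h4
    · exact Finset.mem_insert_self _ _
  obtain ⟨c, -, hc⟩ := Pool.Agent.H556.LG.const_of_finite _ h3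
  refine ⟨c, ?_⟩
  rw [gm_cst, gm_eq]
  filter_upwards [h2, hc] with n h6 h7
  rwa [if_pos h6] at h7

/-- the factorisation -/
lemma hensel {K : Type*} [Field K] (g : ℕ → K[X]) {a k : K[X]} (ha : a.Monic)
    (hak : IsCoprime a k) (h0 : g 0 = a * k) (M : ℕ) :
    ∃ w v : ℕ → K[X], w 0 = a ∧ v 0 = k ∧ (∀ j, 1 ≤ j → (w j).degree < a.degree) ∧
      ∀ n < M, ∑ i ∈ Finset.range (n + 1), w i * v (n - i) = g n := by
  induction M with
  | zero =>
    refine ⟨fun j => if j = 0 then a else 0, fun j => if j = 0 then k else 0, rfl, rfl, ?_, ?_⟩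
    · intro j hj
      simp only []
      rw [if_neg (by omega), degree_zero, degree_eq_natDegree ha.ne_zero]
      exact WithBot.bot_lt_coe _
    · intro n hn
      omega
  | succ M ih =>
    obtain ⟨w, v, hw0, hv0, hdeg, h⟩ := ih
    rcases Nat.eq_zero_or_pos M with hM | hM
    · subst hM
      refine ⟨w, v, hw0, hv0, hdeg, ?_⟩
      intro n hn
      have hn0 : n = 0 := by omega
      subst hn0
      rw [zero_add, Finset.sum_range_one, Nat.sub_self, hw0, hv0, h0]
    · obtain ⟨x, y, hxy⟩ := hak
      obtain ⟨N, rfl⟩ : ∃ N, M = N + 1 := ⟨M - 1, by omega⟩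
      set E : K[X] := g (N + 1) - ∑ i ∈ Finset.range N, w (i + 1) * v (N + 1 - (i + 1)) with hE
      refine ⟨Function.update w (N + 1) ((E * y) %ₘ a),
        Function.update v (N + 1) (E * x + ((E * y) /ₘ a) * k), ?_, ?_, ?_, ?_⟩
      · rw [Function.update_of_ne (by omega), hw0]
      · rw [Function.update_of_ne (by omega), hv0]
      · intro j hj
        by_cases hjN : j = N + 1
        · rw [hjN, Function.update_self]
          exact degree_modByMonic_lt _ ha
        · rw [Function.update_of_ne hjN]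
          exact hdeg j hj
      · intro n hn
        by_cases hnN : n = N + 1
        · subst hnN
          rw [Finset.sum_range_succ, Finset.sum_range_succ', Nat.sub_self, Nat.sub_zero]
          rw [Function.update_self, Function.update_self,
            Function.update_of_ne (show 0 ≠ N + 1 by omega),
            Function.update_of_ne (show 0 ≠ N + 1 by omega), hw0, hv0]
          have h1 : ∑ i ∈ Finset.range N,
              Function.update w (N + 1) ((E * y) %ₘ a) (i + 1) *
                Function.update v (N + 1) (E * x + ((E * y) /ₘ a) * k) (N + 1 - (i + 1)) =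
              ∑ i ∈ Finset.range N, w (i + 1) * v (N + 1 - (i + 1)) := by
            refine Finset.sum_congr rfl fun i hi => ?_
            have := Finset.mem_range.1 hi
            rw [Function.update_of_ne (by omega), Function.update_of_ne (by omega)]
          rw [h1]
          have h2 := modByMonic_add_div (E * y) a
          have h3 : g (N + 1) = E + ∑ i ∈ Finset.range N, w (i + 1) * v (N + 1 - (i + 1)) := by
            rw [hE]; ring
          rw [h3]
          have h4 : (E * y) %ₘ a = E * y - a * ((E * y) /ₘ a) := by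
            rw [eq_sub_iff_add_eq]; exact h2
          rw [h4]
          linear_combination E * hxy
        · rw [← h n (by omega)]
          refine Finset.sum_congr rfl fun i hi => ?_
          have := Finset.mem_range.1 hi
          rw [Function.update_of_ne (by omega), Function.update_of_ne (by omega)]

/-- relations, ordered by the powers of the second variable -/
lemma swap {n : ℕ} {u r : GG} (h : PInd n u r) (J : ℕ) (g : ℕ → ℚ[X])
    (hdeg : ∀ j < J, (g j).degree < n) (hg : ∑ j ∈ Finset.range J, evq r (g j) * u ^ j = 0) :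
    ∀ j < J, g j = 0 := by
  set E : Fin n → ℚ[X] := fun b => ∑ j ∈ Finset.range J, C ((g j).coeff b) * X ^ j with hE
  have hev : ∀ j < J, evq r (g j) = ∑ b : Fin n, (((g j).coeff b : ℚ) : GG) * r ^ (b : ℕ) := by
    intro j hj
    by_cases h0 : g j = 0
    · rw [h0, map_zero]
      simp
    · rw [Fin.sum_univ_eq_sum_range (fun b => (((g j).coeff b : ℚ) : GG) * r ^ b)]
      apply evq_eq
      have := hdeg j hj
      rw [degree_eq_natDegree h0] at this
      exact_mod_cast this
  have h1 : ∑ b, evq u (E b) * r ^ (b : ℕ) = 0 := by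
    rw [← hg]
    have h2 : ∀ b, evq u (E b) * r ^ (b : ℕ) = ∑ j ∈ Finset.range J,
        (((g j).coeff b : ℚ) : GG) * u ^ j * r ^ (b : ℕ) := by
      intro b
      rw [hE]
      simp only []
      rw [map_sum, Finset.sum_mul]
      refine Finset.sum_congr rfl fun j _ => ?_
      rw [map_mul, map_pow, evq_X, evq_C]
    simp_rw [h2]
    rw [Finset.sum_comm]
    refine Finset.sum_congr rfl fun j hj => ?_
    rw [hev j (Finset.mem_range.1 hj), Finset.sum_mul]
    refine Finset.sum_congr rfl fun b _ => ?_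
    ring
  have h2 := h E h1
  intro j hj
  ext b
  rw [coeff_zero]
  by_cases hb : b < n
  · have h3 := congrArg (fun f : ℚ[X] => f.coeff j) (h2 ⟨b, hb⟩)
    rw [hE] at h3
    simp only [finset_sum_coeff, coeff_C_mul, coeff_X_pow, coeff_zero, mul_ite, mul_one,
      mul_zero] at h3
    rw [Finset.sum_ite_eq, if_pos (Finset.mem_range.2 hj)] at h3
    exact h3
  · apply coeff_eq_zero_of_degree_lt
    refine lt_of_lt_of_le (hdeg j hj) ?_
    exact_mod_cast Nat.le_of_not_lt hb

/-- a relation, ordered by the powers of the second variable -/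
lemma exists_rel {n : ℕ} {u r : GG} (h : ¬ PInd n u r) : ∃ (J : ℕ) (g : ℕ → ℚ[X]),
    (∀ j, (g j).degree < n) ∧ g J ≠ 0 ∧ ∑ j ∈ Finset.range (J + 1), evq r (g j) * u ^ j = 0 := by
  classical
  unfold PInd at h
  push Not at h
  obtain ⟨E, hE, b0, hb0⟩ := h
  set J0 : ℕ := Finset.univ.sup fun b => (E b).natDegree with hJ0
  have hle : ∀ b, (E b).natDegree ≤ J0 := fun b =>
    Finset.le_sup (f := fun b => (E b).natDegree) (Finset.mem_univ b)
  set g : ℕ → ℚ[X] := fun j => ∑ b : Fin n, C ((E b).coeff j) * X ^ (b : ℕ) with hg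
  have hdeg : ∀ j, (g j).degree < n := by
    intro j
    refine lt_of_le_of_lt (degree_sum_le _ _) ?_
    refine (Finset.sup_lt_iff (WithBot.bot_lt_coe n)).2 ?_
    intro b _
    refine lt_of_le_of_lt (degree_C_mul_X_pow_le _ _) ?_
    exact WithBot.coe_lt_coe.2 b.2
  have hcoef : ∀ j (b : Fin n), (g j).coeff b = (E b).coeff j := by
    intro j b
    rw [hg]
    simp only [finset_sum_coeff, coeff_C_mul, coeff_X_pow, mul_ite, mul_one, mul_zero]
    rw [Finset.sum_eq_single b]
    · rw [if_pos rfl]
    · intro b' _ hne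
      rw [if_neg]
      intro h
      exact hne (Fin.ext h.symm)
    · intro h
      exact absurd (Finset.mem_univ _) h
  have hsum : ∀ N, J0 < N → ∑ j ∈ Finset.range N, evq r (g j) * u ^ j = 0 := by
    intro N hN
    rw [← hE]
    have h2 : ∀ b, evq u (E b) * r ^ (b : ℕ) = ∑ j ∈ Finset.range N,
        (((E b).coeff j : ℚ) : GG) * u ^ j * r ^ (b : ℕ) := by
      intro b
      rw [evq_eq u (E b) (n := N) (lt_of_le_of_lt (hle b) hN), Finset.sum_mul]
    simp_rw [h2]
    rw [Finset.sum_comm]
    refine Finset.sum_congr rfl fun j hj => ?_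
    rw [hg]
    simp only []
    rw [map_sum, Finset.sum_mul]
    refine Finset.sum_congr rfl fun b _ => ?_
    rw [map_mul, map_pow, evq_X, evq_C]
    ring
  -- the last nonzero coefficient
  have hex : ∃ j, g j ≠ 0 := by
    refine ⟨(E b0).natDegree, fun h => ?_⟩
    have h1 := hcoef (E b0).natDegree b0
    rw [h, coeff_zero] at h1
    exact hb0 (leadingCoeff_eq_zero.1 h1.symm)
  have hfin : ∀ j, J0 < j → g j = 0 := by
    intro j hj
    rw [hg]
    simp only []
    apply Finset.sum_eq_zero
    intro b _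
    rw [coeff_eq_zero_of_natDegree_lt (lt_of_le_of_lt (hle b) hj), C_0, zero_mul]
  set J := Nat.findGreatest (fun j => g j ≠ 0) J0 with hJ
  obtain ⟨j1, hj1⟩ := hex
  have hj1' : j1 ≤ J0 := by
    by_contra hc
    exact hj1 (hfin j1 (by omega))
  have hJ1 : g J ≠ 0 := Nat.findGreatest_spec (P := fun j => g j ≠ 0) hj1' hj1
  refine ⟨J, g, hdeg, hJ1, ?_⟩
  have h3 := hsum (J0 + 1) (Nat.lt_succ_self _)
  have h4 : J + 1 ≤ J0 + 1 := Nat.succ_le_succ (Nat.findGreatest_le _)
  rw [← Finset.sum_range_add_sum_Ico _ h4] at h3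
  rw [Finset.sum_eq_zero (s := Finset.Ico (J + 1) (J0 + 1)), add_zero] at h3
  · exact h3
  · intro j hj
    rw [Finset.mem_Ico] at hj
    have h5 : g j = 0 := by
      by_contra hc
      have := Nat.le_findGreatest (P := fun j => g j ≠ 0) (show j ≤ J0 by omega) hc
      omega
    rw [h5, map_zero, zero_mul]

end Pool.Agent.H556.RT
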