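import Mathlib
import Pool.Agent.H556.RT.B0

/-!
# The case with a relation: preparations
-/

set_option autoImplicit false

namespace Pool.Agent.H556.RT

open Filter Topology Pool.Agent.TH932.Abs Pool.Agent.TH932.Germs Pool.Agent.TH932.Chi
open Pool.Agent.TH796.AL Polynomial

variable {s : ℕ} {B0 : Base s} {L : ℕ → ℝ} {F : IntermediateField ℚ ℝ}

lemma r_ne (hL : Tendsto L atTop atTop) {ξ : F} (hirr : Irrational (ξ : ℝ)) {r : GG} {lam : ℝ}
    (hlam : 0 < lam) (hcl : rho r - algebraMap ℝ HR (ξ : ℝ) ∈ SR L lam) (c : ℚ) :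
    r ≠ (c : GG) := by
  rintro rfl
  have h1 : rho (c : GG) = algebraMap ℝ HR (c : ℝ) := by rw [map_ratCast, map_ratCast]
  rw [h1, ← map_sub] at hcl
  have h2 := cst_small hL hlam hcl
  exact hirr ⟨c, by linarith⟩

/-- some coefficient does not vanish at the algebraic number -/
lemma exists_coeff [FiniteDimensional ℚ F] {D0 : ℕ} {u r : GG} (hP : PInd D0 u r) {ξ : F}
    {J : ℕ} {g : ℕ → ℚ[X]} (hdeg : ∀ j, (g j).degree < ((D0 + 1 : ℕ) : WithBot ℕ)) (hgJ : g J ≠ 0)
    (hrel : ∑ j ∈ Finset.range (J + 1), evq r (g j) * u ^ j = 0) (hr : ∀ c : ℚ, r ≠ (c : GG)) :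
    ∃ j ≤ J, eval ξ ((g j).map (algebraMap ℚ F)) ≠ 0 := by
  by_contra hcon
  push Not at hcon
  have hint : IsIntegral ℚ ξ := IsIntegral.of_finite ℚ ξ
  set m := minpoly ℚ ξ with hm
  have hm0 : m ≠ 0 := minpoly.ne_zero hint
  have hm1 : 0 < m.natDegree := minpoly.natDegree_pos hint
  have hdvd : ∀ j, ∃ h : ℚ[X], j ≤ J → g j = m * h := by
    intro j
    by_cases hj : j ≤ J
    · have h1 := hcon j hj
      rw [eval_map_algebraMap] at h1
      obtain ⟨h, hh⟩ := minpoly.dvd ℚ ξ h1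
      exact ⟨h, fun _ => hh⟩
    · exact ⟨0, fun h => absurd h hj⟩
  choose h hh using hdvd
  have hmr : evq r m ≠ 0 := by
    intro h0
    obtain ⟨c, hc⟩ := const_of_alg hm0 h0
    exact hr c hc
  have h1 : ∑ j ∈ Finset.range (J + 1), evq r (h j) * u ^ j = 0 := by
    have h2 : evq r m * ∑ j ∈ Finset.range (J + 1), evq r (h j) * u ^ j = 0 := by
      rw [← hrel, Finset.mul_sum]
      refine Finset.sum_congr rfl fun j hj => ?_
      rw [hh j (by have := Finset.mem_range.1 hj; omega), map_mul]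
      ring
    exact (mul_eq_zero.1 h2).resolve_left hmr
  have h2 := swap hP (J + 1) h ?_ h1 J (Nat.lt_succ_self _)
  · apply hgJ
    rw [hh J le_rfl, h2, mul_zero]
  · intro j hj
    by_cases h0 : h j = 0
    · rw [h0, degree_zero]
      exact WithBot.bot_lt_coe _
    · have h3 := hdeg j
      rw [hh j (by omega), degree_mul, degree_eq_natDegree hm0, degree_eq_natDegree h0] at h3
      rw [degree_eq_natDegree h0]
      have h4 : m.natDegree + (h j).natDegree < D0 + 1 := by exact_mod_cast h3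
      have h5 : (h j).natDegree < D0 := by omega
      exact_mod_cast h5

lemma qind_pow {u r : GG} (h : PInd 1 u r) (n : ℕ) : QInd (fun j : Fin n => u ^ (j : ℕ)) := by
  have h1 := qind_of (I := 0) h (fun _ : Fin n => 0) (fun j : Fin n => (j : ℕ)) ?_
    (fun _ => le_rfl) (fun _ => 1) (fun _ => one_ne_zero) (c := 1) one_ne_zero
  · convert h1 using 2
    rw [Nat.sub_zero, pow_zero, map_one, one_mul, one_mul, one_mul]
  · intro i j hij
    simp only [Prod.mk.injEq, true_and] at hij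
    exact Fin.ext hij

/-- the case in which `u` has size one -/
theorem caseB0 (hL : Tendsto L atTop atTop) [FiniteDimensional ℚ F] {ξ : F}
    (hirr : Irrational (ξ : ℝ)) {r u : GG} (τ : Option (Fin s) → ℝ) {lam : ℝ} (hlam : 0 < lam)
    (huv : ∀ v, u ∈ Sv B0 L v (τ v)) (hrn : r ∈ Sv B0 L none 0)
    (hcl : rho r - algebraMap ℝ HR (ξ : ℝ) ∈ SR L lam) (hτ : ∑ v, τ v = 0) (hτn : τ none = 0)
    (h3 : Sint B0 L u) {D0 : ℕ} (hD : 1 ≤ D0) (hmin : ∀ n ≤ D0, PInd n u r)
    {J : ℕ} {g : ℕ → ℚ[X]} (hdeg : ∀ j, (g j).degree < ((D0 + 1 : ℕ) : WithBot ℕ)) (hgJ : g J ≠ 0)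
    (hrel : ∑ j ∈ Finset.range (J + 1), evq r (g j) * u ^ j = 0) : False := by
  classical
  obtain ⟨j0, hj0, hne⟩ := exists_coeff (hmin D0 le_rfl) (ξ := ξ) hdeg hgJ hrel
    (r_ne hL hirr hlam hcl)
  set c : ℕ → F := fun j => eval ξ ((g j).map (algebraMap ℚ F)) with hc
  set ℓ : HR := ∑ j ∈ Finset.range (J + 1), algebraMap ℝ HR (c j : ℝ) * rho u ^ j with hℓ
  have hR0 : rho r ∈ SR L 0 := SR_rho hrn
  have hU0 : rho u ∈ SR L 0 := by
    have := SR_rho (huv none)
    rwa [hτn] at this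
  have hℓs : ℓ ∈ SR L lam := by
    have h4 : ℓ = ∑ j ∈ Finset.range (J + 1), algebraMap ℝ HR (-1) *
        ((aeval (rho r) ((g j).map (algebraMap ℚ F)) - algebraMap ℝ HR (c j : ℝ)) *
          rho u ^ j) := by
      have h5 : rho (∑ j ∈ Finset.range (J + 1), evq r (g j) * u ^ j) = 0 := by
        rw [hrel, map_zero]
      rw [map_sum] at h5
      have h6 : ∑ j ∈ Finset.range (J + 1), aeval (rho r) ((g j).map (algebraMap ℚ F)) *
          rho u ^ j = 0 := by
        rw [← h5]
        refine Finset.sum_congr rfl fun j _ => ?_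
        rw [map_mul, map_pow, rho_evq (F := F)]
      rw [← Finset.mul_sum]
      simp_rw [sub_mul]
      rw [Finset.sum_sub_distrib, h6, map_neg, map_one, hℓ]
      ring
    rw [h4]
    refine SR_sum hL _ _ fun j _ => ?_
    have h5 := SR_mul hL (SR_cst hL (-1)) (SR_mul hL (aeval_close hL hR0 hcl
      ((g j).map (algebraMap ℚ F))) (SR_pow hL hU0 j))
    rw [mul_zero, add_zero, zero_add] at h5
    exact h5
  have hj0' : j0 < J + 1 := by omega
  have key := fixA' (B0 := B0) hL (F := F) (fun j : Fin (J + 1) => u ^ (j : ℕ))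
    (fun j : Fin (J + 1) => if (j : ℕ) = j0 then ℓ else rho (u ^ (j : ℕ)))
    (fun v j => (j : ℕ) * τ (some v)) (fun j => if (j : ℕ) = j0 then lam else 0)
    (qind_pow (hmin 1 hD) _) ?_ ?_ ?_ ?_ ?_
  · have h4 : ∑ v : Fin s, ∑ j : Fin (J + 1), ((j : ℕ) : ℝ) * τ (some v) = 0 := by
      rw [Finset.sum_comm]
      apply Finset.sum_eq_zero
      intro j _
      rw [← Finset.mul_sum]
      rw [Fintype.sum_option, hτn, zero_add] at hτ
      rw [hτ, mul_zero]
    rw [h4, zero_add] at key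
    have h5 : ∑ j : Fin (J + 1), (if (j : ℕ) = j0 then lam else 0) = lam := by
      rw [Finset.sum_eq_single (⟨j0, hj0'⟩ : Fin (J + 1))]
      · rw [if_pos rfl]
      · intro j _ hne
        rw [if_neg]
        intro h
        exact hne (Fin.ext h)
      · intro h
        exact absurd (Finset.mem_univ _) h
    rw [h5] at key
    linarith
  · -- the coordinates from the forms
    intro i
    set S := Submodule.span F (Set.range
      (fun j : Fin (J + 1) => if (j : ℕ) = j0 then ℓ else rho (u ^ (j : ℕ)))) with hS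
    have h4 : ∀ j : Fin (J + 1), (j : ℕ) ≠ j0 → rho (u ^ (j : ℕ)) ∈ S := by
      intro j hj
      refine Submodule.subset_span ⟨j, ?_⟩
      simp only []
      rw [if_neg hj]
    by_cases hi : (i : ℕ) = j0
    · have h5 : ℓ ∈ S := Submodule.subset_span ⟨⟨j0, hj0'⟩, if_pos rfl⟩
      have h6 : rho (u ^ (i : ℕ)) = algebraMap ℝ HR (((c j0)⁻¹ : F) : ℝ) *
          (ℓ - ∑ j ∈ (Finset.range (J + 1)).erase j0, algebraMap ℝ HR (c j : ℝ) * rho u ^ j) := by
        rw [hℓ, ← Finset.add_sum_erase _ _ (Finset.mem_range.2 hj0'), add_sub_cancel_right,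
          ← mul_assoc, ← map_mul, hi, map_pow]
        have h7 : (((c j0)⁻¹ : F) : ℝ) * (c j0 : ℝ) = 1 := by
          have : (((c j0)⁻¹ * c j0 : F) : ℝ) = 1 := by
            rw [inv_mul_cancel₀ hne]
            rfl
          simpa using this
        rw [h7, map_one, one_mul]
      rw [h6]
      refine mem_cst (Submodule.sub_mem _ h5 (Submodule.sum_mem _ fun j hj => ?_))
        ((c j0)⁻¹ : F).2
      rw [Finset.mem_erase, Finset.mem_range] at hj
      refine mem_cst ?_ (c j).2
      rw [← map_pow]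
      exact h4 ⟨j, hj.2⟩ hj.1
    · exact h4 i hi
  · intro i
    split_ifs with hi
    · rw [hℓ]
      refine Submodule.sum_mem _ fun j hj => ?_
      refine mem_cst ?_ (c j).2
      rw [← map_pow]
      exact Submodule.subset_span ⟨⟨j, Finset.mem_range.1 hj⟩, rfl⟩
    · exact Submodule.subset_span ⟨i, rfl⟩
  · intro v i
    exact Sv_pow hL (huv (some v)) i
  · intro i
    split_ifs with hi
    · exact hℓs
    · rw [map_pow]
      have := SR_pow hL hU0 i
      rwa [mul_zero] at this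
  · intro i
    exact LG.Sint_pow hL h3 i

/-- the multiplicity is smaller than the degree -/
lemma mult_lt {D0 : ℕ} (hD : 1 ≤ D0) {ξ : F} (hirr : Irrational (ξ : ℝ)) {g : ℚ[X]} (hg : g ≠ 0)
    (hdeg : g.degree < ((D0 + 1 : ℕ) : WithBot ℕ)) {e : ℕ} {k : F[X]}
    (h : g.map (algebraMap ℚ F) = (X - C ξ) ^ e * k) : e < D0 := by
  by_contra hcon
  push Not at hcon
  have hgn : g.natDegree ≤ D0 := by
    rw [degree_eq_natDegree hg] at hdeg
    have : g.natDegree < D0 + 1 := by exact_mod_cast hdeg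
    omega
  have hg' : g.map (algebraMap ℚ F) ≠ 0 := by
    rw [Ne, Polynomial.map_eq_zero]
    exact hg
  have hk : k ≠ 0 := by
    rintro rfl
    rw [mul_zero] at h
    exact hg' h
  have h1 := congrArg natDegree h
  rw [natDegree_map, natDegree_mul (pow_ne_zero _ (X_sub_C_ne_zero ξ)) hk,
    natDegree_pow, natDegree_X_sub_C, mul_one] at h1
  have he : e = D0 := by omega
  have hk0 : k.natDegree = 0 := by omega
  rw [natDegree_eq_zero] at hk0
  obtain ⟨c, rfl⟩ := hk0
  subst he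
  have hc : c ≠ 0 := fun h => hk (by rw [h, C_0])
  have h2 := congrArg (fun f : F[X] => f.coeff e) h
  have h3 := congrArg (fun f : F[X] => f.coeff (e - 1)) h
  have hXC : (X - C ξ : F[X]) = X + C (-ξ) := by rw [C_neg, sub_eq_add_neg]
  simp only [coeff_map, coeff_mul_C, hXC, coeff_X_add_C_pow] at h2 h3
  rw [Nat.sub_self, pow_zero, Nat.choose_self, Nat.cast_one, one_mul, one_mul] at h2
  have h4 : e - (e - 1) = 1 := by omega
  have h5 : e.choose (e - 1) = e := by
    rw [← Nat.choose_symm (by omega : e - 1 ≤ e), h4, Nat.choose_one_right]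
  rw [h4, h5, pow_one] at h3
  have h2' : ((g.coeff e : ℚ) : ℝ) = (c : ℝ) := by
    have := congrArg (fun x : F => (x : ℝ)) h2
    simpa using this
  have h3' : ((g.coeff (e - 1) : ℚ) : ℝ) = -(ξ : ℝ) * (e : ℝ) * (c : ℝ) := by
    have := congrArg (fun x : F => (x : ℝ)) h3
    simpa using this
  have hc' : ((g.coeff e : ℚ) : ℝ) ≠ 0 := by
    rw [h2']
    intro h6
    apply hc
    exact_mod_cast h6
  have he' : (e : ℝ) ≠ 0 := by
    have : e ≠ 0 := by omega
    exact_mod_cast this
  apply hirr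
  refine ⟨-(g.coeff (e - 1) / (e * g.coeff e)), ?_⟩
  push_cast
  rw [h3', ← h2']
  field_simp

end Pool.Agent.H556.RT
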