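import Mathlib
import Pool.Agent.H556.RT.B1

/-!
# The case with a relation
-/

set_option autoImplicit false

namespace Pool.Agent.H556.RT

open Filter Topology Pool.Agent.TH932.Abs Pool.Agent.TH932.Germs Pool.Agent.TH932.Chi
open Pool.Agent.TH796.AL Polynomial

variable {s : ℕ} {B0 : Base s} {L : ℕ → ℝ} {F : IntermediateField ℚ ℝ}

/-- a truncated series at a germ -/
noncomputable def ser (R T : HR) (w : ℕ → F[X]) (M : ℕ) : HR :=
  ∑ j ∈ Finset.range M, aeval R (w j) * T ^ j

lemma ser_mul (hL : Tendsto L atTop atTop) {R T : HR} {t : ℝ} (ht : 0 ≤ t) (hR : R ∈ SR L 0)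
    (hT : T ∈ SR L t) (w v : ℕ → F[X]) (g : ℕ → F[X]) (M : ℕ)
    (h : ∀ n < M, ∑ i ∈ Finset.range (n + 1), w i * v (n - i) = g n)
    (hg : ∑ n ∈ Finset.range M, aeval R (g n) * T ^ n = 0) :
    ser R T w M * ser R T v M ∈ SR L (M * t) := by
  have h1 : ser R T w M * ser R T v M =
      ∑ i ∈ Finset.range M, ∑ j ∈ Finset.Ico (M - i) M,
        aeval R (w i) * aeval R (v j) * T ^ (i + j) := by
    have h2 : ser R T w M * ser R T v M = ∑ i ∈ Finset.range M, ∑ j ∈ Finset.range M,
        aeval R (w i) * aeval R (v j) * T ^ (i + j) := by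
      unfold ser
      rw [Finset.sum_mul_sum]
      refine Finset.sum_congr rfl fun i _ => Finset.sum_congr rfl fun j _ => ?_
      rw [pow_add]
      ring
    have h3 : ∑ i ∈ Finset.range M, ∑ j ∈ Finset.range (M - i),
        aeval R (w i) * aeval R (v j) * T ^ (i + j) = 0 := by
      rw [← Finset.sum_range_diag_flip M
        (fun i j => aeval R (w i) * aeval R (v j) * T ^ (i + j)), ← hg]
      refine Finset.sum_congr rfl fun n hn => ?_
      rw [← h n (Finset.mem_range.1 hn), map_sum, Finset.sum_mul]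
      refine Finset.sum_congr rfl fun i hi => ?_
      have := Finset.mem_range.1 hi
      rw [map_mul, show i + (n - i) = n by omega]
    rw [h2, ← sub_zero (∑ i ∈ Finset.range M, ∑ j ∈ Finset.range M,
        aeval R (w i) * aeval R (v j) * T ^ (i + j)), ← h3, ← Finset.sum_sub_distrib]
    refine Finset.sum_congr rfl fun i hi => ?_
    have hi' : M - i ≤ M := Nat.sub_le _ _
    rw [← Finset.sum_range_add_sum_Ico _ hi', add_sub_cancel_left]
  rw [h1]
  refine SR_sum hL _ _ fun i hi => SR_sum hL _ _ fun j hj => ?_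
  have h2 := SR_mul hL (SR_mul hL (SR_aeval (F := F) hL hR (w i)) (SR_aeval (F := F) hL hR (v j)))
    (SR_pow hL hT (i + j))
  refine SR_anti hL ?_ h2
  rw [zero_add, zero_add]
  rw [Finset.mem_Ico] at hj
  apply mul_le_mul_of_nonneg_right _ ht
  exact_mod_cast (by omega : M ≤ i + j)

lemma ser_close (hL : Tendsto L atTop atTop) {R T : HR} {ξ : F} {lam t : ℝ} (ht : 0 < t)
    (hR : R ∈ SR L 0) (hcl : R - algebraMap ℝ HR (ξ : ℝ) ∈ SR L lam)
    (hT : T ∈ SR L t) (v : ℕ → F[X]) (M : ℕ) :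
    ser R T v (M + 1) - algebraMap ℝ HR ((eval ξ (v 0) : F) : ℝ) ∈ SR L (min lam t) := by
  unfold ser
  rw [Finset.sum_range_succ', pow_zero, mul_one, add_sub_assoc]
  refine SR_add hL (SR_sum hL _ _ fun j _ => ?_)
    (SR_anti hL (min_le_left _ _) (aeval_close hL hR hcl (v 0)))
  have h1 := SR_mul hL (SR_aeval (F := F) hL hR (v (j + 1))) (SR_pow hL hT (j + 1))
  refine SR_anti hL ((min_le_right _ _).trans ?_) h1
  push_cast
  nlinarith [Nat.cast_nonneg (α := ℝ) j]

lemma aeval_sum_lt {R : HR} {f : F[X]} {n : ℕ} (hn : f.degree < n) :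
    aeval R f = ∑ l ∈ Finset.range n, algebraMap ℝ HR ((f.coeff l : F) : ℝ) * R ^ l := by
  by_cases h0 : f = 0
  · subst h0
    simp
  · rw [degree_eq_natDegree h0] at hn
    have hn' : f.natDegree < n := by exact_mod_cast hn
    rw [aeval_eq_sum_range' hn']
    refine Finset.sum_congr rfl fun l _ => ?_
    rw [smul_HR]

/-- the number of special indices -/
lemma count_ge (D0 e M : ℕ) (he : e < D0) {c : ℝ} (hc : 0 ≤ c) :
    M * c ≤ ∑ p : Fin D0 × Fin (2 * M), (if e ≤ (p.1 : ℕ) ∧ M ≤ (p.2 : ℕ) then c else 0) := by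
  rw [Fintype.sum_prod_type]
  have h1 : ∀ i : Fin D0, 0 ≤ ∑ k : Fin (2 * M),
      (if e ≤ (i : ℕ) ∧ M ≤ (k : ℕ) then c else 0) := fun i =>
    Finset.sum_nonneg fun k _ => by split_ifs <;> simp [hc]
  refine le_trans (le_of_eq ?_) (Finset.single_le_sum (fun i _ => h1 i)
    (Finset.mem_univ (⟨D0 - 1, by omega⟩ : Fin D0)))
  have h2 : ∀ k : Fin (2 * M), (if e ≤ ((⟨D0 - 1, by omega⟩ : Fin D0) : ℕ) ∧ M ≤ (k : ℕ)
      then c else 0) = if M ≤ (k : ℕ) then c else 0 := by
    intro k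
    have : e ≤ D0 - 1 := by omega
    simp [this]
  simp_rw [h2]
  rw [Fin.sum_univ_eq_sum_range (fun k => if M ≤ k then c else 0) (2 * M), Finset.sum_ite,
    Finset.sum_const_zero, add_zero, Finset.sum_const, nsmul_eq_mul]
  have h3 : (Finset.range (2 * M)).filter (fun k => M ≤ k) = Finset.Ico M (2 * M) := by
    ext k
    simp only [Finset.mem_filter, Finset.mem_range, Finset.mem_Ico]
    omega
  rw [h3, Nat.card_Ico, show 2 * M - M = M by omega]

/-- the case in which `u` is large -/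
theorem caseB1 (hL : Tendsto L atTop atTop) [FiniteDimensional ℚ F] {ξ : F}
    (hirr : Irrational (ξ : ℝ)) {q r u : GG} (hq0 : q ≠ 0) (hu0 : u ≠ 0)
    (κ κ' : Fin s → ℝ) (hκ : ∀ v, 0 ≤ κ v) (hκ' : ∀ v, 0 ≤ κ' v)
    (τ : Option (Fin s) → ℝ) {lam : ℝ} (hlam : 0 < lam)
    (hqv : ∀ v, q ∈ Sv B0 L (some v) (κ v)) (hpv : ∀ v, r * q ∈ Sv B0 L (some v) (κ' v))
    (huv : ∀ v, u ∈ Sv B0 L v (τ v)) (hui : u⁻¹ ∈ Sv B0 L none (-τ none))
    (hqn : q ∈ Sv B0 L none (-1)) (hrn : r ∈ Sv B0 L none 0)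
    (hcl : rho r - algebraMap ℝ HR (ξ : ℝ) ∈ SR L lam) (hτ : ∑ v, τ v = 0) (hτn : τ none < 0)
    (h1 : Sint B0 L q) (h2 : Sint B0 L (r * q)) (h3 : Sint B0 L u) {D0 : ℕ} (hD : 1 ≤ D0)
    (hmin : PInd D0 u r)
    {J : ℕ} {g : ℕ → ℚ[X]} (hdeg : ∀ j, (g j).degree < ((D0 + 1 : ℕ) : WithBot ℕ)) (hgJ : g J ≠ 0)
    (hrel : ∑ j ∈ Finset.range (J + 1), evq r (g j) * u ^ j = 0) : False := by
  classical
  set t : ℝ := -τ none with ht
  have ht0 : 0 < t := by rw [ht]; linarith
  set R : HR := rho r with hR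
  set T : HR := (rho u)⁻¹ with hT
  have hUne : rho u ≠ 0 := by
    rw [Ne, map_eq_zero]
    exact hu0
  have hR0 : R ∈ SR L 0 := SR_rho hrn
  have hTt : T ∈ SR L t := by
    have := SR_rho hui
    rwa [map_inv₀] at this
  -- the factorisation
  have hgJ' : (g J).map (algebraMap ℚ F) ≠ 0 := by
    rw [Ne, Polynomial.map_eq_zero]
    exact hgJ
  obtain ⟨k, hk, hkn⟩ := exists_eq_pow_rootMultiplicity_mul_and_not_dvd _ hgJ' ξ
  set e : ℕ := rootMultiplicity ξ ((g J).map (algebraMap ℚ F)) with he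
  have heD : e < D0 := mult_lt hD hirr hgJ (hdeg J) hk
  have hkξ : eval ξ k ≠ 0 := fun h => hkn (dvd_iff_isRoot.2 h)
  have hmon : ((X - C ξ : F[X]) ^ e).Monic := (monic_X_sub_C ξ).pow e
  have hcop : IsCoprime ((X - C ξ : F[X]) ^ e) k :=
    IsCoprime.pow_left (((irreducible_X_sub_C ξ).coprime_iff_not_dvd).2 hkn)
  -- the parameter
  obtain ⟨M1, hM1⟩ := exists_nat_gt (2 * (D0 : ℝ) ^ 2 / t)
  set M : ℕ := max M1 (J + 1) + 1 with hM
  have hMJ : J < M := by
    have := le_max_right M1 (J + 1)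
    omega
  have hM0 : 0 < M := by omega
  have hMt : 2 * (D0 : ℝ) ^ 2 < M * t := by
    rw [div_lt_iff₀ ht0] at hM1
    have h4 : (M1 : ℝ) ≤ M := by
      have : M1 ≤ M := by
        have := le_max_left M1 (J + 1)
        omega
      exact_mod_cast this
    nlinarith
  set gt : ℕ → F[X] := fun n => if n ≤ J then (g (J - n)).map (algebraMap ℚ F) else 0 with hgt
  obtain ⟨w, v, hw0, hv0, hwdeg, hwv⟩ := hensel gt hmon hcop (by
    rw [hgt]
    simp only [Nat.zero_le, if_true, Nat.sub_zero]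
    exact hk) M
  -- the relation
  have hgt0 : ∑ n ∈ Finset.range M, aeval R (gt n) * T ^ n = 0 := by
    rw [← Finset.sum_range_add_sum_Ico _ (show J + 1 ≤ M by omega)]
    have h4 : ∑ n ∈ Finset.Ico (J + 1) M, aeval R (gt n) * T ^ n = 0 := by
      apply Finset.sum_eq_zero
      intro n hn
      rw [Finset.mem_Ico] at hn
      rw [hgt]
      simp only []
      rw [if_neg (by omega), map_zero, zero_mul]
    rw [h4, add_zero]
    have h5 : ∑ n ∈ Finset.range (J + 1), aeval R (gt n) * T ^ n =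
        T ^ J * ∑ j ∈ Finset.range (J + 1), aeval R ((g j).map (algebraMap ℚ F)) *
          rho u ^ j := by
      rw [← Finset.sum_range_reflect, Finset.mul_sum]
      refine Finset.sum_congr rfl fun j hj => ?_
      have hj' := Finset.mem_range.1 hj
      rw [hgt]
      simp only []
      rw [if_pos (by omega), show J - (J + 1 - 1 - j) = j by omega,
        show J + 1 - 1 - j = J - j by omega]
      have h6 : T ^ J = T ^ (J - j) * T ^ j := by
        rw [← pow_add]
        congr 1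
        omega
      have h7 : T ^ j * rho u ^ j = 1 := by
        rw [← mul_pow, hT, inv_mul_cancel₀ hUne, one_pow]
      rw [h6]
      linear_combination (-(aeval R ((g j).map (algebraMap ℚ F)) * T ^ (J - j))) * h7
    rw [h5]
    have h6 : ∑ j ∈ Finset.range (J + 1), aeval R ((g j).map (algebraMap ℚ F)) *
        rho u ^ j = 0 := by
      have h7 : rho (∑ j ∈ Finset.range (J + 1), evq r (g j) * u ^ j) = 0 := by
        rw [hrel, map_zero]
      rw [map_sum] at h7
      rw [← h7]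
      refine Finset.sum_congr rfl fun j _ => ?_
      rw [map_mul, map_pow, rho_evq (F := F)]
    rw [h6, mul_zero]
  set W : HR := ser R T w M with hW
  set V : HR := ser R T v M with hV
  have hWV : W * V ∈ SR L (M * t) := ser_mul hL ht0.le hR0 hTt w v gt M hwv hgt0
  have hVi : V⁻¹ ∈ SR L 0 := by
    refine inv_cst hL (t := min lam t) (c := ((eval ξ (v 0) : F) : ℝ)) (lt_min hlam ht0) ?_ ?_
    · rw [hv0]
      intro h
      exact hkξ (by exact_mod_cast h)
    · rw [hV]
      exact ser_close hL ht0 hR0 hcl hTt v _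
  have hV0 : V ≠ 0 := by
    intro h
    have h4 : V - algebraMap ℝ HR ((eval ξ (v 0) : F) : ℝ) ∈ SR L (min lam t) :=
      ser_close hL ht0 hR0 hcl hTt v _
    rw [h, zero_sub, ← map_neg] at h4
    have h5 := cst_small hL (lt_min hlam ht0) h4
    rw [neg_eq_zero, hv0] at h5
    exact hkξ (by exact_mod_cast h5)
  have hWs : W ∈ SR L (M * t) := by
    have h4 := SR_mul hL hWV hVi
    rwa [add_zero, mul_assoc, mul_inv_cancel₀ hV0, mul_one] at h4
  -- the reduced series
  set w' : ℕ → F[X] := fun j => w j - if j = 0 then X ^ e else 0 with hw'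
  have hw'deg : ∀ j, (w' j).degree < (e : WithBot ℕ) := by
    intro j
    rw [hw']
    simp only []
    have h4 : ((X - C ξ : F[X]) ^ e).degree = (e : WithBot ℕ) := by
      rw [degree_pow, degree_X_sub_C]
      simp
    split_ifs with hj
    · rw [hj, hw0]
      rw [← h4]
      apply degree_sub_lt
      · rw [h4, degree_X_pow]
      · exact hmon.ne_zero
      · rw [hmon.leadingCoeff, leadingCoeff_X_pow]
    · rw [sub_zero, ← h4]
      exact hwdeg j (by omega)
  have hWe : W = R ^ e + ∑ j ∈ Finset.range M, aeval R (w' j) * T ^ j := by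
    rw [hW, hw']
    unfold ser
    simp only [map_sub, sub_mul]
    rw [Finset.sum_sub_distrib]
    have h4 : ∑ j ∈ Finset.range M, aeval R (if j = 0 then (X : F[X]) ^ e else 0) * T ^ j =
        R ^ e := by
      rw [Finset.sum_eq_single 0]
      · rw [if_pos rfl, map_pow, aeval_X, pow_zero, mul_one]
      · intro j _ hj
        rw [if_neg hj, map_zero, zero_mul]
      · intro h
        exact absurd (Finset.mem_range.2 hM0) h
    rw [h4]
    ring
  -- the coordinates and the forms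
  set c : GG := q ^ (D0 - 1) with hc
  have hc0 : c ≠ 0 := pow_ne_zero _ hq0
  set xx : ℕ → ℕ → GG := fun a b => c * (r ^ a * u ^ b) with hxx
  have hform : ∀ i b, e ≤ i → M ≤ b → rho c * (R ^ (i - e) * rho u ^ b * W) =
      rho (xx i b) + ∑ j ∈ Finset.range M, ∑ l ∈ Finset.range e,
        algebraMap ℝ HR (((w' j).coeff l : F) : ℝ) * rho (xx (i - e + l) (b - j)) := by
    intro i b hi hb
    rw [hWe, mul_add, mul_add]
    congr 1
    · rw [hxx]
      simp only [map_mul, map_pow]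
      have h4 : rho r ^ i = R ^ (i - e) * R ^ e := by
        rw [← pow_add]
        congr 1
        omega
      rw [h4]
      ring
    · rw [Finset.mul_sum, Finset.mul_sum]
      refine Finset.sum_congr rfl fun j hj => ?_
      have hj' := Finset.mem_range.1 hj
      rw [aeval_sum_lt (hw'deg j), Finset.sum_mul, Finset.mul_sum, Finset.mul_sum]
      refine Finset.sum_congr rfl fun l _ => ?_
      rw [hxx]
      simp only [map_mul, map_pow]
      have h4 : rho u ^ b = rho u ^ (b - j) * rho u ^ j := by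
        rw [← pow_add]
        congr 1
        omega
      have h5 : rho u ^ j * T ^ j = 1 := by
        rw [← mul_pow, hT, mul_inv_cancel₀ hUne, one_pow]
      have h6 : rho r ^ (i - e + l) = R ^ (i - e) * R ^ l := by rw [← pow_add]
      rw [h4, h6]
      linear_combination (rho c * R ^ (i - e) * rho u ^ (b - j) *
        algebraMap ℝ HR (((w' j).coeff l : F) : ℝ) * R ^ l) * h5
  set z : Fin D0 × Fin (2 * M) → HR := fun p =>
    if e ≤ (p.1 : ℕ) ∧ M ≤ (p.2 : ℕ) then rho c * (R ^ ((p.1 : ℕ) - e) * rho u ^ (p.2 : ℕ) * W)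
    else rho (xx p.1 p.2) with hz
  have hqx : QInd (fun p : Fin D0 × Fin (2 * M) => xx p.1 p.2) := by
    obtain ⟨D1, rfl⟩ : ∃ D1, D0 = D1 + 1 := ⟨D0 - 1, by omega⟩
    have h4 := qind_of (I := D1) hmin (fun p : Fin (D1 + 1) × Fin (2 * M) => D1 - (p.1 : ℕ))
      (fun p => (p.2 : ℕ)) ?_ (fun _ => Nat.sub_le _ _) (fun _ => 1) (fun _ => one_ne_zero) hc0
    · convert h4 using 2 with p
      rw [hxx]
      simp only []
      have := p.1.2
      rw [map_one, mul_one, show D1 - (D1 - (p.1 : ℕ)) = p.1 by omega]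
    · rintro ⟨a, b⟩ ⟨a', b'⟩ hab
      simp only [Prod.mk.injEq] at hab
      have := a.2
      have := a'.2
      exact Prod.ext (Fin.ext (by simp only; omega)) (Fin.ext hab.2)
  have key := fixA' (B0 := B0) hL (F := F) (fun p : Fin D0 × Fin (2 * M) => xx p.1 p.2) z
    (fun v p => ((p.2 : ℕ) : ℝ) * τ (some v))
    (fun p => -((D0 - 1 : ℕ) : ℝ) + ((p.2 : ℕ) : ℝ) * τ none +
      if e ≤ (p.1 : ℕ) ∧ M ≤ (p.2 : ℕ) then M * t else 0) hqx ?_ ?_ ?_ ?_ ?_
  · have h4 : ∑ v : Fin s, ∑ p : Fin D0 × Fin (2 * M), ((p.2 : ℕ) : ℝ) * τ (some v) =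
        ∑ p : Fin D0 × Fin (2 * M), ((p.2 : ℕ) : ℝ) * (-τ none) := by
      rw [Finset.sum_comm]
      refine Finset.sum_congr rfl fun p _ => ?_
      rw [← Finset.mul_sum]
      rw [Fintype.sum_option] at hτ
      rw [show ∑ v : Fin s, τ (some v) = -τ none by linarith]
    rw [h4, Finset.sum_add_distrib, Finset.sum_add_distrib] at key
    have h5 : ∑ p : Fin D0 × Fin (2 * M), ((p.2 : ℕ) : ℝ) * (-τ none) =
        -∑ p : Fin D0 × Fin (2 * M), ((p.2 : ℕ) : ℝ) * τ none := by
      rw [← Finset.sum_neg_distrib]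
      refine Finset.sum_congr rfl fun p _ => ?_
      ring
    have h6 := count_ge D0 e M heD (c := M * t) (by positivity)
    have h7 : ∑ _p : Fin D0 × Fin (2 * M), -((D0 - 1 : ℕ) : ℝ) =
        -(2 * (D0 : ℝ) * M * ((D0 - 1 : ℕ) : ℝ)) := by
      rw [Finset.sum_const, Finset.card_univ, Fintype.card_prod, Fintype.card_fin,
        Fintype.card_fin, nsmul_eq_mul]
      push_cast
      ring
    rw [h5, h7] at key
    have h8 : ((D0 - 1 : ℕ) : ℝ) ≤ D0 := by exact_mod_cast Nat.sub_le _ _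
    have hMr : (0 : ℝ) < M := by exact_mod_cast hM0
    have h9 : 2 * (D0 : ℝ) * M * ((D0 - 1 : ℕ) : ℝ) ≤ 2 * (D0 : ℝ) * M * D0 :=
      mul_le_mul_of_nonneg_left h8 (by positivity)
    have h10 : (M : ℝ) * (2 * (D0 : ℝ) ^ 2) < M * (M * t) := mul_lt_mul_of_pos_left hMt hMr
    nlinarith
  · -- the coordinates from the forms
    set S := Submodule.span F (Set.range z) with hS
    have h4 : ∀ i < D0, ∀ b < 2 * M, rho (xx i b) ∈ S := by
      intro i
      induction i using Nat.strong_induction_on with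
      | _ i ih =>
        intro hi b hb
        by_cases hib : e ≤ i ∧ M ≤ b
        · have h5 := hform i b hib.1 hib.2
          have h6 : z (⟨i, hi⟩, ⟨b, hb⟩) = rho c * (R ^ (i - e) * rho u ^ b * W) := by
            rw [hz]
            exact if_pos hib
          rw [← h6] at h5
          have h7 : rho (xx i b) = z (⟨i, hi⟩, ⟨b, hb⟩) - ∑ j ∈ Finset.range M,
              ∑ l ∈ Finset.range e, algebraMap ℝ HR (((w' j).coeff l : F) : ℝ) *
                rho (xx (i - e + l) (b - j)) := by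
            rw [h5]; ring
          rw [h7]
          refine Submodule.sub_mem _ (Submodule.subset_span ⟨_, rfl⟩)
            (Submodule.sum_mem _ fun j _ => Submodule.sum_mem _ fun l hl => ?_)
          have hl' := Finset.mem_range.1 hl
          exact mem_cst (ih _ (by omega) (by omega) _ (by omega)) ((w' j).coeff l).2
        · refine Submodule.subset_span ⟨(⟨i, hi⟩, ⟨b, hb⟩), ?_⟩
          rw [hz]
          exact if_neg hib
    intro p
    exact h4 _ p.1.2 _ p.2.2
  · intro p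
    have h4 : ∀ i < D0, ∀ b < 2 * M, rho (xx i b) ∈ Submodule.span F
        (Set.range fun p : Fin D0 × Fin (2 * M) => rho (xx p.1 p.2)) := fun i hi b hb =>
      Submodule.subset_span ⟨(⟨i, hi⟩, ⟨b, hb⟩), rfl⟩
    rw [hz]
    simp only []
    split_ifs with hp
    · rw [hform _ _ hp.1 hp.2]
      refine Submodule.add_mem _ (h4 _ p.1.2 _ p.2.2)
        (Submodule.sum_mem _ fun j _ => Submodule.sum_mem _ fun l hl => ?_)
      have hl' := Finset.mem_range.1 hl
      have h5 := p.1.2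
      have h6 := p.2.2
      exact mem_cst (h4 _ (by omega) _ (by omega)) ((w' j).coeff l).2
    · exact h4 _ p.1.2 _ p.2.2
  · intro v p
    have hf := filt_v (B := B0) hL (some v)
    have h5 := p.1.2
    have h4 : xx p.1 p.2 = q ^ (D0 - 1 - (p.1 : ℕ)) * (r * q) ^ (p.1 : ℕ) * u ^ (p.2 : ℕ) := by
      rw [hxx, hc]
      simp only []
      have : q ^ (D0 - 1) = q ^ (D0 - 1 - (p.1 : ℕ)) * q ^ (p.1 : ℕ) := by
        rw [← pow_add]
        congr 1
        omega
      rw [this, mul_pow]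
      ring
    rw [h4]
    refine hf.anti ?_ (hf.mul_mem (hf.mul_mem (Sv_pow hL (hqv v) _) (Sv_pow hL (hpv v) _))
      (Sv_pow hL (huv (some v)) _))
    have h6 : 0 ≤ ((D0 - 1 - (p.1 : ℕ) : ℕ) : ℝ) * κ v := mul_nonneg (Nat.cast_nonneg _) (hκ v)
    have h7 : 0 ≤ (((p.1 : ℕ)) : ℝ) * κ' v := mul_nonneg (Nat.cast_nonneg _) (hκ' v)
    linarith
  · intro p
    have hcn : rho c ∈ SR L (-((D0 - 1 : ℕ) : ℝ)) := by
      have h4 := SR_rho (Sv_pow hL hqn (D0 - 1))
      rw [hc]
      rwa [mul_neg_one] at h4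
    have hun : rho u ∈ SR L (τ none) := SR_rho (huv none)
    rw [hz]
    simp only []
    split_ifs with hp
    · have h4 := SR_mul hL hcn (SR_mul hL (SR_mul hL (SR_pow hL hR0 ((p.1 : ℕ) - e))
        (SR_pow hL hun (p.2 : ℕ))) hWs)
      refine SR_anti hL (le_of_eq ?_) h4
      ring
    · rw [hxx]
      simp only [map_mul, map_pow]
      have h4 := SR_mul hL hcn (SR_mul hL (SR_pow hL hR0 (p.1 : ℕ)) (SR_pow hL hun (p.2 : ℕ)))
      refine SR_anti hL (le_of_eq ?_) h4
      ring
  · intro p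
    have h5 := p.1.2
    have h4 : xx p.1 p.2 = q ^ (D0 - 1 - (p.1 : ℕ)) * (r * q) ^ (p.1 : ℕ) * u ^ (p.2 : ℕ) := by
      rw [hxx, hc]
      simp only []
      have : q ^ (D0 - 1) = q ^ (D0 - 1 - (p.1 : ℕ)) * q ^ (p.1 : ℕ) := by
        rw [← pow_add]
        congr 1
        omega
      rw [this, mul_pow]
      ring
    rw [h4]
    exact Sint.mul hL (Sint.mul hL (LG.Sint_pow hL h1 _) (LG.Sint_pow hL h2 _))
      (LG.Sint_pow hL h3 _)

end Pool.Agent.H556.RT
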