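import Mathlib
import Pool.Agent.H556.RT.B2
import Pool.Agent.H556.RT.Ar

/-!
# The theorem for germs
-/

set_option autoImplicit false

namespace Pool.Agent.H556.RT

open Filter Topology Pool.Agent.TH932.Abs Pool.Agent.TH932.Germs Pool.Agent.TH932.Chi
open Pool.Agent.TH796.AL Polynomial

variable {s : ℕ} {B0 : Base s} {L : ℕ → ℝ} {F : IntermediateField ℚ ℝ}

/-- the case without the polynomial -/
theorem germC (hL : Tendsto L atTop atTop) [FiniteDimensional ℚ F] {ξ : F}
    (hirr : Irrational (ξ : ℝ)) {q r : GG} (hq0 : q ≠ 0)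
    (κ κ' : Fin s → ℝ) {lam : ℝ} (hlam : 0 < lam)
    (hqv : ∀ v, q ∈ Sv B0 L (some v) (κ v)) (hpv : ∀ v, r * q ∈ Sv B0 L (some v) (κ' v))
    (hqn : q ∈ Sv B0 L none (-1))
    (hcl : rho r - algebraMap ℝ HR (ξ : ℝ) ∈ SR L lam)
    (h1 : Sint B0 L q) (h2 : Sint B0 L (r * q))
    (hA : 0 < ∑ v, κ' v + ∑ v, κ v + lam - 2) : False := by
  classical
  have hr := r_ne hL hirr hlam hcl
  have key := fixA' (B0 := B0) hL (F := F) (fun b : Bool => if b = true then q else r * q)
    (fun b : Bool => if b = true then rho q else (rho r - algebraMap ℝ HR (ξ : ℝ)) * rho q)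
    (fun v b => if b = true then κ v else κ' v)
    (fun b => if b = true then -1 else lam - 1) ?_ ?_ ?_ ?_ ?_ ?_
  · simp only [Fintype.sum_bool, if_true, if_false, Bool.false_eq_true] at key
    rw [Finset.sum_add_distrib] at key
    linarith
  · intro t c hc
    set a : ℚ := if true ∈ t then c true else 0 with ha
    set b : ℚ := if false ∈ t then c false else 0 with hb
    have h3 : (a : GG) * q + (b : GG) * (r * q) = 0 := by
      rw [← hc]
      have h4 : ∑ i ∈ t, (c i : GG) * (if i = true then q else r * q) =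
          ∑ i : Bool, if i ∈ t then (c i : GG) * (if i = true then q else r * q) else 0 := by
        rw [Finset.sum_ite_mem, Finset.univ_inter]
      rw [h4, Fintype.sum_bool, ha, hb]
      simp only [if_true, if_false, Bool.false_eq_true]
      split_ifs <;> simp
    have h4 : (a : GG) + (b : GG) * r = 0 := by
      have h5 : ((a : GG) + (b : GG) * r) * q = 0 := by rw [← h3]; ring
      exact (mul_eq_zero.1 h5).resolve_right hq0
    have hb0 : b = 0 := by
      by_contra hb0
      apply hr (-(a / b))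
      have hbG : (b : GG) ≠ 0 := by
        rw [Ne, Rat.cast_eq_zero]
        exact hb0
      push_cast
      field_simp
      linear_combination h4
    have ha0 : a = 0 := by
      rw [hb0, Rat.cast_zero, zero_mul, add_zero] at h4
      exact_mod_cast h4
    intro i hi
    cases i with
    | true => rw [ha, if_pos hi] at ha0; exact ha0
    | false => rw [hb, if_pos hi] at hb0; exact hb0
  · intro i
    set S := Submodule.span F (Set.range (fun b : Bool =>
      if b = true then rho q else (rho r - algebraMap ℝ HR (ξ : ℝ)) * rho q)) with hS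
    have h3 : rho q ∈ S := Submodule.subset_span ⟨true, rfl⟩
    have h4 : (rho r - algebraMap ℝ HR (ξ : ℝ)) * rho q ∈ S :=
      Submodule.subset_span ⟨false, rfl⟩
    cases i with
    | true => exact h3
    | false =>
      have h5 : rho (r * q) = (rho r - algebraMap ℝ HR (ξ : ℝ)) * rho q +
          algebraMap ℝ HR (ξ : ℝ) * rho q := by rw [map_mul]; ring
      change rho (r * q) ∈ S
      rw [h5]
      exact Submodule.add_mem _ h4 (mem_cst h3 ξ.2)
  · intro i
    set S := Submodule.span F (Set.range (fun b : Bool =>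
      rho (if b = true then q else r * q))) with hS
    have h3 : rho q ∈ S := Submodule.subset_span ⟨true, rfl⟩
    have h4 : rho (r * q) ∈ S := Submodule.subset_span ⟨false, rfl⟩
    cases i with
    | true => exact h3
    | false =>
      have h5 : (rho r - algebraMap ℝ HR (ξ : ℝ)) * rho q = rho (r * q) -
          algebraMap ℝ HR (ξ : ℝ) * rho q := by rw [map_mul]; ring
      change (rho r - algebraMap ℝ HR (ξ : ℝ)) * rho q ∈ S
      rw [h5]
      exact Submodule.sub_mem _ h4 (mem_cst h3 ξ.2)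
  · intro v i
    cases i with
    | true => exact hqv v
    | false => exact hpv v
  · intro i
    cases i with
    | true => exact SR_rho hqn
    | false =>
      have h3 := SR_mul hL hcl (SR_rho hqn)
      change (rho r - algebraMap ℝ HR (ξ : ℝ)) * rho q ∈ SR L (lam - 1)
      exact h3
  · intro i
    cases i with
    | true => exact h1
    | false => exact h2

lemma pind_zero (u r : GG) : PInd 0 u r := fun _ _ b => b.elim0

lemma pind_one {u : GG} (r : GG) (hu : ∀ c : ℚ, u ≠ (c : GG)) : PInd 1 u r := by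
  intro E hE b
  rw [Fin.sum_univ_one] at hE
  simp only [Fin.val_zero, pow_zero, mul_one] at hE
  have hb : b = 0 := Subsingleton.elim _ _
  rw [hb]
  by_contra h
  obtain ⟨c, hc⟩ := const_of_alg h hE
  exact hu c hc

/-- **the theorem for germs** -/
theorem germRT (hL : Tendsto L atTop atTop) [FiniteDimensional ℚ F] {ξ : F}
    (hirr : Irrational (ξ : ℝ)) {P : ℚ[X]} (hP : P ≠ 0) {q r u Di : GG} (hq0 : q ≠ 0)
    (hD0 : Di ≠ 0) (hu : ∀ c : ℚ, u ≠ (c : GG))
    (κ κ' : Fin s → ℝ) (hκ : ∀ v, 0 ≤ κ v) (hκ' : ∀ v, 0 ≤ κ' v)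
    (τ : Option (Fin s) → ℝ) {lam d : ℝ} (hlam : 0 < lam)
    (hqv : ∀ v, q ∈ Sv B0 L (some v) (κ v)) (hpv : ∀ v, r * q ∈ Sv B0 L (some v) (κ' v))
    (huv : ∀ v, u ∈ Sv B0 L v (τ v)) (hui : u⁻¹ ∈ Sv B0 L none (-τ none))
    (hDv : ∀ v, Di ∈ Sv B0 L (some v) 0)
    (hqn : q ∈ Sv B0 L none (-1)) (hDn : Di ∈ Sv B0 L none d) (hrn : r ∈ Sv B0 L none 0)
    (hcl : rho r - algebraMap ℝ HR (ξ : ℝ) ∈ SR L lam) (hτ : ∑ v, τ v = 0) (hτn : τ none ≤ 0)
    (h1 : Sint B0 L q) (h2 : Sint B0 L (r * q)) (h3 : Sint B0 L u) (h4 : Sint B0 L (q * Di))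
    (h5 : Sint B0 L (evq u P * Di)) (hd : 0 ≤ d)
    (hη : 0 < (P.natDegree : ℝ) * -∑ v, min 0 (τ v))
    (hdη : d ≤ (P.natDegree : ℝ) * -∑ v, min 0 (τ v))
    (hA : 0 < ∑ v, κ' v + ∑ v, κ v + lam - 2 +
      d ^ 2 / ((P.natDegree : ℝ) * -∑ v, min 0 (τ v))) : False := by
  classical
  by_cases hall : ∀ n, PInd n u r
  · obtain ⟨I, m, hmI, hW⟩ := exists_Im hη hd hdη hA
    refine caseA hL ξ.2 hP hq0 hD0 κ κ' τ lam d hqv hpv huv hDv hqn hDn hrn hcl hτ hτn h1 h2 h3
      h4 h5 I m (hall _) ?_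
    have h6 := sum_W I m hmI (∑ v, κ v) (∑ v, κ' v) lam d
      ((P.natDegree : ℝ) * -∑ v, min 0 (τ v))
    simp_rw [← mul_assoc] at h6
    rw [h6]
    exact hW
  · push Not at hall
    set n0 := Nat.find hall with hn0
    have h6 : ¬ PInd n0 u r := Nat.find_spec hall
    have h7 : ∀ n < n0, PInd n u r := fun n hn => by
      by_contra h
      exact Nat.find_min hall hn h
    have h8 : 2 ≤ n0 := by
      by_contra h8
      have : n0 = 0 ∨ n0 = 1 := by omega
      rcases this with h9 | h9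
      · rw [h9] at h6; exact h6 (pind_zero u r)
      · rw [h9] at h6; exact h6 (pind_one r hu)
    obtain ⟨D0, hD0'⟩ : ∃ D0, n0 = D0 + 1 := ⟨n0 - 1, by omega⟩
    rw [hD0'] at h6 h7 h8
    obtain ⟨J, g, hdeg, hgJ, hrel⟩ := exists_rel h6
    rcases hτn.eq_or_lt with h9 | h9
    · exact caseB0 hL hirr τ hlam huv hrn hcl hτ h9 h3 (by omega)
        (fun n hn => h7 n (by omega)) hdeg hgJ hrel
    · have hu0 : u ≠ 0 := by
        intro h
        apply hu 0
        rw [h, Rat.cast_zero]
      exact caseB1 hL hirr hq0 hu0 κ κ' hκ hκ' τ hlam hqv hpv huv hui hqn hrn hcl hτ h9 h1 h2 h3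
        (by omega) (h7 D0 (by omega)) hdeg hgJ hrel

end Pool.Agent.H556.RT
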