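import Mathlib
import Pool.Agent.H556.LG.Seq

/-!
# Smooth numbers, heights and values of polynomials
-/

set_option autoImplicit false

namespace Pool.Agent.H556.RT

open Pool.Agent.H556.LG Polynomial

/-- all prime divisors lie in `S` -/
def Smooth (S : Finset ℕ) (n : ℕ) : Prop := ∀ ℓ : ℕ, ℓ.Prime → ℓ ∣ n → ℓ ∈ S

lemma Smooth.ne_zero {S : Finset ℕ} {n : ℕ} (h : Smooth S n) : n ≠ 0 := by
  rintro rfl
  obtain ⟨p, hp, h1⟩ := Nat.exists_infinite_primes (S.sup id + 1)
  have h2 : p ≤ S.sup id := Finset.le_sup (f := id) (h p h1 (dvd_zero p))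
  omega

lemma Smooth.of_dvd {S : Finset ℕ} {m n : ℕ} (h : Smooth S n) (hm : m ∣ n) : Smooth S m :=
  fun ℓ hℓ h1 => h ℓ hℓ (h1.trans hm)

lemma Smooth.pow {S : Finset ℕ} {n : ℕ} (h : Smooth S n) (k : ℕ) : Smooth S (n ^ k) :=
  fun ℓ hℓ h1 => h ℓ hℓ (hℓ.dvd_of_dvd_pow h1)

lemma smooth_one (S : Finset ℕ) : Smooth S 1 := fun ℓ hℓ h => by
  rw [Nat.dvd_one] at h
  subst h
  exact absurd hℓ Nat.not_prime_one

lemma smooth_log {S : Finset ℕ} (hS : ∀ p ∈ S, p.Prime) {n : ℕ} (h : Smooth S n) :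
    ∑ p ∈ S, (padicValNat p n : ℝ) * Real.log p = Real.log n := by
  rw [Real.log_nat_eq_sum_factorization, Finsupp.sum_of_support_subset _ (s := S)]
  · refine Finset.sum_congr rfl fun p hp => ?_
    rw [Nat.factorization_def n (hS p hp)]
  · intro p hp
    rw [Nat.support_factorization, Nat.mem_primeFactors] at hp
    exact h p hp.1 hp.2.1
  · intro p _
    simp

lemma cf_smooth {S : Finset ℕ} (hS : ∀ p ∈ S, p.Prime) {n : ℕ} (h : Smooth S n) :
    cf S n = 0 := by
  unfold cf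
  rw [smooth_log hS h, sub_self]

lemma val_mono {p m n : ℕ} (hp : p.Prime) (hn : n ≠ 0) (h : m ∣ n) :
    padicValNat p m ≤ padicValNat p n := by
  have : Fact p.Prime := ⟨hp⟩
  rw [← padicValNat_dvd_iff_le hn]
  exact pow_padicValNat_dvd.trans h

lemma smooth_log_le {S : Finset ℕ} (hS : ∀ p ∈ S, p.Prime) {m n : ℕ} (h : Smooth S m)
    (hn : n ≠ 0) (hmn : m ∣ n) :
    Real.log m ≤ ∑ p ∈ S, (padicValNat p n : ℝ) * Real.log p := by
  rw [← smooth_log hS h]
  refine Finset.sum_le_sum fun p hp => ?_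
  refine mul_le_mul_of_nonneg_right ?_ (Real.log_natCast_nonneg _)
  exact_mod_cast val_mono (hS p hp) hn hmn

lemma coprime_of_smooth {S : Finset ℕ} {D n : ℕ} (hD : ∀ p ∈ S, ¬ p ∣ D) (h : Smooth S n) :
    D.Coprime n := by
  rw [Nat.coprime_iff_gcd_eq_one]
  by_contra hg
  obtain ⟨ℓ, hℓ, h1⟩ := Nat.exists_prime_and_dvd hg
  exact hD ℓ (h ℓ hℓ (h1.trans (Nat.gcd_dvd_right _ _))) (h1.trans (Nat.gcd_dvd_left _ _))

/-- divisors of numerators -/
lemma dvd_num_mul {S : Finset ℕ} {D : ℕ} (hD : ∀ p ∈ S, ¬ p ∣ D) {x w : ℚ}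
    (hx : (D : ℤ) ∣ x.num) (hw : Smooth S w.den) : (D : ℤ) ∣ (x * w).num := by
  have h1 : (x * w).num * (x.den * w.den : ℕ) = (x.num * w.num) * (x * w).den := by
    have h2 := Rat.mul_num_den' x w
    push_cast
    rw [← mul_assoc, h2]
  have h2 : (D : ℤ) ∣ (x * w).num * (x.den * w.den : ℕ) := by
    rw [h1]
    exact Dvd.dvd.mul_right (Dvd.dvd.mul_right hx _) _
  have h3 : D.Coprime (x.den * w.den) := by
    apply Nat.Coprime.mul_right
    · have h4 := x.reduced
      refine Nat.Coprime.coprime_dvd_left ?_ h4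
      exact Int.natCast_dvd.1 hx
    · exact coprime_of_smooth hD hw
  exact (Nat.isCoprime_iff_coprime.2 h3).dvd_of_dvd_mul_right h2

/-- the values of polynomials, as quotients -/
lemma aeval_quot (P : ℤ[X]) {δ : ℕ} (hδ : P.natDegree ≤ δ) (u : ℚ) :
    aeval u P = ((∑ j ∈ Finset.range (δ + 1), P.coeff j * u.num ^ j * (u.den : ℤ) ^ (δ - j) : ℤ) : ℚ)
      / ((u.den ^ δ : ℕ) : ℤ) := by
  have hd : (u.den : ℚ) ≠ 0 := by exact_mod_cast u.den_ne_zero
  rw [aeval_eq_sum_range' (n := δ + 1) (by omega)]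
  push_cast
  rw [Finset.sum_div]
  refine Finset.sum_congr rfl fun j hj => ?_
  have hj' := Finset.mem_range.1 hj
  have h1 : u ^ j = (u.num : ℚ) ^ j / (u.den : ℚ) ^ j := by
    conv_lhs => rw [← Rat.num_div_den u, div_pow]
  have h2 : (u.den : ℚ) ^ δ = (u.den : ℚ) ^ (δ - j) * (u.den : ℚ) ^ j := by
    rw [← pow_add]
    congr 1
    omega
  rw [h1, h2, zsmul_eq_mul]
  field_simp

/-- the size of the coefficients -/
noncomputable def cP (P : ℤ[X]) : ℕ := ∑ j ∈ Finset.range (P.natDegree + 1), (P.coeff j).natAbs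

lemma cP_pos {P : ℤ[X]} (hP : P ≠ 0) : 1 ≤ cP P := by
  unfold cP
  have h1 : (P.coeff P.natDegree).natAbs ≤
      ∑ j ∈ Finset.range (P.natDegree + 1), (P.coeff j).natAbs :=
    Finset.single_le_sum (f := fun j => (P.coeff j).natAbs) (fun _ _ => Nat.zero_le _)
      (Finset.self_mem_range_succ _)
  have h2 : 0 < (P.coeff P.natDegree).natAbs := Int.natAbs_pos.2 (leadingCoeff_ne_zero.2 hP)
  omega

lemma ht_aeval {P : ℤ[X]} (hP : P ≠ 0) (u : ℚ) :
    ht (aeval u P) ≤ P.natDegree * ht u + Real.log (cP P) := by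
  rw [aeval_quot P le_rfl u]
  refine (ht_le_of _ _ ?_).trans ?_
  · have := pow_ne_zero P.natDegree u.den_ne_zero
    exact_mod_cast this
  set H := max u.num.natAbs u.den with hH
  have hH0 : 0 < H := lt_of_lt_of_le u.den_pos (le_max_right _ _)
  have h1 : (∑ j ∈ Finset.range (P.natDegree + 1),
      P.coeff j * u.num ^ j * (u.den : ℤ) ^ (P.natDegree - j) : ℤ).natAbs ≤
      cP P * H ^ P.natDegree := by
    refine (Int.natAbs_sum_le _ _).trans ?_
    unfold cP
    rw [Finset.sum_mul]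
    refine Finset.sum_le_sum fun j hj => ?_
    have hj' := Finset.mem_range.1 hj
    rw [Int.natAbs_mul, Int.natAbs_mul, Int.natAbs_pow, Int.natAbs_pow, Int.natAbs_natCast,
      mul_assoc]
    refine Nat.mul_le_mul_left _ ?_
    calc u.num.natAbs ^ j * u.den ^ (P.natDegree - j) ≤ H ^ j * H ^ (P.natDegree - j) :=
          Nat.mul_le_mul (Nat.pow_le_pow_left (le_max_left _ _) _)
            (Nat.pow_le_pow_left (le_max_right _ _) _)
      _ = H ^ P.natDegree := by
          rw [← pow_add]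
          congr 1
          omega
  have h2 : (((u.den ^ P.natDegree : ℕ) : ℤ)).natAbs ≤ cP P * H ^ P.natDegree := by
    rw [Int.natAbs_natCast]
    calc u.den ^ P.natDegree ≤ H ^ P.natDegree := Nat.pow_le_pow_left (le_max_right _ _) _
      _ ≤ cP P * H ^ P.natDegree := Nat.le_mul_of_pos_left _ (cP_pos hP)
  have h3 : Real.log ((cP P * H ^ P.natDegree : ℕ) : ℝ) =
      P.natDegree * ht u + Real.log (cP P) := by
    unfold ht
    rw [← hH]
    push_cast
    have h4 : (cP P : ℝ) ≠ 0 := by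
      have := cP_pos hP
      exact_mod_cast (by omega : cP P ≠ 0)
    have h5 : (H : ℝ) ≠ 0 := by exact_mod_cast hH0.ne'
    rw [Real.log_mul h4 (pow_ne_zero _ h5), Real.log_pow]
    ring
  rw [← h3]
  apply Real.log_le_log
  · have h4 : 0 < (((u.den ^ P.natDegree : ℕ) : ℤ)).natAbs := by
      rw [Int.natAbs_natCast]
      exact pow_pos u.den_pos _
    exact_mod_cast lt_of_lt_of_le h4 (le_max_right _ _)
  · exact_mod_cast max_le h1 h2

lemma den_aeval (P : ℤ[X]) (u : ℚ) : (aeval u P).den ∣ u.den ^ P.natDegree := by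
  rw [aeval_quot P le_rfl u]
  have h2 : ∀ (p q : ℤ), ((((p : ℚ) / q).den : ℤ)) ∣ q := fun p q => by
    rw [← Rat.divInt_eq_div]; exact Rat.den_dvd p q
  have h3 := h2 (∑ j ∈ Finset.range (P.natDegree + 1),
    P.coeff j * u.num ^ j * (u.den : ℤ) ^ (P.natDegree - j)) ((u.den ^ P.natDegree : ℕ) : ℤ)
  exact_mod_cast h3

lemma smooth_den_aeval {S : Finset ℕ} {u : ℚ} (hu : Smooth S u.den) (P : ℤ[X]) :
    Smooth S (aeval u P).den := (hu.pow P.natDegree).of_dvd (den_aeval P u)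

lemma log_D_le {P : ℤ[X]} (hP : P ≠ 0) {u : ℚ} (hu : aeval u P ≠ 0) {D : ℕ}
    (hD : (D : ℤ) ∣ (aeval u P).num) : Real.log D ≤ P.natDegree * ht u + Real.log (cP P) := by
  refine le_trans ?_ (ht_aeval hP u)
  refine le_trans ?_ (log_num_le _)
  have h1 : (aeval u P).num.natAbs ≠ 0 := Int.natAbs_ne_zero.2 (Rat.num_ne_zero.2 hu)
  have h2 : D ∣ (aeval u P).num.natAbs := Int.natCast_dvd.1 hD
  have h3 : D ≠ 0 := by
    rintro rfl
    exact h1 (Nat.eq_zero_of_zero_dvd h2)
  apply Real.log_le_log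
  · exact_mod_cast Nat.pos_of_ne_zero h3
  · exact_mod_cast Nat.le_of_dvd (Nat.pos_of_ne_zero h1) h2

lemma ht_pos_or (u : ℚ) : ht u = 0 ∨ Real.log 2 ≤ ht u := by
  unfold ht
  rcases Nat.lt_or_ge (max u.num.natAbs u.den) 2 with h | h
  · left
    have h1 : 1 ≤ max u.num.natAbs u.den := le_trans u.den_pos (le_max_right _ _)
    have h2 : max u.num.natAbs u.den = 1 := by omega
    rw [h2]
    simp
  · right
    exact Real.log_le_log (by norm_num) (by exact_mod_cast h)

/-- the exponent -/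
noncomputable def EE (P : ℤ[X]) (u : ℚ) (D : ℕ) : ℝ :=
  Real.log D * (Real.log D / (P.natDegree * ht u))

lemma theta_le {P : ℤ[X]} (hP : 1 ≤ P.natDegree) {u : ℚ} (hu : aeval u P ≠ 0) {D : ℕ}
    (hD : (D : ℤ) ∣ (aeval u P).num) :
    Real.log D / (P.natDegree * ht u) ≤ 1 + Real.log (cP P) / Real.log 2 := by
  have hP0 : P ≠ 0 := by
    rintro rfl
    simp at hP
  have h0 : 0 ≤ Real.log (cP P) := Real.log_natCast_nonneg _
  have hl2 : 0 < Real.log 2 := Real.log_pos (by norm_num)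
  rcases ht_pos_or u with h | h
  · rw [h, mul_zero, div_zero]
    positivity
  · have h1 := log_D_le hP0 hu hD
    have h2 : (1 : ℝ) ≤ P.natDegree := by exact_mod_cast hP
    have h3 : Real.log 2 ≤ P.natDegree * ht u := by nlinarith
    have h4 : 0 < (P.natDegree : ℝ) * ht u := lt_of_lt_of_le hl2 h3
    rw [div_le_iff₀ h4]
    have h5 : Real.log (cP P) ≤ Real.log (cP P) / Real.log 2 * (P.natDegree * ht u) := by
      rw [div_mul_eq_mul_div, le_div_iff₀ hl2]
      exact mul_le_mul_of_nonneg_left h3 h0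
    linarith

lemma EE_nonneg (P : ℤ[X]) (u : ℚ) (D : ℕ) : 0 ≤ EE P u D := by
  unfold EE
  have h1 := Real.log_natCast_nonneg D
  have h2 := ht_nonneg u
  positivity

lemma EE_le {P : ℤ[X]} (hP : 1 ≤ P.natDegree) {u : ℚ} (hu : aeval u P ≠ 0) {D : ℕ}
    (hD : (D : ℤ) ∣ (aeval u P).num) :
    EE P u D ≤ Real.log D + (1 + Real.log (cP P) / Real.log 2) * Real.log (cP P) := by
  have hP0 : P ≠ 0 := by
    rintro rfl
    simp at hP
  have h0 : 0 ≤ Real.log (cP P) := Real.log_natCast_nonneg _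
  have hl2 : 0 < Real.log 2 := Real.log_pos (by norm_num)
  have hlD : 0 ≤ Real.log D := Real.log_natCast_nonneg _
  rcases ht_pos_or u with h | h
  · unfold EE
    rw [h, mul_zero, div_zero, mul_zero]
    positivity
  · have h1 := log_D_le hP0 hu hD
    have h2 : (1 : ℝ) ≤ P.natDegree := by exact_mod_cast hP
    have h3 : Real.log 2 ≤ P.natDegree * ht u := by nlinarith
    have h4 : 0 < (P.natDegree : ℝ) * ht u := lt_of_lt_of_le hl2 h3
    have h5 := theta_le hP hu hD
    have h6 : EE P u D = Real.log D / (P.natDegree * ht u) * Real.log D := by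
      unfold EE
      ring
    have h7 : Real.log D / (P.natDegree * ht u) * Real.log D ≤
        Real.log D / (P.natDegree * ht u) * (P.natDegree * ht u + Real.log (cP P)) :=
      mul_le_mul_of_nonneg_left h1 (by positivity)
    have h8 : Real.log D / (P.natDegree * ht u) * (P.natDegree * ht u) = Real.log D :=
      div_mul_cancel₀ _ h4.ne'
    have h9 : Real.log D / (P.natDegree * ht u) * Real.log (cP P) ≤
        (1 + Real.log (cP P) / Real.log 2) * Real.log (cP P) :=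
      mul_le_mul_of_nonneg_right h5 h0
    rw [h6]
    linarith

end Pool.Agent.H556.RT
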