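import Mathlib
import Pool.Agent.H556.RT.G
import Pool.Agent.H556.RT.Sq

/-!
# The theorem for sequences
-/

set_option autoImplicit false

namespace Pool.Agent.H556.RT

open Filter Topology Pool.Agent.TH932.Abs Pool.Agent.TH932.Germs Pool.Agent.TH932.Chi
open Pool.Agent.TH796.AL Polynomial Pool.Agent.H556.LG

lemma evq_gm (a : ℕ → ℚ) (E : ℚ[X]) : evq (gm a) E = gm (fun n => eval (a n) E) := by
  rw [evq_eq _ E (Nat.lt_succ_self _)]
  have h2 : (fun n => eval (a n) E) = fun n => ∑ k ∈ Finset.range (E.natDegree + 1),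
      E.coeff k * a n ^ k := by
    funext n
    rw [eval_eq_sum_range]
  rw [h2]
  have h3 : ∀ t : Finset ℕ, ∑ k ∈ t, ((E.coeff k : ℚ) : GG) * gm a ^ k =
      gm (fun n => ∑ k ∈ t, E.coeff k * a n ^ k) := by
    intro t
    induction t using Finset.induction_on with
    | empty => simp only [Finset.sum_empty]; rfl
    | insert i t hi ih =>
      rw [Finset.sum_insert hi, ih]
      have h4 : ((E.coeff i : ℚ) : GG) * gm a ^ i = gm (fun n => E.coeff i * a n ^ i) := by
        rw [gm_cst]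
        rfl
      rw [h4, gm_add]
      congr 1
      funext n
      rw [Finset.sum_insert hi]
  exact h3 _

section
variable {s : ℕ} {b : Fin s → ℕ}

lemma ht_nat {n : ℕ} (hn : n ≠ 0) : ht ((n : ℕ) : ℚ) = Real.log n := by
  unfold ht
  rw [Rat.num_natCast, Rat.den_natCast, Int.natAbs_natCast,
    max_eq_left (by omega : 1 ≤ n)]

lemma ht_int {n : ℤ} (hn : n ≠ 0) : ht ((n : ℤ) : ℚ) = Real.log n.natAbs := by
  unfold ht
  rw [Rat.num_intCast, Rat.den_intCast, max_eq_left (by omega : 1 ≤ n.natAbs)]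

lemma vv_int (hb : ∀ v, (b v).Prime) (v : Fin s) {n : ℤ} (hn : n ≠ 0) :
    vv b (some v) (n : ℚ) = (padicValNat (b v) n.natAbs : ℝ) * Real.log (b v) := by
  rw [vv_some b hb v (by exact_mod_cast hn), padicValRat_eq', Rat.num_intCast, Rat.den_intCast]
  have : padicValNat (b v) 1 = 0 := padicValNat.one
  rw [this, Nat.cast_zero, sub_zero]

lemma vv_int_nonneg (hb : ∀ v, (b v).Prime) (v : Fin s) {n : ℤ} (hn : n ≠ 0) :
    0 ≤ vv b (some v) (n : ℚ) := by
  rw [vv_int hb v hn]
  exact mul_nonneg (Nat.cast_nonneg _) (Real.log_natCast_nonneg _)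

lemma sum_vv_int (hb : ∀ v, (b v).Prime) (hbi : Function.Injective b) {n : ℤ} (hn : n ≠ 0)
    {w : ℕ} (hw : Smooth (Finset.univ.image b) w) (hwn : (w : ℤ) ∣ n) :
    Real.log w ≤ ∑ v : Fin s, vv b (some v) (n : ℚ) := by
  have h1 : ∀ p ∈ Finset.univ.image b, p.Prime := by
    intro p hp
    obtain ⟨v, -, rfl⟩ := Finset.mem_image.1 hp
    exact hb v
  have h2 := smooth_log_le h1 hw (Int.natAbs_ne_zero.2 hn) (Int.natCast_dvd.1 hwn)
  rw [Finset.sum_image (fun i _ j _ h => hbi h)] at h2
  refine h2.trans (le_of_eq ?_)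
  exact Finset.sum_congr rfl fun v _ => (vv_int hb v hn).symm

/-- the height of an `S`-unit -/
lemma ht_unit (hb : ∀ v, (b v).Prime) (hbi : Function.Injective b) {u : ℚ} (hu0 : u ≠ 0)
    (hud : Smooth (Finset.univ.image b) u.den) (hu1 : 1 ≤ |u|) :
    ∑ v, min 0 (vv b v u) = -ht u := by
  have hS : ∀ p ∈ Finset.univ.image b, p.Prime := by
    intro p hp
    obtain ⟨v, -, rfl⟩ := Finset.mem_image.1 hp
    exact hb v
  have hnum : u.num.natAbs ≠ 0 := Int.natAbs_ne_zero.2 (Rat.num_ne_zero.2 hu0)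
  rw [Fintype.sum_option]
  have h1 : ∑ v : Fin s, min 0 (vv b (some v) u) = -Real.log u.den := by
    rw [← smooth_log hS hud, Finset.sum_image (fun i _ j _ h => hbi h), ← Finset.sum_neg_distrib]
    refine Finset.sum_congr rfl fun v _ => ?_
    have : Fact (b v).Prime := ⟨hb v⟩
    rw [vv_some b hb v hu0, padicValRat_eq']
    have hl : 0 ≤ Real.log (b v) := Real.log_natCast_nonneg _
    by_cases hd : (b v) ∣ u.den
    · have h2 : ¬ (b v) ∣ u.num.natAbs := by
        intro h3
        have h4 := Nat.dvd_gcd h3 hd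
        rw [u.reduced] at h4
        exact (hb v).one_lt.ne' (Nat.dvd_one.1 h4)
      rw [padicValNat.eq_zero_of_not_dvd h2, Nat.cast_zero, zero_sub, min_eq_right]
      · ring
      · have : (0 : ℝ) ≤ padicValNat (b v) u.den := Nat.cast_nonneg _
        nlinarith
    · rw [padicValNat.eq_zero_of_not_dvd hd, Nat.cast_zero, sub_zero, zero_mul, neg_zero,
        min_eq_left]
      exact mul_nonneg (Nat.cast_nonneg _) hl
  have h2 : (u.den : ℕ) ≤ u.num.natAbs := by
    have h3 : |u| = (u.num.natAbs : ℚ) / u.den := by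
      conv_lhs => rw [← Rat.num_div_den u]
      rw [abs_div, Nat.abs_cast, Nat.cast_natAbs]
      push_cast
      rfl
    rw [h3, le_div_iff₀ (by exact_mod_cast u.den_pos), one_mul] at hu1
    exact_mod_cast hu1
  have h3 : min 0 (vv b none u) = -(Real.log u.num.natAbs - Real.log u.den) := by
    rw [vv_none, log_abs u hu0, min_eq_right]
    have : Real.log u.den ≤ Real.log u.num.natAbs :=
      Real.log_le_log (by exact_mod_cast u.den_pos) (by exact_mod_cast h2)
    linarith
  rw [h1, h3]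
  unfold ht
  rw [max_eq_left h2]
  ring

end

/-- **the theorem for sequences** -/
theorem coreRT1 {s : ℕ} (b : Fin s → ℕ) (hb : ∀ v, (b v).Prime) (hbi : Function.Injective b)
    {ξ : ℝ} (hξ : IsAlgebraic ℚ ξ) (hirr : Irrational ξ) {P : ℤ[X]} (hP : 1 ≤ P.natDegree)
    {ε : ℝ} (hε : 0 < ε) (q v v' D : ℕ → ℕ) (p : ℕ → ℤ) (u : ℕ → ℚ)
    (hq : Tendsto q atTop atTop) (hp : ∀ k, p k ≠ 0)
    (hv : ∀ k, Smooth (Finset.univ.image b) (v k))
    (hv' : ∀ k, Smooth (Finset.univ.image b) (v' k))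
    (hu0 : ∀ k, u k ≠ 0) (hun : ∀ k, Smooth (Finset.univ.image b) (u k).num.natAbs)
    (hud : ∀ k, Smooth (Finset.univ.image b) (u k).den)
    (hu1 : ∀ᶠ k in (UU : Filter ℕ), 1 ≤ |u k|)
    (hPu : ∀ k, aeval (u k) P ≠ 0) (hDS : ∀ k, ∀ ℓ ∈ Finset.univ.image b, ¬ ℓ ∣ D k)
    (hDP : ∀ k, (D k : ℤ) ∣ (aeval (u k) P).num) (hvD : ∀ k, v k * D k ∣ q k)
    (hv'p : ∀ k, (v' k : ℤ) ∣ p k)
    (hviol : ∀ k, |ξ - p k / q k| ≤
      v k * v' k * Real.exp (EE P (u k) (D k)) / (q k : ℝ) ^ (2 + ε)) : False := by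
  classical
  set S := Finset.univ.image b with hS
  have hSp : ∀ ℓ ∈ S, ℓ.Prime := by
    intro ℓ hℓ
    obtain ⟨w, -, rfl⟩ := Finset.mem_image.1 hℓ
    exact hb w
  set B0 : Base s := ⟨b, fun i => (hb i).two_le, fun i j hij => by
    rw [Nat.isCoprime_iff_coprime]
    exact (Nat.coprime_primes (hb i) (hb j)).2 (fun h => hij (hbi h))⟩ with hB0
  have hBb : B0.P = b := rfl
  have hP0 : P ≠ 0 := by
    rintro rfl
    simp at hP
  set L : ℕ → ℝ := fun k => Real.log (q k) with hLdef
  have hL : Tendsto L atTop atTop :=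
    Real.tendsto_log_atTop.comp (tendsto_natCast_atTop_atTop.comp hq)
  have hL0 : ∀ᶠ k in (UU : Filter ℕ), 0 < L k := ev_of_atTop (hL.eventually_gt_atTop 0)
  have hq1 : ∀ᶠ k in (UU : Filter ℕ), 1 ≤ q k := ev_of_atTop (hq.eventually_ge_atTop 1)
  have hcon : ∀ c : ℝ, Tendsto (fun k => c / L k) (UU : Filter ℕ) (𝓝 0) := fun c =>
    (Tendsto.const_div_atTop hL c).mono_left Nat.hyperfilter_le_atTop
  have hD1 : ∀ k, D k ≠ 0 := by
    intro k h0
    have h1 := hDP k
    rw [h0, Nat.cast_zero, zero_dvd_iff, Rat.num_eq_zero] at h1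
    exact hPu k h1
  have hlogs : ∀ n : ℕ, 0 ≤ Real.log n := fun n => Real.log_natCast_nonneg n
  set c1 : ℝ := (1 + Real.log (cP P) / Real.log 2) * Real.log (cP P) with hc1
  have hl2 : 0 < Real.log 2 := Real.log_pos (by norm_num)
  have hc1' : 0 ≤ c1 := by
    have := hlogs (cP P)
    rw [hc1]
    positivity
  set E : ℕ → ℝ := fun k => EE P (u k) (D k) with hE
  have hE0 : ∀ k, 0 ≤ E k := fun k => EE_nonneg _ _ _
  -- basic inequalities
  have hvDL : ∀ᶠ k in (UU : Filter ℕ), Real.log (v k) + Real.log (D k) ≤ L k := by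
    filter_upwards [hq1] with k h1
    have h2 := Nat.le_of_dvd h1 (hvD k)
    have h3 : ((v k : ℕ) : ℝ) ≠ 0 := by exact_mod_cast (hv k).ne_zero
    have h4 : ((D k : ℕ) : ℝ) ≠ 0 := by exact_mod_cast hD1 k
    rw [← Real.log_mul h3 h4]
    apply Real.log_le_log
    · exact_mod_cast Nat.mul_pos (Nat.pos_of_ne_zero (hv k).ne_zero)
        (Nat.pos_of_ne_zero (hD1 k))
    · exact_mod_cast h2
  have hvE : ∀ᶠ k in (UU : Filter ℕ), Real.log (v k) + E k ≤ L k + c1 := by
    filter_upwards [hvDL] with k h1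
    have h2 := EE_le hP (hPu k) (hDP k)
    have h3 : E k ≤ Real.log (D k) + c1 := h2
    linarith
  have hbd : ∀ᶠ k in (UU : Filter ℕ), |ξ - p k / q k| ≤
      Real.exp (Real.log (v k) + Real.log (v' k) + E k - (2 + ε) * L k) := by
    filter_upwards [hq1] with k h1
    refine (hviol k).trans (le_of_eq ?_)
    have h2 : (0 : ℝ) < v k := by exact_mod_cast Nat.pos_of_ne_zero (hv k).ne_zero
    have h3 : (0 : ℝ) < v' k := by exact_mod_cast Nat.pos_of_ne_zero (hv' k).ne_zero
    have h4 : (0 : ℝ) < q k := by exact_mod_cast h1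
    rw [Real.exp_sub, Real.exp_add, Real.exp_add, Real.exp_log h2, Real.exp_log h3,
      Real.rpow_def_of_pos h4, mul_comm (Real.log (q k : ℝ))]
  have hplog : ∀ k, Real.log (v' k) ≤ Real.log (p k).natAbs := by
    intro k
    apply Real.log_le_log
    · exact_mod_cast Nat.pos_of_ne_zero (hv' k).ne_zero
    · have h1 := Nat.le_of_dvd (Int.natAbs_pos.2 (hp k)) (Int.natCast_dvd.1 (hv'p k))
      exact_mod_cast h1
  have hpL : ∀ᶠ k in (UU : Filter ℕ), Real.log (p k).natAbs ≤ Real.log (2 * |ξ|) + L k := by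
    have hlim : ∀ᶠ k in (UU : Filter ℕ), Real.log 2 + c1 ≤ ε * L k := by
      have h2 : Tendsto (fun k => ε * L k) atTop atTop := Tendsto.const_mul_atTop hε hL
      exact ev_of_atTop (h2.eventually_ge_atTop _)
    filter_upwards [hq1, hbd, hvE, hlim] with k h1 h2 h3 h4
    have hqr : (0 : ℝ) < q k := by exact_mod_cast h1
    have hpn : (0 : ℝ) < (p k).natAbs := by
      exact_mod_cast Int.natAbs_pos.2 (hp k)
    have h5 : |ξ - p k / q k| ≤ ((p k).natAbs : ℝ) / q k / 2 := by
      refine h2.trans ?_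
      have h6 : ((p k).natAbs : ℝ) / q k / 2 =
          Real.exp (Real.log (p k).natAbs - L k - Real.log 2) := by
        rw [Real.exp_sub, Real.exp_sub, Real.exp_log hpn, Real.exp_log (by norm_num : (0:ℝ) < 2),
          hLdef, Real.exp_log hqr]
      rw [h6]
      apply Real.exp_le_exp.2
      have := hplog k
      linarith
    have h6 : ((p k).natAbs : ℝ) / q k = |(p k : ℝ) / q k| := by
      rw [abs_div, Nat.abs_cast, Nat.cast_natAbs]
      push_cast
      rfl
    have h7 : |(p k : ℝ) / q k| ≤ |ξ| + |ξ - p k / q k| := by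
      calc |(p k : ℝ) / q k| = |ξ - (ξ - p k / q k)| := by congr 1; ring
        _ ≤ _ := abs_sub ξ (ξ - p k / q k)
    have h8 : ((p k).natAbs : ℝ) / q k ≤ 2 * |ξ| := by linarith
    rw [div_le_iff₀ hqr] at h8
    have h9 := Real.log_le_log hpn h8
    rwa [Real.log_mul (by have := hirr.ne_zero; positivity) hqr.ne'] at h9
  -- the limits
  obtain ⟨a, ha⟩ : ∃ a, Tendsto (fun k => Real.log (v k) / L k) (UU : Filter ℕ) (𝓝 a) := by
    apply exists_ulim (C := 1)
    filter_upwards [hL0, hvDL] with k h1 h2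
    rw [abs_div, abs_of_pos h1, abs_of_nonneg (hlogs _), div_le_one h1]
    have := hlogs (D k)
    linarith
  obtain ⟨a', ha'⟩ : ∃ a, Tendsto (fun k => Real.log (v' k) / L k) (UU : Filter ℕ) (𝓝 a) := by
    apply exists_ulim (C := 2)
    have h0 : ∀ᶠ k in (UU : Filter ℕ), Real.log (2 * |ξ|) ≤ L k :=
      ev_of_atTop (hL.eventually_ge_atTop _)
    filter_upwards [hL0, hpL, h0] with k h1 h2 h3
    rw [abs_div, abs_of_pos h1, abs_of_nonneg (hlogs _), div_le_iff₀ h1]
    have := hplog k
    linarith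
  obtain ⟨d, hd⟩ : ∃ a, Tendsto (fun k => Real.log (D k) / L k) (UU : Filter ℕ) (𝓝 a) := by
    apply exists_ulim (C := 1)
    filter_upwards [hL0, hvDL] with k h1 h2
    rw [abs_div, abs_of_pos h1, abs_of_nonneg (hlogs _), div_le_one h1]
    have := hlogs (v k)
    linarith
  obtain ⟨e, he⟩ : ∃ a, Tendsto (fun k => E k / L k) (UU : Filter ℕ) (𝓝 a) := by
    apply exists_ulim (C := 2)
    have h0 : ∀ᶠ k in (UU : Filter ℕ), c1 ≤ L k :=
      ev_of_atTop (hL.eventually_ge_atTop _)
    filter_upwards [hL0, hvE, h0] with k h1 h2 h3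
    rw [abs_div, abs_of_pos h1, abs_of_nonneg (hE0 k), div_le_iff₀ h1]
    have := hlogs (v k)
    linarith
  have hae : a + e ≤ 1 := by
    have h1 := (ha.add he)
    have h2 := (hcon c1).const_add 1
    rw [add_zero] at h2
    refine le_of_tendsto_of_tendsto h1 h2 ?_
    filter_upwards [hL0, hvE] with k h3 h4
    rw [← add_div]
    rw [div_le_iff₀ h3, add_mul, div_mul_cancel₀ _ h3.ne', one_mul]
    exact h4
  have ha'1 : a' ≤ 1 := by
    have h2 := (hcon (Real.log (2 * |ξ|))).const_add 1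
    rw [add_zero] at h2
    refine le_of_tendsto_of_tendsto ha' h2 ?_
    filter_upwards [hL0, hpL] with k h3 h4
    rw [div_le_iff₀ h3, add_mul, div_mul_cancel₀ _ h3.ne', one_mul]
    have := hplog k
    linarith
  set lam : ℝ := 2 + ε - a - a' - e with hlam
  have hlam0 : 0 < lam := by rw [hlam]; linarith
  -- the field
  set F : IntermediateField ℚ ℝ := IntermediateField.adjoin ℚ {ξ} with hF
  have : FiniteDimensional ℚ F := IntermediateField.adjoin.finiteDimensional hξ.isIntegral
  set ξF : F := ⟨ξ, IntermediateField.mem_adjoin_simple_self ℚ ξ⟩ with hξF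
  have hξF' : (ξF : ℝ) = ξ := rfl
  have hirr' : Irrational (ξF : ℝ) := hirr
  -- the germs
  set r : ℕ → ℚ := fun k => (p k : ℚ) / (q k : ℚ) with hr
  have hcl : rho (gm r) - algebraMap ℝ HR (ξF : ℝ) ∈ SR L lam := by
    rw [rho_gm, cst_eq, gr_sub, mem_SR]
    intro ε' hε'
    have h1 := ((ha.add ha').add he).eventually (gt_mem_nhds
      (show a + a' + e < a + a' + e + ε' by linarith))
    filter_upwards [hL0, hbd, h1] with k h2 h3 h4
    have h5 : ((r k : ℚ) : ℝ) - (ξF : ℝ) = -(ξ - p k / q k) := by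
      rw [hr, hξF']
      push_cast
      ring
    rw [h5, abs_neg]
    refine h3.trans (Real.exp_le_exp.2 ?_)
    rw [← add_div, ← add_div, div_lt_iff₀ h2] at h4
    rw [hlam]
    nlinarith
  have hq0 : gm (fun k => ((q k : ℕ) : ℚ)) ≠ 0 := by
    rw [gm_ne_zero]
    filter_upwards [hq1] with k h1
    exact_mod_cast (by omega : q k ≠ 0)
  have hrq : gm r * gm (fun k => ((q k : ℕ) : ℚ)) = gm (fun k => ((p k : ℤ) : ℚ)) := by
    rw [gm_mul, gm_eq]
    filter_upwards [hq1] with k h1
    have : ((q k : ℕ) : ℚ) ≠ 0 := by exact_mod_cast (by omega : q k ≠ 0)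
    rw [hr]
    field_simp
  -- the valuations of the denominators
  have hκe : ∀ w : Fin s, ∃ t, Tendsto (fun k => vv b (some w) ((q k : ℕ) : ℚ) / L k)
      (UU : Filter ℕ) (𝓝 t) := by
    intro w
    apply exists_ulim (C := 1)
    filter_upwards [hL0, hq1] with k h1 h2
    have h3 : q k ≠ 0 := by omega
    rw [abs_div, abs_of_pos h1, div_le_one h1]
    have h4 := abs_vv_le b hb (some w) (x := ((q k : ℕ) : ℚ)) (by exact_mod_cast h3)
    rwa [ht_nat h3] at h4
  choose κ hκ using hκe
  have hκ'e : ∀ w : Fin s, ∃ t, Tendsto (fun k => vv b (some w) ((p k : ℤ) : ℚ) / L k)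
      (UU : Filter ℕ) (𝓝 t) := by
    intro w
    apply exists_ulim (C := 2)
    have h0 : ∀ᶠ k in (UU : Filter ℕ), Real.log (2 * |ξ|) ≤ L k :=
      ev_of_atTop (hL.eventually_ge_atTop _)
    filter_upwards [hL0, hpL, h0] with k h1 h2 h3
    rw [abs_div, abs_of_pos h1, div_le_iff₀ h1]
    have h4 := abs_vv_le b hb (some w) (x := ((p k : ℤ) : ℚ)) (by exact_mod_cast hp k)
    rw [ht_int (hp k)] at h4
    linarith
  choose κ' hκ' using hκ'e
  have hqcast : ∀ k, (((q k : ℕ) : ℚ)) = (((q k : ℕ) : ℤ) : ℚ) := fun k => by push_cast; rfl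
  have hκ0 : ∀ w, 0 ≤ κ w := fun w => ge_of_tendsto (hκ w) (by
    filter_upwards [hL0, hq1] with k h1 h2
    rw [hqcast]
    exact div_nonneg (vv_int_nonneg hb w (by exact_mod_cast (by omega : q k ≠ 0))) h1.le)
  have hκ'0 : ∀ w, 0 ≤ κ' w := fun w => ge_of_tendsto (hκ' w) (by
    filter_upwards [hL0] with k h1
    exact div_nonneg (vv_int_nonneg hb w (hp k)) h1.le)
  have hκa : a ≤ ∑ w, κ w := by
    refine le_of_tendsto_of_tendsto ha (tendsto_finsetSum Finset.univ fun w _ => hκ w) ?_
    filter_upwards [hL0, hq1] with k h1 h2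
    rw [← Finset.sum_div, div_le_div_iff_of_pos_right h1]
    have h3 := sum_vv_int hb hbi (n := ((q k : ℕ) : ℤ)) (by exact_mod_cast (by omega : q k ≠ 0))
      (hv k) (by exact_mod_cast (Dvd.intro _ rfl).trans (hvD k))
    exact h3
  have hκ'a : a' ≤ ∑ w, κ' w := by
    refine le_of_tendsto_of_tendsto ha' (tendsto_finsetSum Finset.univ fun w _ => hκ' w) ?_
    filter_upwards [hL0] with k h1
    rw [← Finset.sum_div, div_le_div_iff_of_pos_right h1]
    exact sum_vv_int hb hbi (hp k) (hv' k) (hv'p k)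
  have hqv : ∀ w, gm (fun k => ((q k : ℕ) : ℚ)) ∈ Sv B0 L (some w) (κ w) := fun w =>
    mem_Sv b hb hBb hL (some w) (by
      filter_upwards [hq1] with k h1
      exact_mod_cast (by omega : q k ≠ 0)) (hκ w)
  have hpv : ∀ w, gm r * gm (fun k => ((q k : ℕ) : ℚ)) ∈ Sv B0 L (some w) (κ' w) := fun w => by
    rw [hrq]
    exact mem_Sv b hb hBb hL (some w) (Eventually.of_forall fun k => by
      exact_mod_cast hp k) (hκ' w)
  have hqn : gm (fun k => ((q k : ℕ) : ℚ)) ∈ Sv B0 L none (-1) := by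
    refine mem_Sv b hb hBb hL none (by
      filter_upwards [hq1] with k h1
      exact_mod_cast (by omega : q k ≠ 0)) ?_
    refine (tendsto_const_nhds (x := (-1 : ℝ))).congr' ?_
    filter_upwards [hL0, hq1] with k h1 h2
    rw [vv_none, Rat.cast_natCast, Nat.abs_cast, neg_div]
    change -1 = -(L k / L k)
    rw [div_self h1.ne']
  have hSq : Sint B0 L (gm (fun k => ((q k : ℕ) : ℚ))) := by
    refine mem_Sint b hb hbi hBb hL (C := 1) ?_ ?_
    · filter_upwards [hq1] with k h1
      rw [ht_nat (by omega : q k ≠ 0), one_mul]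
    · intro ε' hε'
      filter_upwards [hL0] with k h1
      rw [Rat.den_natCast, cf_smooth hSp (smooth_one _)]
      positivity
  have hSp' : Sint B0 L (gm r * gm (fun k => ((q k : ℕ) : ℚ))) := by
    rw [hrq]
    refine mem_Sint b hb hbi hBb hL (C := 2) ?_ ?_
    · have h0 : ∀ᶠ k in (UU : Filter ℕ), Real.log (2 * |ξ|) ≤ L k :=
        ev_of_atTop (hL.eventually_ge_atTop _)
      filter_upwards [hpL, h0] with k h1 h2
      rw [ht_int (hp k)]
      linarith
    · intro ε' hε'
      filter_upwards [hL0] with k h1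
      rw [Rat.den_intCast, cf_smooth hSp (smooth_one _)]
      positivity
  by_cases he0 : e = 0
  · -- the theorem of Ridout
    refine germC (B0 := B0) hL hirr' hq0 κ κ' hlam0 hqv hpv hqn hcl hSq hSp' ?_
    rw [hlam, he0]
    linarith
  have hepos : 0 < e := lt_of_le_of_ne (ge_of_tendsto he (hL0.mono fun k h =>
    div_nonneg (hE0 k) h.le)) (Ne.symm he0)
  have hd0 : 0 ≤ d := ge_of_tendsto hd (hL0.mono fun k h => div_nonneg (hlogs _) h.le)
  have hδ1 : (1 : ℝ) ≤ P.natDegree := by exact_mod_cast hP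
  have heE : ∀ᶠ k in (UU : Filter ℕ), e / 2 * L k < E k := by
    filter_upwards [hL0, he.eventually (lt_mem_nhds (show e / 2 < e by linarith))] with k h1 h2
    rwa [lt_div_iff₀ h1] at h2
  have hhpos : ∀ᶠ k in (UU : Filter ℕ), 0 < ht (u k) := by
    filter_upwards [hL0, heE] with k h1 h2
    rcases ht_pos_or (u k) with h3 | h3
    · exfalso
      have h4 : E k = 0 := by
        rw [hE]
        unfold EE
        simp only []
        rw [h3, mul_zero, div_zero, mul_zero]
      rw [h4] at h2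
      have : 0 < e / 2 * L k := by positivity
      linarith
    · linarith
  have hhC : ∀ᶠ k in (UU : Filter ℕ), ht (u k) ≤ (2 / e) * L k := by
    filter_upwards [hL0, heE, hhpos, hvDL] with k h1 h2 h3 h4
    have h5 : E k * (P.natDegree * ht (u k)) = Real.log (D k) * Real.log (D k) := by
      rw [hE]
      unfold EE
      field_simp
    have h6 : Real.log (D k) ≤ L k := by have := hlogs (v k); linarith
    have h7 : Real.log (D k) * Real.log (D k) ≤ L k * L k :=
      mul_le_mul h6 h6 (hlogs _) h1.le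
    have h8 : ht (u k) ≤ P.natDegree * ht (u k) := by nlinarith
    have h9 : e / 2 * L k * ht (u k) ≤ L k * L k := by
      calc e / 2 * L k * ht (u k) ≤ E k * (P.natDegree * ht (u k)) :=
            mul_le_mul h2.le h8 h3.le (hE0 k)
        _ ≤ _ := by rw [h5]; exact h7
    have h10 : e / 2 * ht (u k) ≤ L k := by
      have : L k * (e / 2 * ht (u k)) ≤ L k * L k := by linarith
      exact le_of_mul_le_mul_left this h1
    rw [div_mul_eq_mul_div, le_div_iff₀ hepos]
    linarith
  obtain ⟨h, hh⟩ : ∃ a, Tendsto (fun k => ht (u k) / L k) (UU : Filter ℕ) (𝓝 a) := by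
    apply exists_ulim (C := 2 / e)
    filter_upwards [hL0, hhC] with k h1 h2
    rw [abs_div, abs_of_pos h1, abs_of_nonneg (ht_nonneg _), div_le_iff₀ h1]
    exact h2
  have hdh : d ≤ P.natDegree * h := by
    have h1 := (hh.const_mul (P.natDegree : ℝ)).add (hcon (Real.log (cP P)))
    rw [add_zero] at h1
    refine le_of_tendsto_of_tendsto hd h1 ?_
    filter_upwards [hL0] with k h2
    have h3 := log_D_le hP0 (hPu k) (hDP k)
    rw [div_le_iff₀ h2, add_mul, div_mul_cancel₀ _ h2.ne', mul_assoc, div_mul_cancel₀ _ h2.ne']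
    exact h3
  have hdpos : 0 < d := by
    have h1 : e ≤ d * (1 + Real.log (cP P) / Real.log 2) := by
      refine le_of_tendsto_of_tendsto he (hd.mul_const _) ?_
      filter_upwards [hL0] with k h2
      rw [div_mul_eq_mul_div, div_le_div_iff_of_pos_right h2]
      exact mul_le_mul_of_nonneg_left (theta_le hP (hPu k) (hDP k)) (hlogs _)
    have h2 := hlogs (cP P)
    have h3 : 0 < 1 + Real.log (cP P) / Real.log 2 := by positivity
    by_contra h4
    push Not at h4
    have : d * (1 + Real.log (cP P) / Real.log 2) ≤ 0 := mul_nonpos_of_nonpos_of_nonneg h4 h3.le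
    linarith
  have hδh : 0 < (P.natDegree : ℝ) * h := lt_of_lt_of_le hdpos hdh
  have hede : e = d ^ 2 / (P.natDegree * h) := by
    have h1 := (hd.mul hd).div (hh.const_mul (P.natDegree : ℝ)) hδh.ne'
    rw [← pow_two] at h1
    refine tendsto_nhds_unique he (h1.congr' ?_)
    filter_upwards [hL0, hhpos] with k h2 h3
    rw [hE]
    unfold EE
    simp only [Pi.div_apply]
    have h4 : L k ≠ 0 := h2.ne'
    have h5 : ht (u k) ≠ 0 := h3.ne'
    have h6 : (P.natDegree : ℝ) ≠ 0 := by linarith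
    field_simp
  -- the valuations of the units
  have hτe : ∀ w : Option (Fin s), ∃ t, Tendsto (fun k => vv b w (u k) / L k)
      (UU : Filter ℕ) (𝓝 t) := by
    intro w
    apply exists_ulim (C := 2 / e)
    filter_upwards [hL0, hhC] with k h1 h2
    rw [abs_div, abs_of_pos h1, div_le_iff₀ h1]
    exact (abs_vv_le b hb w (hu0 k)).trans h2
  choose τ hτ using hτe
  have hτs : ∑ w, τ w = 0 := by
    refine tendsto_nhds_unique (tendsto_finsetSum Finset.univ fun w _ => hτ w) ?_
    refine tendsto_const_nhds.congr fun k => ?_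
    rw [← Finset.sum_div, sum_vv b hb hbi (hu0 k), cf_smooth hSp (hud k),
      cf_smooth hSp (hun k), sub_self, zero_div]
  have hτm : ∑ w, min 0 (τ w) = -h := by
    have h1 : Tendsto (fun k => ∑ w, min 0 (vv b w (u k) / L k)) (UU : Filter ℕ)
        (𝓝 (∑ w, min 0 (τ w))) :=
      tendsto_finsetSum Finset.univ fun w _ => tendsto_const_nhds.min (hτ w)
    refine tendsto_nhds_unique h1 (hh.neg.congr' ?_)
    filter_upwards [hL0, hu1] with k h2 h3
    have h4 := ht_unit hb hbi (hu0 k) (hud k) h3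
    rw [← neg_div, ← h4, Finset.sum_div]
    refine Finset.sum_congr rfl fun w _ => ?_
    rw [← min_div_div_right h2.le, zero_div]
  have hτn : τ none ≤ 0 := by
    refine le_of_tendsto (hτ none) ?_
    filter_upwards [hL0, hu1] with k h1 h2
    apply div_nonpos_of_nonpos_of_nonneg _ h1.le
    rw [vv_none, neg_nonpos]
    apply Real.log_nonneg
    have h3 : ((|u k| : ℚ) : ℝ) = |(u k : ℝ)| := by push_cast; rfl
    rw [← h3]
    exact_mod_cast h2
  have huc : ∀ c : ℚ, gm u ≠ (c : GG) := by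
    intro c hc
    rw [gm_cst, gm_eq] at hc
    have h1 : h = 0 := by
      refine tendsto_nhds_unique hh ((hcon (ht c)).congr' ?_)
      filter_upwards [hc] with k h2
      rw [h2]
    rw [h1, mul_zero] at hδh
    exact lt_irrefl _ hδh
  -- the polynomial
  set PQ : ℚ[X] := P.map (Int.castRingHom ℚ) with hPQ
  have hPQd : PQ.natDegree = P.natDegree :=
    natDegree_map_eq_of_injective (RingHom.injective_int _) P
  have hPQ0 : PQ ≠ 0 := by
    rw [hPQ, Ne, Polynomial.map_eq_zero_iff (RingHom.injective_int _)]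
    exact hP0
  have hPQe : ∀ x : ℚ, eval x PQ = aeval x P := by
    intro x
    rw [hPQ, eval_map, aeval_def]
    rfl
  have hDi0 : gm (fun k => 1 / (D k : ℚ)) ≠ 0 := by
    rw [gm_ne_zero]
    refine Eventually.of_forall fun k => ?_
    have : ((D k : ℕ) : ℚ) ≠ 0 := by exact_mod_cast hD1 k
    positivity
  refine germRT (B0 := B0) hL hirr' hPQ0 (q := gm (fun k => ((q k : ℕ) : ℚ))) (r := gm r)
    (u := gm u) (Di := gm (fun k => 1 / (D k : ℚ))) hq0 hDi0 huc κ κ' hκ0 hκ'0 τ hlam0
    (d := d) hqv hpv ?_ ?_ ?_ hqn ?_ ?_ hcl hτs hτn hSq hSp' ?_ ?_ ?_ hd0 ?_ ?_ ?_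
  · intro w
    exact mem_Sv b hb hBb hL w (Eventually.of_forall hu0) (hτ w)
  · have h1 : (gm u)⁻¹ = gm (fun k => (u k)⁻¹) := rfl
    rw [h1]
    refine mem_Sv b hb hBb hL none (Eventually.of_forall fun k => inv_ne_zero (hu0 k)) ?_
    refine (hτ none).neg.congr fun k => ?_
    rw [vv_none, vv_none]
    push_cast
    rw [abs_inv, Real.log_inv]
    ring
  · intro w
    refine mem_Sv b hb hBb hL (some w) (Eventually.of_forall fun k => ?_) ?_
    · have : ((D k : ℕ) : ℚ) ≠ 0 := by exact_mod_cast hD1 k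
      positivity
    · refine (tendsto_const_nhds (x := (0 : ℝ))).congr fun k => ?_
      have h1 : ((D k : ℕ) : ℚ) ≠ 0 := by exact_mod_cast hD1 k
      have : Fact (b w).Prime := ⟨hb w⟩
      rw [vv_some b hb w (by positivity), one_div, padicValRat.inv, padicValRat.of_nat,
        padicValNat.eq_zero_of_not_dvd (hDS k (b w) (Finset.mem_image_of_mem _
          (Finset.mem_univ _)))]
      simp
  · refine mem_Sv b hb hBb hL none (Eventually.of_forall fun k => ?_) ?_
    · have : ((D k : ℕ) : ℚ) ≠ 0 := by exact_mod_cast hD1 k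
      positivity
    · refine hd.congr fun k => ?_
      rw [vv_none]
      push_cast
      rw [one_div, abs_inv, Nat.abs_cast, Real.log_inv]
      ring
  · -- the quotients are bounded
    apply SR_rho'
    have h1 : rho (gm r) = (rho (gm r) - algebraMap ℝ HR (ξF : ℝ)) + algebraMap ℝ HR (ξF : ℝ) := by
      ring
    rw [h1]
    exact SR_add hL (SR_anti hL hlam0.le hcl) (SR_cst hL _)
  · refine mem_Sint b hb hbi hBb hL (C := 2 / e) hhC ?_
    intro ε' hε'
    filter_upwards [hL0] with k h1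
    rw [cf_smooth hSp (hud k)]
    positivity
  · rw [gm_mul]
    have h1 : ∀ k, ∃ m : ℕ, q k = D k * m := fun k => (Dvd.intro_left _ rfl).trans (hvD k)
    choose m hm using h1
    have h2 : (fun k => ((q k : ℕ) : ℚ) * (1 / (D k : ℚ))) = fun k => ((m k : ℕ) : ℚ) := by
      funext k
      have h3 : ((D k : ℕ) : ℚ) ≠ 0 := by exact_mod_cast hD1 k
      conv_lhs => rw [hm k]
      push_cast
      field_simp
    rw [h2]
    refine mem_Sint b hb hbi hBb hL (C := 1) ?_ ?_
    · filter_upwards [hq1] with k h3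
      have h4 : m k ≠ 0 := by
        intro h5
        have := hm k
        rw [h5, mul_zero] at this
        omega
      rw [ht_nat h4, one_mul]
      apply Real.log_le_log
      · exact_mod_cast Nat.pos_of_ne_zero h4
      · have h5 : m k ≤ q k := by
          conv_rhs => rw [hm k]
          exact Nat.le_mul_of_pos_left _ (Nat.pos_of_ne_zero (hD1 k))
        exact_mod_cast h5
    · intro ε' hε'
      filter_upwards [hL0] with k h1
      rw [Rat.den_natCast, cf_smooth hSp (smooth_one _)]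
      positivity
  · rw [evq_gm, gm_mul]
    have h1 : ∀ k, ∃ m : ℤ, (aeval (u k) P).num = D k * m := fun k => hDP k
    choose m hm using h1
    have h2 : (fun k => eval (u k) PQ * (1 / (D k : ℚ))) =
        fun k => ((m k : ℤ) : ℚ) / ((((aeval (u k) P).den : ℕ) : ℤ) : ℚ) := by
      funext k
      have h3 : ((D k : ℕ) : ℚ) ≠ 0 := by exact_mod_cast hD1 k
      have h4 : (((aeval (u k) P).den : ℕ) : ℚ) ≠ 0 := by
        exact_mod_cast (aeval (u k) P).den_ne_zero
      rw [hPQe]
      conv_lhs => rw [← Rat.num_div_den (aeval (u k) P), hm k]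
      push_cast
      field_simp
    rw [h2]
    refine mem_Sint b hb hbi hBb hL (C := P.natDegree * (2 / e) + 1) ?_ ?_
    · have h0 : ∀ᶠ k in (UU : Filter ℕ), Real.log (cP P) ≤ L k :=
        ev_of_atTop (hL.eventually_ge_atTop _)
      filter_upwards [hhC, h0] with k h3 h4
      refine (ht_le_of _ _ (by exact_mod_cast (aeval (u k) P).den_ne_zero)).trans ?_
      have h5 : max (m k).natAbs (((aeval (u k) P).den : ℕ) : ℤ).natAbs ≤
          max (aeval (u k) P).num.natAbs (aeval (u k) P).den := by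
        refine max_le_max ?_ ?_
        · rw [hm k, Int.natAbs_mul, Int.natAbs_natCast]
          exact Nat.le_mul_of_pos_left _ (Nat.pos_of_ne_zero (hD1 k))
        · rw [Int.natAbs_natCast]
      have h6 : Real.log (max (m k).natAbs (((aeval (u k) P).den : ℕ) : ℤ).natAbs : ℕ) ≤
          ht (aeval (u k) P) := by
        unfold ht
        apply Real.log_le_log
        · have : 0 < (((aeval (u k) P).den : ℕ) : ℤ).natAbs := by
            rw [Int.natAbs_natCast]
            exact (aeval (u k) P).den_pos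
          exact_mod_cast lt_of_lt_of_le this (le_max_right _ _)
        · exact_mod_cast h5
      refine h6.trans ((ht_aeval hP0 (u k)).trans ?_)
      have h7 : (P.natDegree : ℝ) * ht (u k) ≤ P.natDegree * ((2 / e) * L k) :=
        mul_le_mul_of_nonneg_left h3 (Nat.cast_nonneg _)
      linarith
    · intro ε' hε'
      filter_upwards [hL0] with k h1
      rw [cf_smooth hSp]
      · positivity
      · refine (smooth_den_aeval (hud k) P).of_dvd ?_
        have h3 : ∀ (x y : ℤ), ((((x : ℚ) / y).den : ℤ)) ∣ y := fun x y => by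
          rw [← Rat.divInt_eq_div]; exact Rat.den_dvd x y
        exact_mod_cast h3 (m k) (((aeval (u k) P).den : ℕ) : ℤ)
  · rw [hPQd, hτm, neg_neg]
    exact hδh
  · rw [hPQd, hτm, neg_neg]
    exact hdh
  · rw [hPQd, hτm, neg_neg, ← hede, hlam]
    linarith

end Pool.Agent.H556.RT
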