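import Mathlib
import Pool.Agent.H556.RT.Core

/-!
# Rational approximations whose denominators have structured divisors
-/

set_option autoImplicit false

namespace Pool.Agent.H556.RT

open Filter Topology Pool.Agent.TH932.Abs Pool.Agent.TH932.Germs Pool.Agent.TH932.Chi
open Polynomial Pool.Agent.H556.LG

lemma num_inv {u : ℚ} (hu : u ≠ 0) : (u⁻¹).num.natAbs = u.den := by
  have h := Rat.den_inv_of_ne_zero (q := u⁻¹) (inv_ne_zero hu)
  rw [inv_inv] at h
  exact h.symm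

lemma ht_inv {u : ℚ} (hu : u ≠ 0) : ht u⁻¹ = ht u := by
  unfold ht
  rw [num_inv hu, Rat.den_inv_of_ne_zero hu, max_comm]

lemma rev_deg {P : ℤ[X]} (h0 : P.coeff 0 ≠ 0) : P.reverse.natDegree = P.natDegree := by
  rw [reverse_natDegree, natTrailingDegree_eq_zero.2 (Or.inr h0), Nat.sub_zero]

lemma rev_eval (P : ℤ[X]) {u : ℚ} (hu : u ≠ 0) :
    aeval u⁻¹ P.reverse = aeval u P * (u⁻¹) ^ P.natDegree := by
  letI : Invertible u := invertibleOfNonzero hu
  have h := eval₂_reverse_mul_pow (algebraMap ℤ ℚ) u P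
  rw [invOf_eq_inv] at h
  have h1 : aeval u⁻¹ P.reverse * u ^ P.natDegree = aeval u P := h
  rw [← h1, mul_assoc, ← mul_pow, mul_inv_cancel₀ hu, one_pow, mul_one]

/-- **the theorem** -/
theorem mainA {ξ : ℝ} (hξ : IsAlgebraic ℚ ξ) (hirr : Irrational ξ) (S : Finset ℕ)
    (hS : ∀ ℓ ∈ S, ℓ.Prime) (P : ℤ[X]) (hP : 1 ≤ P.natDegree) (hP0 : P.coeff 0 ≠ 0)
    {ε : ℝ} (hε : 0 < ε) :
    ∃ q0 : ℕ, ∀ (q : ℕ) (p : ℤ) (v v' D : ℕ) (u : ℚ), q0 ≤ q → p ≠ 0 → Smooth S v →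
      Smooth S v' → u ≠ 0 → Smooth S u.num.natAbs → Smooth S u.den → aeval u P ≠ 0 →
      (∀ ℓ ∈ S, ¬ ℓ ∣ D) → (D : ℤ) ∣ (aeval u P).num → v * D ∣ q → (v' : ℤ) ∣ p →
      v * v' * (D : ℝ) ^ (Real.log D / (P.natDegree * ht u)) / (q : ℝ) ^ (2 + ε) <
        |ξ - p / q| := by
  classical
  by_contra hcon
  push Not at hcon
  choose q p v v' D u hq hp hv hv' hu0 hun hud hPu hDS hDP hvD hv'p hviol using hcon
  have hqt : Tendsto q atTop atTop := tendsto_atTop_mono hq tendsto_id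
  set b : Fin S.card → ℕ := fun v => (S.equivFin.symm v : ℕ) with hb0
  have hb : ∀ v, (b v).Prime := fun v => hS _ (S.equivFin.symm v).2
  have hbi : Function.Injective b := fun v w h => S.equivFin.symm.injective (Subtype.ext h)
  have hbS : Finset.univ.image b = S := by
    ext p
    simp only [Finset.mem_image, Finset.mem_univ, true_and]
    constructor
    · rintro ⟨v, rfl⟩
      exact (S.equivFin.symm v).2
    · intro hp
      exact ⟨S.equivFin ⟨p, hp⟩, by rw [hb0]; simp⟩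
  have hD0 : ∀ k, D k ≠ 0 := by
    intro k h0
    have h1 := hDP k
    rw [h0, Nat.cast_zero, zero_dvd_iff, Rat.num_eq_zero] at h1
    exact hPu k h1
  have hviol' : ∀ k, |ξ - p k / q k| ≤
      v k * v' k * Real.exp (EE P (u k) (D k)) / (q k : ℝ) ^ (2 + ε) := by
    intro k
    have h1 : (0 : ℝ) < D k := by exact_mod_cast Nat.pos_of_ne_zero (hD0 k)
    have h2 := hviol k
    rw [Real.rpow_def_of_pos h1] at h2
    exact h2
  rcases Ultrafilter.eventually_or.1 (Eventually.of_forall (f := (UU : Filter ℕ))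
    fun k => le_or_gt 1 |u k|) with h | h
  · refine coreRT1 b hb hbi hξ hirr hP hε q v v' D p u hqt hp ?_ ?_ hu0 ?_ ?_ h hPu ?_ hDP hvD
      hv'p hviol' <;> rw [hbS] <;> assumption
  · have hrd := rev_deg hP0
    refine coreRT1 b hb hbi hξ hirr (P := P.reverse) (by rw [hrd]; exact hP) hε q v v' D p
      (fun k => (u k)⁻¹) hqt hp ?_ ?_ (fun k => inv_ne_zero (hu0 k)) ?_ ?_ ?_ ?_ ?_ ?_ hvD
      hv'p ?_
    · rw [hbS]; exact hv
    · rw [hbS]; exact hv'
    · intro k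
      rw [hbS, num_inv (hu0 k)]
      exact hud k
    · intro k
      rw [hbS, Rat.den_inv_of_ne_zero (hu0 k)]
      exact hun k
    · filter_upwards [h] with k hk
      rw [abs_inv]
      exact (one_le_inv₀ (abs_pos.2 (hu0 k))).2 hk.le
    · intro k
      rw [rev_eval P (hu0 k)]
      exact mul_ne_zero (hPu k) (pow_ne_zero _ (inv_ne_zero (hu0 k)))
    · rw [hbS]; exact hDS
    · intro k
      rw [rev_eval P (hu0 k)]
      refine dvd_num_mul (hDS k) (hDP k) ?_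
      rw [Rat.den_pow, Rat.den_inv_of_ne_zero (hu0 k)]
      exact (hun k).pow _
    · intro k
      have h1 : EE P.reverse (u k)⁻¹ (D k) = EE P (u k) (D k) := by
        unfold EE
        rw [hrd, ht_inv (hu0 k)]
      rw [h1]
      exact hviol' k

/-- the part of a number supported on `S` -/
lemma exists_smooth_part (S : Finset ℕ) (hS : ∀ ℓ ∈ S, ℓ.Prime) (q : ℕ) (hq : q ≠ 0) :
    ∃ v D : ℕ, q = v * D ∧ Smooth S v ∧ ∀ ℓ ∈ S, ¬ ℓ ∣ D := by
  induction q using Nat.strong_induction_on with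
  | _ q ih =>
    by_cases h : ∃ ℓ ∈ S, ℓ ∣ q
    · obtain ⟨ℓ, hℓ, q', rfl⟩ := h
      have hq' : q' ≠ 0 := by
        rintro rfl
        exact hq (mul_zero _)
      have h1 : q' < ℓ * q' := by
        have := (hS ℓ hℓ).one_lt
        have := Nat.pos_of_ne_zero hq'
        nlinarith
      obtain ⟨v, D, h2, h3, h4⟩ := ih q' h1 hq'
      refine ⟨ℓ * v, D, by rw [h2, mul_assoc], ?_, h4⟩
      intro ℓ' hℓ' h5
      rcases (Nat.Prime.dvd_mul hℓ').1 h5 with h6 | h6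
      · rwa [(Nat.prime_dvd_prime_iff_eq hℓ' (hS ℓ hℓ)).1 h6]
      · exact h3 ℓ' hℓ' h6
    · push Not at h
      exact ⟨1, q, (one_mul q).symm, smooth_one S, h⟩

/-- rational numbers whose base `b` expansion has a short period -/
theorem mainB {ξ : ℝ} (hξ : IsAlgebraic ℚ ξ) (hirr : Irrational ξ) {b : ℕ} (hb : 2 ≤ b)
    {K : ℝ} (hK : 2 ≤ K * Real.log b) {ε : ℝ} (hε : 0 < ε) :
    ∃ q0 : ℕ, ∀ (q : ℕ) (p : ℤ) (r s : ℕ), q0 ≤ q → 1 ≤ s → (s : ℝ) ≤ K * Real.log q →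
      q ∣ b ^ r * (b ^ s - 1) →
      (q : ℝ) ^ (-2 + 1 / (K * Real.log b) - ε) < |ξ - p / q| := by
  classical
  have hlb : 0 < Real.log b := Real.log_pos (by exact_mod_cast hb)
  have hKpos : 0 < K := by
    by_contra h
    push Not at h
    have : K * Real.log b ≤ 0 := mul_nonpos_of_nonpos_of_nonneg h hlb.le
    linarith
  set S : Finset ℕ := b.primeFactors with hS
  have hSp : ∀ ℓ ∈ S, ℓ.Prime := fun ℓ hℓ => Nat.prime_of_mem_primeFactors hℓ
  have hdeg : (X - C (1 : ℤ) : ℤ[X]).natDegree = 1 := natDegree_X_sub_C _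
  obtain ⟨q0, hq0⟩ := mainA hξ hirr S hSp (X - C (1 : ℤ)) (by rw [hdeg]) (by simp) hε
  -- the size of the bound
  have hsmall : ∃ q1 : ℕ, ∀ q : ℕ, q1 ≤ q → (q : ℝ) ^ (-2 + 1 / (K * Real.log b) - ε) < |ξ| := by
    have hneg : -2 + 1 / (K * Real.log b) - ε < 0 := by
      have : 1 / (K * Real.log b) ≤ 1 / 2 := one_div_le_one_div_of_le (by norm_num) hK
      linarith
    have h1 : Tendsto (fun q : ℕ => (q : ℝ) ^ (-2 + 1 / (K * Real.log b) - ε)) atTop (𝓝 0) := by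
      have h2 := (tendsto_rpow_neg_atTop (y := -(-2 + 1 / (K * Real.log b) - ε))
        (by linarith)).comp tendsto_natCast_atTop_atTop (α := ℕ)
      rw [neg_neg] at h2
      exact h2
    have h3 := h1.eventually (gt_mem_nhds (abs_pos.2 hirr.ne_zero))
    obtain ⟨q1, h4⟩ := eventually_atTop.1 h3
    exact ⟨q1, h4⟩
  obtain ⟨q1, hq1⟩ := hsmall
  refine ⟨max (max q0 q1) 2, ?_⟩
  intro q p r s hq hs hsK hdvd
  have hqq0 : q0 ≤ q := ((le_max_left _ _).trans (le_max_left _ _)).trans hq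
  have hqq1 : q1 ≤ q := ((le_max_right _ _).trans (le_max_left _ _)).trans hq
  have hq2 : 2 ≤ q := (le_max_right _ _).trans hq
  by_cases hp : p = 0
  · subst hp
    rw [Int.cast_zero, zero_div, sub_zero]
    exact hq1 q hqq1
  obtain ⟨v, D, hvD, hv, hD⟩ := exists_smooth_part S hSp q (by omega)
  have hv0 : v ≠ 0 := hv.ne_zero
  have hD0 : D ≠ 0 := by
    rintro rfl
    rw [mul_zero] at hvD
    omega
  have hbs : 2 ≤ b ^ s := hb.trans (Nat.le_self_pow (by omega) b)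
  have hbS : ∀ k, Smooth S (b ^ k) := by
    intro k ℓ hℓ h
    rw [hS, Nat.mem_primeFactors]
    exact ⟨hℓ, hℓ.dvd_of_dvd_pow h, by omega⟩
  have hcop : D.Coprime (b ^ r) := coprime_of_smooth hD (hbS r)
  have hDs : D ∣ b ^ s - 1 := by
    refine hcop.dvd_of_dvd_mul_left ?_
    exact (Dvd.intro_left v hvD.symm).trans hdvd
  have hnum : aeval (((b ^ s : ℕ) : ℚ)) (X - C (1 : ℤ)) = (((b ^ s : ℕ) : ℤ) - 1 : ℤ) := by
    simp
  have h1 := hq0 q p v 1 D ((b ^ s : ℕ) : ℚ) hqq0 hp hv (smooth_one S)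
    (by exact_mod_cast (by omega : b ^ s ≠ 0))
    (by rw [Rat.num_natCast, Int.natAbs_natCast]; exact hbS s)
    (by rw [Rat.den_natCast]; exact smooth_one S)
    (by
      rw [hnum]
      have : (((b ^ s : ℕ) : ℤ) - 1 : ℤ) ≠ 0 := by omega
      exact_mod_cast this) hD
    (by
      rw [hnum, Rat.num_intCast]
      have h2 : (((b ^ s : ℕ) : ℤ) - 1 : ℤ) = ((b ^ s - 1 : ℕ) : ℤ) := by
        rw [Nat.cast_sub (by omega)]
        simp
      rw [h2]
      exact_mod_cast hDs)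
    (by rw [← hvD]) (by simp)
  refine lt_of_le_of_lt ?_ h1
  rw [hdeg, ht_nat (by omega : b ^ s ≠ 0)]
  -- logarithms
  have hqr : (0 : ℝ) < q := by exact_mod_cast (by omega : 0 < q)
  have hvr : (0 : ℝ) < v := by exact_mod_cast Nat.pos_of_ne_zero hv0
  have hDr : (0 : ℝ) < D := by exact_mod_cast Nat.pos_of_ne_zero hD0
  have hlq : 0 < Real.log q := Real.log_pos (by exact_mod_cast (by omega : 1 < q))
  set ℓ : ℝ := Real.log q with hℓ
  set x : ℝ := Real.log D with hx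
  have hx0 : 0 ≤ x := Real.log_natCast_nonneg D
  have hlv : Real.log v = ℓ - x := by
    rw [hℓ, hx]
    conv_rhs => rw [hvD]
    push_cast
    rw [Real.log_mul hvr.ne' hDr.ne']
    ring
  have hlv0 : 0 ≤ Real.log v := Real.log_natCast_nonneg v
  have hxℓ : x ≤ ℓ := by linarith
  set κ : ℝ := K * Real.log b with hκ
  have hκ0 : 0 < κ := by linarith
  have hsl : Real.log ((b ^ s : ℕ) : ℝ) = s * Real.log b := by
    push_cast
    rw [Real.log_pow]
  have hs0 : (0 : ℝ) < s := by exact_mod_cast hs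
  have h2 : x ^ 2 / (κ * ℓ) ≤ x * (x / ((1 : ℕ) * Real.log ((b ^ s : ℕ) : ℝ))) := by
    rw [hsl, Nat.cast_one, one_mul, ← mul_div_assoc, ← pow_two]
    apply div_le_div_of_nonneg_left (sq_nonneg x) (by positivity)
    rw [hκ]
    nlinarith
  have h3 : ℓ / κ ≤ ℓ - x + x ^ 2 / (κ * ℓ) := by
    have h4 : ℓ - x + x ^ 2 / (κ * ℓ) - ℓ / κ = (ℓ - x) * (κ * ℓ - (ℓ + x)) / (κ * ℓ) := by
      field_simp
      ring
    have h5 : 0 ≤ (ℓ - x) * (κ * ℓ - (ℓ + x)) / (κ * ℓ) := by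
      apply div_nonneg (mul_nonneg (by linarith) _) (by positivity)
      nlinarith
    linarith
  rw [Real.rpow_def_of_pos hqr, Real.rpow_def_of_pos hDr, Real.rpow_def_of_pos hqr,
    Nat.cast_one (R := ℝ), mul_one, ← Real.exp_log hvr, ← Real.exp_add, ← Real.exp_sub]
  apply Real.exp_le_exp.2
  rw [← hℓ, ← hx, hlv]
  have h6 : ℓ * (-2 + 1 / κ - ε) = -2 * ℓ + ℓ / κ - ε * ℓ := by ring
  rw [h6]
  rw [Nat.cast_one] at h2
  linarith

/-- the periods of good approximations are long -/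
theorem mainC {ξ : ℝ} (hξ : IsAlgebraic ℚ ξ) (hirr : Irrational ξ) {b : ℕ} (hb : 2 ≤ b)
    (K : ℝ) :
    ∃ q0 : ℕ, ∀ (q : ℕ) (p : ℤ) (r s : ℕ), q0 ≤ q → 1 ≤ s → |ξ - p / q| < 1 / (q : ℝ) ^ 2 →
      q ∣ b ^ r * (b ^ s - 1) → K * Real.log q < s := by
  have hlb : 0 < Real.log b := Real.log_pos (by exact_mod_cast hb)
  set K' : ℝ := max K (2 / Real.log b) with hK'
  have h1 : 2 ≤ K' * Real.log b := by
    have := le_max_right K (2 / Real.log b)
    rw [← div_le_iff₀ hlb]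
    exact this
  have hpos : 0 < K' * Real.log b := by linarith
  obtain ⟨q0, hq0⟩ := mainB hξ hirr hb h1 (ε := 1 / (K' * Real.log b)) (by positivity)
  refine ⟨max q0 1, ?_⟩
  intro q p r s hq hs hap hdvd
  by_contra hcon
  push Not at hcon
  have hqq0 : q0 ≤ q := (le_max_left _ _).trans hq
  have hq1 : 1 ≤ q := (le_max_right _ _).trans hq
  have h2 : (s : ℝ) ≤ K' * Real.log q :=
    hcon.trans (mul_le_mul_of_nonneg_right (le_max_left _ _) (Real.log_natCast_nonneg q))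
  have h3 := hq0 q p r s hqq0 hs h2 hdvd
  have h4 : (q : ℝ) ^ (-2 + 1 / (K' * Real.log b) - 1 / (K' * Real.log b)) =
      1 / (q : ℝ) ^ 2 := by
    rw [show -2 + 1 / (K' * Real.log b) - 1 / (K' * Real.log b) = (-(2 : ℕ) : ℝ) by
      push_cast; ring, Real.rpow_neg (Nat.cast_nonneg q), Real.rpow_natCast, one_div]
  rw [h4] at h3
  exact lt_asymm h3 hap

end Pool.Agent.H556.RT
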