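import Mathlib
import Pool.Agent.H556.RT.Alg
import Pool.Agent.H556.FG.Seq

/-!
# Divisors of Fermat numbers near algebraic multiples of their roots
-/

set_option autoImplicit false

namespace Pool.Agent.H556.RT

open Filter Topology Pool.Agent.TH932.Germs Pool.Agent.TH796.AL
open Nat (fermatNumber)

/-- the algebraic case is impossible for divisors of Fermat numbers of intermediate size -/
theorem alg_false {q : ℕ} (hq : 2 ≤ q) (c : ℕ) (hc : 0 < c) (m : ℕ → ℕ)
    (hm : Tendsto m atTop atTop) {e : ℕ → ℕ} (he : Tendsto e atTop atTop) (a : ℕ → ℕ)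
    (hF : ∀ n, fermatNumber (m n) = c * (2 ^ e n) ^ q + 1)
    (had : ∀ n, a n ∣ fermatNumber (m n)) {α : ℝ} (hα0 : 0 < α)
    (hlow : ∀ᶠ n in (UU : Filter ℕ), α * 2 ^ e n ≤ a n)
    (hupp : ∀ᶠ n in (UU : Filter ℕ), (a n : ℝ) ≤ (α * 4) * 2 ^ e n)
    (hrel : ¬ NoRel (fun n => ((2 ^ e n : ℕ) : ℤ)) (fun n => (a n : ℤ))) : False := by
  classical
  obtain ⟨q', M, k, N, co, hq', hN, hsum⟩ := alg_case he _ hrel
  have htt : Tendsto (fun n => (2 : ℝ) ^ e n) atTop atTop :=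
    (tendsto_pow_atTop_atTop_of_one_lt (by norm_num)).comp he
  set K : ℕ := ∑ i, (k i).natAbs with hK
  have hq0 : (0 : ℝ) < q := by exact_mod_cast (by omega : 0 < q)
  have hδ : (0 : ℝ) < 1 / (2 * q) := by positivity
  obtain ⟨ε, hε, m₁, hmain⟩ := Pool.Agent.H556.FG.main {2} M K (1 / (2 * q)) hδ
  have hF1 : ∀ n, (1 : ℝ) ≤ fermatNumber (m n) := fun n => by
    have := Nat.three_le_fermatNumber (m n)
    exact_mod_cast (by omega : 1 ≤ fermatNumber (m n))
  have hFt : Tendsto (fun n => (fermatNumber (m n) : ℝ)) atTop atTop := by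
    apply tendsto_natCast_atTop_atTop.comp
    exact Nat.fermatNumber_strictMono.tendsto_atTop.comp hm
  have hFe : Tendsto (fun n => (fermatNumber (m n) : ℝ) ^ ε) atTop atTop :=
    (tendsto_rpow_atTop hε).comp hFt
  have hco : ∀ᶠ n in (UU : Filter ℕ), ∀ i, |(co i : ℝ)| ≤ (fermatNumber (m n) : ℝ) ^ ε := by
    rw [eventually_all]
    intro i
    exact ev_of_atTop (hFe.eventually_ge_atTop _)
  -- the growth conditions
  have hg1 : ∀ᶠ n in (UU : Filter ℕ), |(N : ℝ)| * (α * 4) < (2 : ℝ) ^ e n :=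
    ev_of_atTop (htt.eventually_gt_atTop _)
  have hg2 : ∀ᶠ n in (UU : Filter ℕ), (2 * c) / α ^ 2 < (2 : ℝ) ^ e n :=
    ev_of_atTop (htt.eventually_gt_atTop _)
  have hg3 : ∀ᶠ n in (UU : Filter ℕ), 1 / α < (2 : ℝ) ^ e n :=
    ev_of_atTop (htt.eventually_gt_atTop _)
  obtain ⟨n, hn1, hn2, hn3, hn4, hn5, hn6, hn7, hn8⟩ := (hsum.and (hco.and (hlow.and (hupp.and
    (hg1.and (hg2.and (hg3.and (ev_of_atTop (hm.eventually_ge_atTop m₁))))))))).exists
  set F := fermatNumber (m n) with hFdef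
  set t : ℝ := (2 : ℝ) ^ e n with ht
  have ht1 : 1 ≤ t := one_le_pow₀ (by norm_num)
  have ha0 : (0 : ℝ) < a n := lt_of_lt_of_le (by positivity) hn3
  have ha0' : a n ≠ 0 := by
    rintro h
    rw [h] at ha0
    simp at ha0
  have hFt' : (F : ℝ) = c * t ^ q + 1 := by
    rw [hFdef, hF n, ht]
    push_cast
    rfl
  have htq : t ^ 2 ≤ t ^ q := pow_le_pow_right₀ ht1 hq
  have hc1 : (1 : ℝ) ≤ c := by exact_mod_cast hc
  have hsum' : ∑ i, (co i : ℚ) * (2 : ℚ) ^ (k i * ((e n / q' : ℕ) : ℤ)) = ((N * (a n : ℤ) : ℤ) : ℚ) := by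
    rw [← hn1]
    push_cast
    rfl
  have hnum : (∑ i, (co i : ℚ) * (2 : ℚ) ^ (k i * ((e n / q' : ℕ) : ℤ))).num = N * (a n : ℤ) := by
    rw [hsum', Rat.num_intCast]
  have hpw : ∀ j : ℕ, j ≤ K → ((2 : ℝ) ^ (j * (e n / q'))) ≤ (F : ℝ) ^ (K : ℝ) := by
    intro j hj
    have h1 : (2 : ℝ) ^ (e n) ≤ F := by
      rw [hFt', ← ht]
      have h2 : t ≤ t ^ q := le_self_pow₀ ht1 (by omega)
      nlinarith
    rw [Real.rpow_natCast]
    calc (2 : ℝ) ^ (j * (e n / q')) ≤ (2 : ℝ) ^ (K * e n) := by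
          apply pow_le_pow_right₀ (by norm_num)
          exact Nat.mul_le_mul hj (Nat.div_le_self _ _)
      _ = ((2 : ℝ) ^ e n) ^ K := by rw [mul_comm, pow_mul]
      _ ≤ (F : ℝ) ^ K := pow_le_pow_left₀ (by positivity) h1 K
  have hval : ∀ i, (∃ x : ℕ, x ≤ K * (e n / q') ∧ (2 : ℚ) ^ (k i * ((e n / q' : ℕ) : ℤ)) = ((2 ^ x : ℕ) : ℚ)) ∨
      (∃ x : ℕ, x ≤ K * (e n / q') ∧ (2 : ℚ) ^ (k i * ((e n / q' : ℕ) : ℤ)) = ((2 ^ x : ℕ) : ℚ)⁻¹) := by
    intro i
    have hki : (k i).natAbs ≤ K :=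
      Finset.single_le_sum (f := fun i => (k i).natAbs) (fun _ _ => Nat.zero_le _)
        (Finset.mem_univ i)
    rcases Int.natAbs_eq (k i) with h | h
    · left
      refine ⟨(k i).natAbs * (e n / q'), Nat.mul_le_mul_right _ hki, ?_⟩
      rw [h, Int.natAbs_natCast, ← Nat.cast_mul, zpow_natCast]
      push_cast
      rfl
    · right
      refine ⟨(k i).natAbs * (e n / q'), Nat.mul_le_mul_right _ hki, ?_⟩
      rw [h, neg_mul, zpow_neg, ← Nat.cast_mul, zpow_natCast, Int.natAbs_neg, Int.natAbs_natCast]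
      push_cast
      rfl
  have key := hmain (m n) hn8 co (fun i => (2 : ℚ) ^ (k i * ((e n / q' : ℕ) : ℤ))) hn2
    (fun i => zpow_ne_zero _ (by norm_num))
    (by
      intro i p hp hd
      rw [Finset.mem_singleton]
      rcases hval i with ⟨x, -, hx⟩ | ⟨x, -, hx⟩
      · rw [hx] at hd
        rw [Rat.num_natCast, Rat.den_natCast, Int.natAbs_natCast] at hd
        rcases hd with h | h
        · exact (Nat.prime_dvd_prime_iff_eq hp Nat.prime_two).1 (hp.dvd_of_dvd_pow h)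
        · exact absurd (Nat.dvd_one.1 h) hp.one_lt.ne'
      · rw [hx, Rat.inv_natCast_num_of_pos (by positivity),
          Rat.inv_natCast_den_of_pos (by positivity)] at hd
        rcases hd with h | h
        · exact absurd (Nat.dvd_one.1 h) hp.one_lt.ne'
        · exact (Nat.prime_dvd_prime_iff_eq hp Nat.prime_two).1 (hp.dvd_of_dvd_pow h))
    (by
      intro i
      have hFK : (1 : ℝ) ≤ (F : ℝ) ^ (K : ℝ) := Real.one_le_rpow (hF1 n) (Nat.cast_nonneg _)
      have hb : ∀ x : ℕ, x ≤ K * (e n / q') → ((2 ^ x : ℕ) : ℝ) ≤ (F : ℝ) ^ (K : ℝ) := by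
        intro x hx
        refine le_trans ?_ (hpw K le_rfl)
        push_cast
        exact pow_le_pow_right₀ (by norm_num) hx
      rcases hval i with ⟨x, hx', hx⟩ | ⟨x, hx', hx⟩
      · rw [hx, Rat.num_natCast, Rat.den_natCast]
        constructor
        · rw [Int.cast_natCast, abs_of_nonneg (Nat.cast_nonneg _)]
          exact hb x hx'
        · rw [Nat.cast_one]
          exact hFK
      · rw [hx, Rat.inv_natCast_num_of_pos (by positivity),
          Rat.inv_natCast_den_of_pos (by positivity)]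
        constructor
        · rw [Int.cast_one, abs_one]
          exact hFK
        · exact hb x hx')
    (by
      rw [hnum]
      intro hdv
      have h1 : N * (a n : ℤ) ≠ 0 := mul_ne_zero hN (by exact_mod_cast ha0')
      have h2 := Int.le_of_dvd (abs_pos.2 h1) ((dvd_abs _ _).2 hdv)
      have h3 : (F : ℝ) ≤ |(N : ℝ)| * a n := by
        have h4 : ((F : ℤ) : ℝ) ≤ ((|N * (a n : ℤ)| : ℤ) : ℝ) := by exact_mod_cast h2
        rw [Int.cast_natCast, Int.cast_abs, Int.cast_mul, Int.cast_natCast, abs_mul,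
          abs_of_pos ha0] at h4
        exact h4
      have h5 : |(N : ℝ)| * a n ≤ |(N : ℝ)| * ((α * 4) * t) :=
        mul_le_mul_of_nonneg_left hn4 (abs_nonneg _)
      have h6 : |(N : ℝ)| * ((α * 4) * t) < t * t := by
        rw [← mul_assoc]
        exact mul_lt_mul_of_pos_right hn5 (by linarith)
      nlinarith)
    (a n) (had n) (by rw [hnum]; exact Dvd.intro_left N rfl)
  -- the contradiction
  have h1 : (a n : ℝ) ^ (2 * q) < F := by
    have h2 : (a n : ℝ) ^ (2 * q) < ((F : ℝ) ^ (1 / (2 * (q : ℝ)))) ^ (2 * q) :=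
      pow_lt_pow_left₀ key ha0.le (by omega)
    rw [← Real.rpow_natCast ((F : ℝ) ^ (1 / (2 * (q : ℝ)))), ← Real.rpow_mul (by positivity)] at h2
    have h3 : 1 / (2 * (q : ℝ)) * ((2 * q : ℕ) : ℝ) = 1 := by
      push_cast
      field_simp
    rw [h3, Real.rpow_one] at h2
    exact h2
  have h2 : (α * t) ^ (2 * q) ≤ (a n : ℝ) ^ (2 * q) := pow_le_pow_left₀ (by positivity) hn3 _
  -- `(α t) ^ (2 q) = (α² t) ^ q t ^ q`
  have h3 : (α * t) ^ (2 * q) = (α ^ 2 * t) ^ q * t ^ q := by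
    rw [pow_mul, mul_pow α t 2, ← mul_pow]
    ring
  have h4 : (2 * c : ℝ) < α ^ 2 * t := by
    rw [div_lt_iff₀ (by positivity)] at hn6
    linarith
  have h5 : (2 * c : ℝ) ≤ (α ^ 2 * t) ^ q := by
    refine h4.le.trans (le_self_pow₀ ?_ (by omega))
    linarith
  have h6 : (1 : ℝ) ≤ t ^ q := one_le_pow₀ ht1
  have h7 : (2 * c : ℝ) * t ^ q ≤ (α ^ 2 * t) ^ q * t ^ q := by
    apply mul_le_mul_of_nonneg_right h5 (by positivity)
  nlinarith

/-- the `q`-th root of `x + 1` -/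
lemma root_add_one {x : ℝ} (hx : 0 ≤ x) {q : ℕ} (hq : 1 ≤ q) :
    |(x + 1) ^ (1 / (q : ℝ)) - x ^ (1 / (q : ℝ))| ≤ 1 := by
  have hq0 : (0 : ℝ) < q := by exact_mod_cast hq
  have h1 : x ^ (1 / (q : ℝ)) ≤ (x + 1) ^ (1 / (q : ℝ)) :=
    Real.rpow_le_rpow hx (by linarith) (by positivity)
  rw [abs_of_nonneg (by linarith)]
  have h2 : (x + 1) ^ (1 / (q : ℝ)) ≤ x ^ (1 / (q : ℝ)) + 1 := by
    have h3 := Real.rpow_add_le_add_rpow (p := 1 / (q : ℝ)) hx zero_le_one (by positivity) (by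
      rw [div_le_one hq0]; exact_mod_cast hq)
    rwa [Real.one_rpow] at h3
  linarith

/-- the theorem along the `m` with a given residue of `2 ^ m` modulo `q` -/
theorem near_res {q : ℕ} (hq : 2 ≤ q) {α : ℝ} (hα : IsAlgebraic ℚ α) (hα0 : 0 < α) {ε : ℝ}
    (hε : 0 < ε) (ρ : ℕ) :
    ∃ m₀ : ℕ, ∀ m ≥ m₀, 2 ^ m % q = ρ → ∀ a : ℕ, a ∣ fermatNumber m →
      (fermatNumber m : ℝ) ^ (1 / (q : ℝ) ^ 2 - ε) <
        |(a : ℝ) - α * (fermatNumber m : ℝ) ^ (1 / (q : ℝ))| := by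
  classical
  by_contra hcon
  push Not at hcon
  have hq0 : (0 : ℝ) < q := by exact_mod_cast (by omega : 0 < q)
  have hq2 : (2 : ℝ) ≤ q := by exact_mod_cast hq
  set c : ℕ := 2 ^ ρ with hc
  have hc0 : 0 < c := by positivity
  have hc1 : (1 : ℝ) ≤ c := by exact_mod_cast hc0
  set ee : ℕ → ℕ := fun m => 2 ^ m / q with hee
  have heet : Tendsto ee atTop atTop :=
    (Nat.tendsto_div_const_atTop (by omega)).comp (tendsto_pow_atTop_atTop_of_one_lt (by norm_num))
  have hFee : ∀ m, 2 ^ m % q = ρ → fermatNumber m = c * (2 ^ ee m) ^ q + 1 := by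
    intro m hm
    unfold fermatNumber
    congr 1
    rw [hc, ← pow_mul, ← pow_add]
    congr 1
    have h1 := Nat.div_add_mod (2 ^ m) q
    rw [hm] at h1
    rw [hee]
    simp only []
    rw [mul_comm, add_comm]
    exact h1.symm
  -- the constants
  set δ : ℝ := min (q * ε / 2) (1 / (4 * q)) with hδ
  have hδ0 : 0 < δ := lt_min (by positivity) (by positivity)
  have hδ1 : δ ≤ q * ε / 2 := min_le_left _ _
  have hδ2 : δ ≤ 1 / (4 * q) := min_le_right _ _
  have hδ3 : 2 * δ ≤ 1 / q := by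
    have : (1 : ℝ) / (4 * q) = 1 / q / 4 := by field_simp
    have h2 : (0 : ℝ) < 1 / q := by positivity
    linarith
  set κ : ℝ := 1 / q - δ with hκ
  set α' : ℝ := α * (c : ℝ) ^ (1 / (q : ℝ)) with hα'
  have hcq : (0 : ℝ) < (c : ℝ) ^ (1 / (q : ℝ)) := Real.rpow_pos_of_pos (by linarith) _
  have hα'0 : 0 < α' := mul_pos hα0 hcq
  have hα'alg : IsAlgebraic ℚ α' := by
    apply IsAlgebraic.mul hα
    have h1 : ((c : ℝ) ^ (1 / (q : ℝ))) ^ q = c := by
      rw [← Real.rpow_natCast, ← Real.rpow_mul (by linarith)]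
      have : 1 / (q : ℝ) * (q : ℝ) = 1 := by field_simp
      rw [this, Real.rpow_one]
    have h2 : IsAlgebraic ℚ (((c : ℝ) ^ (1 / (q : ℝ))) ^ q) := by
      rw [h1]
      exact isAlgebraic_natCast c
    exact h2.of_pow (by omega)
  have hLT := LT_tendsto heet
  have hlarge : ∀ᶠ m in atTop, 2 * c + α ≤ Real.exp (δ * LT ee m) := by
    have h2 : Tendsto (fun n => Real.exp (δ * LT ee n)) atTop atTop :=
      Real.tendsto_exp_atTop.comp (hLT.const_mul_atTop hδ0)
    exact h2.eventually_ge_atTop _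
  have hlarge2 : ∀ᶠ m in atTop, 2 / α' ≤ Real.exp ((1 - κ) * LT ee m) := by
    have h1 : 0 < 1 - κ := by
      have : (1 : ℝ) / q ≤ 1 / 2 := by
        apply one_div_le_one_div_of_le (by norm_num) hq2
      rw [hκ]; linarith
    have h2 : Tendsto (fun n => Real.exp ((1 - κ) * LT ee n)) atTop atTop :=
      Real.tendsto_exp_atTop.comp (hLT.const_mul_atTop h1)
    exact h2.eventually_ge_atTop _
  obtain ⟨M₁, hM₁⟩ := eventually_atTop.1 (hlarge.and hlarge2)
  choose m hm hmρ a had hclose using fun n : ℕ => hcon (n + M₁)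
  have hmt : Tendsto m atTop atTop :=
    tendsto_atTop_mono (fun n => (Nat.le_add_right n M₁).trans (hm n)) tendsto_id
  set e : ℕ → ℕ := fun n => ee (m n) with he
  have het : Tendsto e atTop atTop := heet.comp hmt
  have hF : ∀ n, fermatNumber (m n) = c * (2 ^ e n) ^ q + 1 := fun n => hFee _ (hmρ n)
  have hM : ∀ n, M₁ ≤ m n := fun n => (Nat.le_add_left M₁ n).trans (hm n)
  -- the distance
  have hdist : ∀ n, |(a n : ℝ) - α' * 2 ^ e n| ≤ Real.exp (κ * LT e n) := by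
    intro n
    obtain ⟨hl1, -⟩ := hM₁ (m n) (hM n)
    have hLe : LT ee (m n) = LT e n := rfl
    rw [hLe] at hl1
    set t : ℝ := (2 : ℝ) ^ e n with ht
    have htL : t = Real.exp (LT e n) := (exp_LT e n).symm
    have ht1 : 1 ≤ t := one_le_pow₀ (by norm_num)
    have hFt : (fermatNumber (m n) : ℝ) = c * t ^ q + 1 := by
      rw [hF n, ht]
      push_cast
      rfl
    have h1 := hclose n
    rw [hFt] at h1
    have hx0 : (0 : ℝ) ≤ c * t ^ q := by positivity
    have h2 : ((c : ℝ) * t ^ q) ^ (1 / (q : ℝ)) = (c : ℝ) ^ (1 / (q : ℝ)) * t := by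
      rw [Real.mul_rpow (by positivity) (by positivity), ← Real.rpow_natCast t q,
        ← Real.rpow_mul (by positivity)]
      congr 1
      have : (q : ℝ) * (1 / (q : ℝ)) = 1 := by field_simp
      rw [this, Real.rpow_one]
    have h3 := root_add_one hx0 (q := q) (by omega)
    rw [h2] at h3
    have h4 : |(a n : ℝ) - α' * t| ≤
        ((c : ℝ) * t ^ q + 1) ^ (1 / (q : ℝ) ^ 2 - ε) + α := by
      have h5 : (a n : ℝ) - α' * t = ((a n : ℝ) - α * ((c : ℝ) * t ^ q + 1) ^ (1 / (q : ℝ))) +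
          α * (((c : ℝ) * t ^ q + 1) ^ (1 / (q : ℝ)) - (c : ℝ) ^ (1 / (q : ℝ)) * t) := by
        rw [hα']; ring
      rw [h5]
      refine (abs_add_le _ _).trans (add_le_add h1 ?_)
      rw [abs_mul, abs_of_pos hα0]
      nlinarith
    refine h4.trans ?_
    have htq : (1 : ℝ) ≤ t ^ q := one_le_pow₀ ht1
    have hbase : (1 : ℝ) ≤ c * t ^ q + 1 := by linarith
    have hbase2 : (c : ℝ) * t ^ q + 1 ≤ 2 * c * t ^ q := by nlinarith
    set θ : ℝ := 1 / (q : ℝ) ^ 2 - 2 * δ / q with hθ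
    have hθ0 : 0 ≤ θ := by
      rw [hθ, sub_nonneg, div_le_div_iff₀ hq0 (by positivity)]
      rw [le_div_iff₀ hq0] at hδ3
      nlinarith
    have hθ1 : θ ≤ 1 := by
      have h6 : 1 / (q : ℝ) ^ 2 ≤ 1 := by
        rw [div_le_one (by positivity)]
        nlinarith
      have h7 : 0 ≤ 2 * δ / q := by positivity
      linarith
    have h8 : ((c : ℝ) * t ^ q + 1) ^ (1 / (q : ℝ) ^ 2 - ε) ≤ (2 * c * t ^ q) ^ θ := by
      calc ((c : ℝ) * t ^ q + 1) ^ (1 / (q : ℝ) ^ 2 - ε) ≤ ((c : ℝ) * t ^ q + 1) ^ θ := by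
            apply Real.rpow_le_rpow_of_exponent_le hbase
            have h9 : 2 * δ / q ≤ ε := by
              rw [div_le_iff₀ hq0]
              nlinarith
            linarith
        _ ≤ _ := Real.rpow_le_rpow (by linarith) hbase2 hθ0
    have h9 : (2 * c * t ^ q) ^ θ ≤ 2 * c * Real.exp ((κ - δ) * LT e n) := by
      rw [Real.mul_rpow (by positivity) (by positivity)]
      apply mul_le_mul
      · conv_rhs => rw [← Real.rpow_one (2 * (c : ℝ))]
        exact Real.rpow_le_rpow_of_exponent_le (by linarith) hθ1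
      · rw [← Real.rpow_natCast, ← Real.rpow_mul (by linarith), htL, ← Real.exp_mul]
        apply le_of_eq
        congr 1
        rw [hθ, hκ]
        field_simp
        ring
      · positivity
      · positivity
    have h10 : Real.exp ((κ - δ) * LT e n) * Real.exp (δ * LT e n) = Real.exp (κ * LT e n) := by
      rw [← Real.exp_add]; ring_nf
    have h11 : 1 ≤ Real.exp ((κ - δ) * LT e n) := by
      apply Real.one_le_exp
      apply mul_nonneg _ (LT_nonneg e n)
      rw [hκ]; linarith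
    rw [← h10]
    nlinarith
  have hlow : ∀ᶠ n in (UU : Filter ℕ), α' / 2 * 2 ^ e n ≤ a n ∧
      (a n : ℝ) ≤ (α' / 2 * 4) * 2 ^ e n := by
    refine Eventually.of_forall fun n => ?_
    obtain ⟨-, hl2⟩ := hM₁ (m n) (hM n)
    have hLe : LT ee (m n) = LT e n := rfl
    rw [hLe, div_le_iff₀ hα'0] at hl2
    have h1 := abs_le.1 (hdist n)
    have h2 : Real.exp (κ * LT e n) * Real.exp ((1 - κ) * LT e n) = 2 ^ e n := by
      rw [← Real.exp_add, ← exp_LT]; ring_nf
    have h3 := Real.exp_pos (κ * LT e n)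
    have h4 : 2 * Real.exp (κ * LT e n) ≤ α' * 2 ^ e n := by
      rw [← h2]; nlinarith
    constructor <;> linarith
  by_cases hrel : NoRel (fun n => ((2 ^ e n : ℕ) : ℤ)) (fun n => (a n : ℤ))
  · refine trans_case hq c hc0 het (fun n => (a n : ℤ)) (fun n => ((fermatNumber (m n) / a n : ℕ) : ℤ))
      (fun n => ?_) hα'alg hα'0 (κ := κ) ?_ ?_ (fun n => ?_) hrel
    · have h1 := Nat.mul_div_cancel' (had n)
      have h2 := hF n
      rw [← h1] at h2
      exact_mod_cast h2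
    · rw [hκ]; linarith
    · rw [hκ]; linarith
    · have := hdist n
      exact_mod_cast this
  · exact alg_false hq c hc0 m hmt het a hF had (α := α' / 2) (by positivity)
      (hlow.mono fun n h => h.1) (hlow.mono fun n h => h.2) hrel

/-- **Divisors of Fermat numbers near algebraic multiples of their roots.** -/
theorem near {q : ℕ} (hq : 2 ≤ q) {α : ℝ} (hα : IsAlgebraic ℚ α) (hα0 : 0 < α) {ε : ℝ}
    (hε : 0 < ε) :
    ∃ m₀ : ℕ, ∀ m ≥ m₀, ∀ a : ℕ, a ∣ fermatNumber m →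
      (fermatNumber m : ℝ) ^ (1 / (q : ℝ) ^ 2 - ε) <
        |(a : ℝ) - α * (fermatNumber m : ℝ) ^ (1 / (q : ℝ))| := by
  choose M hM using fun ρ : Fin q => near_res hq hα hα0 hε ρ
  refine ⟨∑ ρ, M ρ, fun m hm a ha => ?_⟩
  refine hM ⟨2 ^ m % q, Nat.mod_lt _ (by omega)⟩ m ?_ rfl a ha
  exact (Finset.single_le_sum (f := fun ρ => M ρ) (fun _ _ => Nat.zero_le _)
    (Finset.mem_univ _)).trans hm

end Pool.Agent.H556.RT
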